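import Pool.Agent.Lib.MP_af3a4a_an.P1.CHK.H39.Line5A
import Pool.Agent.Lib.MP_af3a4a_an.P1.CHK.H39.Line5B

/-!
# Lines of slope bounds of `|q|`, `1 ≤ R ≤ 6 / 5` (helper21's data, helper39's checker, council 2)
-/

/-! The parts are in the imported files (split by helper88 for the build time only). -/
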