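import Pool.Agent.Lib.MP_af3a4a_an.P1.H74.Near
import Pool.Agent.Lib.MP_af3a4a_an.P1.H74.NearF6
import Pool.Agent.Lib.MP_af3a4a_an.P1.CHK.H58.SL

/-!
# `s0_40`: `N ≥ 40`, `4/5 ≤ R ≤ 21/10`, `m₁ ≥ 19 R / 40` (helper39, with helper58's box checker)
-/

set_option autoImplicit false

namespace Pool.Agent.Lib.MP_af3a4a_an.P1.CHK.H39.S0

open Finset MeasureTheory ComplexConjugate
open Pool.Agent.Lib.MP_af3a4a_an.SV (uu av)
open Pool.Agent.Lib.MP_af3a4a_an.P1.H80 Pool.Agent.Lib.MP_af3a4a_an.P1.H74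
open Pool.Agent.Lib.MP_af3a4a_an.P1.CHK.Arith
open Pool.Agent.Lib.MP_af3a4a_an.P1.CHK.H58.S (En goS goS_sound)

/-- consecutive intervals of `f`; the near test may be used from `R f ≥ c` on -/
def goF3 (Na c R0 R1 : ℕ) : ℕ → List (ℕ × List En) → Bool
  | f0, [] => Nat.ble 2097152 f0 || Nat.ble 1099511627776 (f0 * R0)
  | f0, p :: l => ev (Na * (R0 * R0) / 1048576) (fun Sa =>
      goS false (Nat.ble c (f0 * R0)) R0 R1 f0 p.1 Sa p.2) && goF3 Na c R0 R1 p.1 l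

/-- consecutive intervals of `R` -/
def goR3 (Na c flo Re : ℕ) : ℕ → List (ℕ × ℕ × List (ℕ × List En)) → Bool
  | R0, [] => Nat.ble Re R0
  | R0, p :: l => goF3 Na c p.1 p.2.1 flo p.2.2 && (Nat.ble p.1 R0 && goR3 Na c flo Re p.2.1 l)

/-- `R` in `[0.80000, 0.85000]` -/
def d0 : List (ℕ × List En) := [
  (501623, [⟨27044378, 19522, 26, 0, 4, 1, 773216661701, 2, 262144, 0⟩,
    ⟨28050266, 19522, 24, 0, 6, 1, 769527670650, 2, 245760, 0⟩,
    ⟨34912280, 19522, 24, 0, 6, 1, 756470095926, 2, 212992, 0⟩,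
    ⟨0, 19522, 27, 0, 0, 4, 923687839323, 2, 180224, 0⟩]),
  (506986, [⟨28850071, 19661, 22, 0, 8, 1, 766710865420, 2, 262144, 0⟩,
    ⟨0, 19661, 24, 0, 6, 1, 741964958794, 2, 196608, 0⟩]),
  (515117, [⟨38117761, 19872, 15, 0, 15, 1, 759078374986, 2, 245760, 0⟩,
    ⟨0, 19872, 27, 0, 0, 4, 1004441891958, 2, 163840, 0⟩]),
  (524288, [⟨0, 20190, 20, 0, 10, 1, 735307995291, 2, 262144, 0⟩]),
  (543206, [⟨0, 20550, 24, 0, 6, 1, 754484611501, 2, 196608, 0⟩]),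
  (572606, [⟨0, 21292, 26, 0, 3, 2, 873622876441, 2, 196608, 0⟩]),
  (619092, [⟨0, 22444, 27, 0, 0, 4, 927284000619, 2, 180224, 0⟩]),
  (694482, [⟨0, 24266, 27, 0, 0, 3, 1019282647542, 2, 114688, 0⟩]),
  (821338, [⟨0, 26676, 28, 0, 0, 3, 961828719531, 1, 49152, 0⟩]),
  (1046379, [⟨0, 31549, 28, 0, 0, 2, 1087598061964, 3, 52428, 177230⟩]),
  (1476430, [⟨0, 40194, 28, 0, 0, 0, 1097372134251, 1, 0, 0⟩])]

/-- `R` in `[0.85000, 0.90000]` -/
def d1 : List (ℕ × List En) := [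
  (524288, [⟨0, 19522, 23, 0, 7, 1, 787886658175, 1, 311296, 0⟩]),
  (623821, [⟨47273935, 20550, 22, 0, 8, 1, 893537514536, 2, 180224, 0⟩,
    ⟨0, 20550, 27, 0, 0, 4, 1075114356695, 2, 147456, 0⟩]),
  (801464, [⟨0, 24451, 27, 0, 0, 4, 1058219570904, 2, 65536, 0⟩]),
  (1143809, [⟨0, 30785, 28, 0, 0, 2, 1091570835506, 3, 52428, 138766⟩]),
  (1715714, [⟨0, 43937, 27, 0, 0, 0, 1098082571067, 1, 0, 0⟩])]

/-- `R` in `[0.90000, 0.95000]` -/
def d2 : List (ℕ × List En) := [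
  (524288, [⟨0, 19522, 26, 0, 1, 4, 974305924150, 1, 311296, 0⟩]),
  (656999, [⟨0, 20550, 25, 0, 5, 1, 950273271653, 2, 147456, 0⟩]),
  (906454, [⟨0, 25235, 28, 0, 0, 4, 1048915849194, 1, 49152, 0⟩]),
  (1246375, [⟨0, 34819, 28, 0, 0, 1, 1097121035582, 3, 52428, 182779⟩])]

/-- `R` in `[0.95000, 1.00000]` -/
def d3 : List (ℕ × List En) := [
  (524288, [⟨0, 19522, 27, 0, 0, 4, 974788443087, 1, 311296, 0⟩]),
  (701236, [⟨42883963, 5136, 36, 0, 6, 1, 1004437210256, 2, 131072, 0⟩,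
    ⟨0, 20550, 27, 0, 0, 5, 1059277449834, 1, 163840, 0⟩]),
  (964200, [⟨0, 26936, 28, 0, 0, 3, 1089463325219, 1, 16384, 0⟩]),
  (1235382, [⟨0, 37038, 28, 0, 0, 1, 1097859514380, 3, 52428, 183907⟩])]

/-- `R` in `[1.00000, 1.05000]` -/
def d4 : List (ℕ × List En) := [
  (524288, [⟨0, 19522, 27, 0, 0, 4, 1024042131061, 1, 311296, 0⟩]),
  (701236, [⟨0, 20550, 27, 0, 0, 5, 1053668536183, 1, 180224, 0⟩]),
  (964200, [⟨0, 26936, 28, 0, 0, 3, 1093542897995, 1, 16384, 0⟩]),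
  (1235382, [⟨0, 37038, 27, 0, 0, 2, 1098056759153, 3, 52428, 173910⟩])]

/-- `R` in `[1.05000, 1.10000]` -/
def d5 : List (ℕ × List En) := [
  (524288, [⟨0, 19522, 27, 0, 0, 4, 1052592775902, 1, 311296, 0⟩]),
  (701236, [⟨0, 20550, 27, 0, 0, 5, 1070760876644, 2, 81920, 0⟩]),
  (964200, [⟨0, 26936, 28, 0, 0, 3, 1095443465015, 1, 16384, 0⟩]),
  (1235382, [⟨0, 37038, 27, 0, 0, 2, 1098195816043, 3, 52428, 162768⟩])]

/-- `R` in `[1.10000, 1.15000]` -/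
def d6 : List (ℕ × List En) := [
  (524288, [⟨0, 19522, 27, 0, 0, 4, 1069465115495, 1, 311296, 0⟩]),
  (760218, [⟨0, 20550, 27, 0, 0, 5, 1080779101278, 2, 81920, 0⟩]),
  (1140328, [⟨0, 29201, 28, 0, 0, 3, 1097337967821, 1, 0, 0⟩])]

/-- `R` in `[1.15000, 1.20000]` -/
def d7 : List (ℕ × List En) := [
  (524288, [⟨0, 19522, 27, 0, 0, 4, 1079605041858, 1, 311296, 0⟩]),
  (760218, [⟨0, 20138, 28, 0, 0, 4, 1062532331253, 2, 98304, 0⟩]),
  (1140328, [⟨0, 29201, 28, 0, 0, 3, 1097632461493, 1, 0, 0⟩])]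

/-- `R` in `[1.20000, 1.25000]` -/
def d8 : List (ℕ × List En) := [
  (524288, [⟨0, 19130, 28, 0, 0, 4, 1057499121676, 1, 229376, 0⟩]),
  (760218, [⟨0, 20138, 28, 0, 0, 4, 1079363559652, 2, 98304, 0⟩]),
  (1140328, [⟨0, 29201, 28, 0, 0, 3, 1097844338709, 1, 0, 0⟩])]

/-- `R` in `[1.25000, 1.30000]` -/
def d9 : List (ℕ × List En) := [
  (524288, [⟨0, 19130, 28, 0, 0, 4, 1076301176384, 1, 229376, 0⟩]),
  (760218, [⟨0, 20138, 28, 0, 0, 4, 1087571984905, 2, 98304, 0⟩]),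
  (1140328, [⟨0, 29201, 28, 0, 0, 3, 1098002571033, 1, 0, 0⟩])]

/-- `R` in `[1.30000, 1.35000]` -/
def d10 : List (ℕ × List En) := [
  (524288, [⟨0, 19130, 28, 0, 0, 4, 1085703210770, 1, 229376, 0⟩]),
  (760218, [⟨0, 20138, 28, 0, 0, 4, 1091783539506, 2, 98304, 0⟩]),
  (1140328, [⟨0, 29201, 27, 0, 0, 4, 1098131624623, 1, 0, 0⟩])]

/-- `R` in `[1.35000, 1.40000]` -/
def d11 : List (ℕ × List En) := [
  (524288, [⟨0, 19130, 28, 0, 0, 4, 1090618865716, 1, 229376, 0⟩]),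
  (760218, [⟨0, 20138, 28, 0, 0, 4, 1094069600974, 2, 98304, 0⟩]),
  (1140328, [⟨0, 29201, 27, 0, 0, 4, 1098229349687, 1, 0, 0⟩])]

/-- `R` in `[1.40000, 1.45000]` -/
def d12 : List (ℕ × List En) := [
  (524288, [⟨0, 19130, 28, 0, 0, 4, 1093318688529, 1, 229376, 0⟩]),
  (760218, [⟨0, 20138, 28, 0, 0, 4, 1095388049325, 2, 98304, 0⟩])]

/-- `R` in `[1.45000, 1.50000]` -/
def d13 : List (ℕ × List En) := [
  (524288, [⟨0, 19130, 28, 0, 0, 4, 1094882951380, 1, 229376, 0⟩]),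
  (760218, [⟨0, 20138, 28, 0, 0, 4, 1096198096775, 1, 180224, 0⟩])]

/-- `R` in `[1.50000, 1.55000]` -/
def d14 : List (ℕ × List En) := [
  (524288, [⟨0, 19130, 28, 0, 0, 4, 1095841811653, 1, 229376, 0⟩]),
  (760218, [⟨0, 20138, 28, 0, 0, 4, 1096728345545, 1, 180224, 0⟩])]

/-- `R` in `[1.55000, 1.60000]` -/
def d15 : List (ℕ × List En) := [
  (524288, [⟨0, 19130, 28, 0, 0, 4, 1096464349712, 1, 229376, 0⟩]),
  (760218, [⟨0, 20138, 28, 0, 0, 4, 1097096914705, 1, 180224, 0⟩])]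

/-- `R` in `[1.60000, 1.65000]` -/
def d16 : List (ℕ × List En) := [
  (524288, [⟨0, 19130, 28, 0, 0, 4, 1096891913986, 1, 229376, 0⟩]),
  (760218, [⟨0, 20138, 28, 0, 0, 4, 1097367091526, 1, 180224, 0⟩])]

/-- `R` in `[1.65000, 1.70000]` -/
def d17 : List (ℕ × List En) := [
  (524288, [⟨0, 19130, 28, 0, 0, 4, 1097201197284, 1, 229376, 0⟩]),
  (760218, [⟨0, 20138, 28, 0, 0, 4, 1097574000044, 1, 180224, 0⟩])]

/-- `R` in `[1.70000, 1.75000]` -/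
def d18 : List (ℕ × List En) := [
  (524288, [⟨0, 19130, 28, 0, 0, 4, 1097435193931, 1, 229376, 0⟩]),
  (760218, [⟨0, 20138, 28, 0, 0, 4, 1097737914478, 1, 180224, 0⟩])]

/-- `R` in `[1.75000, 1.80000]` -/
def d19 : List (ℕ × List En) := [
  (524288, [⟨0, 19130, 28, 0, 0, 5, 1097618812210, 2, 65536, 0⟩]),
  (760218, [⟨0, 20138, 28, 0, 0, 4, 1097871034892, 1, 180224, 0⟩])]

/-- `R` in `[1.80000, 1.85000]` -/
def d20 : List (ℕ × List En) := [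
  (524288, [⟨0, 19130, 28, 0, 0, 5, 1097767007915, 2, 65536, 0⟩]),
  (760218, [⟨0, 20138, 28, 0, 0, 4, 1097980959783, 1, 180224, 0⟩])]

/-- `R` in `[1.85000, 1.90000]` -/
def d21 : List (ℕ × List En) := [
  (524288, [⟨0, 19130, 28, 0, 0, 5, 1097889122952, 2, 65536, 0⟩]),
  (760218, [⟨0, 20138, 28, 0, 0, 4, 1098071458467, 1, 180224, 0⟩])]

/-- `R` in `[1.90000, 1.95000]` -/
def d22 : List (ℕ × List En) := [
  (524288, [⟨0, 19130, 28, 0, 0, 5, 1097991146346, 2, 65536, 0⟩]),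
  (760218, [⟨0, 20138, 27, 0, 0, 5, 1098154055637, 1, 180224, 0⟩])]

/-- `R` in `[1.95000, 2.00000]` -/
def d23 : List (ℕ × List En) := [
  (524288, [⟨0, 19130, 28, 0, 0, 5, 1098075998247, 1, 131072, 0⟩]),
  (760218, [⟨0, 20138, 27, 0, 0, 5, 1098220545863, 1, 180224, 0⟩])]

/-- `R` in `[2.00000, 2.05000]` -/
def d24 : List (ℕ × List En) := [
  (524288, [⟨0, 19130, 27, 0, 0, 6, 1098154173652, 1, 131072, 0⟩])]

/-- `R` in `[2.05000, 2.10000]` -/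
def d25 : List (ℕ × List En) := [
  (524288, [⟨0, 19130, 27, 0, 0, 6, 1098217569659, 1, 131072, 0⟩])]

def dAll : List (ℕ × ℕ × List (ℕ × List En)) := [
  (838860, 891290, d0),
  (891289, 943719, d1),
  (943718, 996148, d2),
  (996147, 1048577, d3),
  (1048576, 1101005, d4),
  (1101004, 1153434, d5),
  (1153433, 1205863, d6),
  (1205862, 1258292, d7),
  (1258291, 1310721, d8),
  (1310720, 1363149, d9),
  (1363148, 1415578, d10),
  (1415577, 1468007, d11),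
  (1468006, 1520436, d12),
  (1520435, 1572865, d13),
  (1572864, 1625293, d14),
  (1625292, 1677722, d15),
  (1677721, 1730151, d16),
  (1730150, 1782580, d17),
  (1782579, 1835009, d18),
  (1835008, 1887437, d19),
  (1887436, 1939866, d20),
  (1939865, 1992295, d21),
  (1992294, 2044724, d22),
  (2044723, 2097153, d23),
  (2097152, 2149581, d24),
  (2149580, 2202010, d25)]

theorem dAll_ok : goR3 40 483785116222 498073 2202010 838860 dAll = true := by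
  decide +kernel

section

variable {N : ℕ} {z w : Fin N → ℂ} {R : ℝ} {σ : Fin N → ℂ} {f : ℝ}

theorem goF3_sound (hC : Cfg2 N z w R σ) (hN : 40 ≤ N) {Na c : ℕ} (hNa : Na ≤ N)
    (hR21 : R ≤ 21 / 10) {R0 R1 : ℕ}
    (hR0 : (R0 : ℝ) / 2 ^ 20 ≤ R) (hR1 : R ≤ (R1 : ℝ) / 2 ^ 20)
    (hf : (av (uu w)).re = f * R) (hf2 : f ≤ 2)
    (hnear : (c : ℝ) / 2 ^ 40 ≤ (av (uu w)).re → 1 / 4 < ‖(R : ℂ) - conj (av (uu w))‖)
    (l : List (ℕ × List En)) :
    ∀ f0 : ℕ, (f0 : ℝ) / 2 ^ 20 < f → goF3 Na c R0 R1 f0 l = true → False := by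
  induction l with
  | nil =>
    intro f0 hf0 hc
    simp only [goF3, Bool.or_eq_true, Nat.ble_eq] at hc
    rcases hc with h | h
    · have : (2097152 : ℝ) ≤ f0 := by exact_mod_cast h
      rw [div_lt_iff₀ (by positivity)] at hf0
      norm_num at hf0
      linarith
    · have h1 : (1099511627776 : ℝ) ≤ (f0 : ℝ) * R0 := by exact_mod_cast h
      have h2 : (f0 : ℝ) / 2 ^ 20 * ((R0 : ℝ) / 2 ^ 20) ≤ (f0 : ℝ) / 2 ^ 20 * R :=
        mul_le_mul_of_nonneg_left hR0 (by positivity)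
      have h3 : (f0 : ℝ) / 2 ^ 20 * R < f * R := mul_lt_mul_of_pos_right hf0 hC.hR
      have h4 : (av (uu w)).re ≤ 1 := (Complex.re_le_norm _).trans hC.av_le
      rw [hf] at h4
      have e : (f0 : ℝ) / 2 ^ 20 * ((R0 : ℝ) / 2 ^ 20) = (f0 : ℝ) * R0 / 2 ^ 40 := by ring
      rw [e] at h2
      have h5 : 1 ≤ (f0 : ℝ) * R0 / 2 ^ 40 := by
        rw [le_div_iff₀ (by positivity)]
        norm_num
        linarith
      linarith
  | cons p l ih =>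
    intro f0 hf0 hc
    simp only [goF3, ev_eq, Bool.and_eq_true] at hc
    obtain ⟨c1, c2⟩ := hc
    rcases le_or_gt f ((p.1 : ℝ) / 2 ^ 20) with h | h
    · refine goS_sound hC hN hR21 hR0 hR1 hf hf0.le h (fun hv => by simp at hv) ?_ p.2 _ ?_ c1
      · intro hb
        apply hnear
        rw [Nat.ble_eq] at hb
        have h1 : (c : ℝ) ≤ (f0 : ℝ) * R0 := by exact_mod_cast hb
        have h2 : (f0 : ℝ) / 2 ^ 20 * ((R0 : ℝ) / 2 ^ 20) ≤ (f0 : ℝ) / 2 ^ 20 * R :=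
          mul_le_mul_of_nonneg_left hR0 (by positivity)
        have h3 : (f0 : ℝ) / 2 ^ 20 * R ≤ f * R := (mul_lt_mul_of_pos_right hf0 hC.hR).le
        have e : (f0 : ℝ) / 2 ^ 20 * ((R0 : ℝ) / 2 ^ 20) = (f0 : ℝ) * R0 / 2 ^ 40 := by ring
        rw [e] at h2
        rw [hf]
        have h4 : (c : ℝ) / 2 ^ 40 ≤ (f0 : ℝ) * R0 / 2 ^ 40 :=
          div_le_div_of_nonneg_right h1 (by positivity)
        linarith
      · have h3 := Pool.Agent.Lib.MP_af3a4a_an.P1.CHK.Arith.div_le_real (Na * (R0 * R0)) 1048576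
        have h4 : (Na : ℝ) * ((R0 : ℝ) / 2 ^ 20) ^ 2 ≤ N * R ^ 2 := by
          apply mul_le_mul _ (pow_le_pow_left₀ (by positivity) hR0 2) (by positivity)
            (Nat.cast_nonneg N)
          exact_mod_cast hNa
        refine le_trans ?_ h4
        have h5 := div_le_div_of_nonneg_right h3 (by positivity : (0 : ℝ) ≤ 2 ^ 20)
        refine h5.trans (le_of_eq ?_)
        push_cast
        norm_num
        ring
    · exact ih p.1 h c2

theorem goR3_sound (hC : Cfg2 N z w R σ) (hN : 40 ≤ N) {Na c : ℕ} (hNa : Na ≤ N)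
    (hR21 : R ≤ 21 / 10) (hf : (av (uu w)).re = f * R) (hf2 : f ≤ 2)
    (hnear : (c : ℝ) / 2 ^ 40 ≤ (av (uu w)).re → 1 / 4 < ‖(R : ℂ) - conj (av (uu w))‖)
    {flo Re : ℕ} (hflo : (flo : ℝ) / 2 ^ 20 < f) (hRe : R < (Re : ℝ) / 2 ^ 20)
    (l : List (ℕ × ℕ × List (ℕ × List En))) :
    ∀ R0 : ℕ, (R0 : ℝ) / 2 ^ 20 ≤ R → goR3 Na c flo Re R0 l = true → False := by
  induction l with
  | nil =>
    intro R0 hR0 hc
    simp only [goR3, Nat.ble_eq] at hc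
    have h1 : (Re : ℝ) / 2 ^ 20 ≤ (R0 : ℝ) / 2 ^ 20 := by
      apply div_le_div_of_nonneg_right _ (by positivity)
      exact_mod_cast hc
    linarith
  | cons p l ih =>
    intro R0 hR0 hc
    simp only [goR3, Bool.and_eq_true, Nat.ble_eq] at hc
    obtain ⟨c1, c2, c3⟩ := hc
    rcases le_total R ((p.2.1 : ℝ) / 2 ^ 20) with h | h
    · refine goF3_sound hC hN hNa hR21 ?_ h hf hf2 hnear p.2.2 flo hflo c1
      refine le_trans ?_ hR0
      apply div_le_div_of_nonneg_right _ (by positivity)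
      exact_mod_cast c2
    · exact ih p.2.1 h c3

/-- **`s0_40`**: `N ≥ 40`, `4/5 ≤ R ≤ 21/10`, `m₁ ≥ 19 R / 40` is impossible. -/
theorem s0_40 (hN : 40 ≤ N) (hC : Cfg2 N z w R σ) (hR4 : 4 / 5 ≤ R) (hR21 : R ≤ 21 / 10)
    (hf : 19 / 40 * R ≤ (av (uu w)).re) : False := by
  have hR := hC.hR
  have hm : (av (uu w)).re ≤ 1 := (Complex.re_le_norm _).trans hC.av_le
  obtain ⟨f, hfd⟩ : ∃ f, f = (av (uu w)).re / R := ⟨_, rfl⟩
  have hff : (av (uu w)).re = f * R := by rw [hfd, div_mul_cancel₀ _ hR.ne']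
  have hf0 : 19 / 40 ≤ f := by rw [hfd, le_div_iff₀ hR]; exact hf
  have hf2 : f ≤ 2 := by
    rw [hfd, div_le_iff₀ hR]
    linarith
  have hnear : ((483785116222 : ℕ) : ℝ) / 2 ^ 40 ≤ (av (uu w)).re →
      1 / 4 < ‖(R : ℂ) - conj (av (uu w))‖ := by
    intro h1
    by_contra h
    refine Near.near_40 hN hC ?_ (not_lt.1 h)
    refine le_trans ?_ h1
    norm_num
  have hflo : ((498073 : ℕ) : ℝ) / 2 ^ 20 < f := by
    refine lt_of_lt_of_le ?_ hf0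
    norm_num
  refine goR3_sound hC hN hN hR21 hff hf2 hnear hflo ?_ dAll 838860 ?_ dAll_ok
  · refine lt_of_le_of_lt hR21 ?_
    norm_num
  · refine le_trans ?_ hR4
    norm_num

end

end Pool.Agent.Lib.MP_af3a4a_an.P1.CHK.H39.S0
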