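import Pool.Agent.Lib.MP_af3a4a_an.P1.CHK.H58.Defs
import Pool.Agent.Lib.MP_af3a4a_an.P1.CHK.Curve.Tab

/-!
# Bilinear multipliers: the checker (council 2, helper39)

Units: `R`, `B`, `x` in `1/M`; `α`, `|γ|`, `|δ|`, `|h|`, `κ`, `λ` in `1/S`, `S = 2^20`; the angle is
`k/64`. The multipliers `α, γ, δ, h` are `(a, gp - gn, dp - dn, hp - hn)` at `r0` and
`(a', gp' - gn', ...)` at `r1`, linear in between. The certificate is a list of nodes for `B`, 60 bits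
per node, lowest bits first: index of `κ` at `r0` (8), at `r1` (8), `λ` at `r0` in `1/1024` (16), at
`r1` (16), step of `B` before the node (12); the first node is `B = max (M - r1) 0 + step`, where the
step must be `0`. `κ` and `λ` are bilinear between the nodes.

The values at a node, for `R = r / M`: `P = 2 α B + K` (unit `1/(S M)`, offset `2^35 M`),
`U = R P - G` (unit `1/(S M²)`, offset `r M 2^35 + M² gp`), `q = dn + κ y₂`, `Y = 4 ∑` (unit
`1/(S M³)`) and `W = 1 + (8 B ‖(U, A)‖)²`.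
-/

set_option autoImplicit false

namespace Pool.Agent.Lib.MP_af3a4a_an.P1.CHK.H39.Bil

open Pool.Agent.Lib.MP_af3a4a_an.P1.CHK.H58 (tabK tabL)
open Pool.Agent.Lib.MP_af3a4a_an.P1.CHK.Curve (cN sN)

/-- `if c then a else b` -/
def bi {α : Type} (c : Bool) (a b : α) : α := Bool.rec b a c

theorem bi_eq {α : Type} (c : Bool) (a b : α) : bi c a b = bif c then a else b := by
  cases c <;> rfl

theorem bi_true {c d : Bool} (h : bi c d false = true) : c = true ∧ d = true := by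
  cases c
  · exact absurd h (by simp [bi])
  · exact ⟨rfl, h⟩

/-- table of `κ` -/
def kKr (i : ℕ) : ℕ := Nat.mod (Nat.shiftRight tabK (Nat.mul 32 i)) 4294967296

/-- table of `log κ` -/
def kLr (i : ℕ) : ℕ := Nat.mod (Nat.shiftRight tabL (Nat.mul 32 i)) 4294967296

/-- absolute difference -/
def adb (a b : ℕ) : ℕ := Nat.add (Nat.sub a b) (Nat.sub b a)

/-- one corner, values passed to the continuation -/
def corner (M MM D1 XC XS X2 M3 OP : ℕ) (r rr r2 a2 kC gn dn dp OU CG : ℕ)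
    (b bb b64 kap kl la : ℕ) (k : ℕ → ℕ → ℕ → ℕ → ℕ → Bool) : Bool :=
  (fun P g q =>
    (fun U => k P q U
      (Nat.mul 4 (Nat.sub (Nat.add (Nat.mul (Nat.add rr bb) P)
          (Nat.add (Nat.mul r2 g) (Nat.mul M3 la)))
        (Nat.add (Nat.mul (Nat.add rr bb) OP) (Nat.add (Nat.mul X2 kap) CG))))
      (Nat.add 1 (Nat.mul b64 (Nat.add (Nat.pow (adb U OU) 2) (Nat.pow (Nat.mul MM (adb q dp)) 2)))))
    (Nat.add (Nat.mul r P) (Nat.mul MM g)))
    (Nat.add (Nat.mul a2 b) (Nat.mul M (Nat.sub kC (Nat.add kl (Nat.add kap (Nat.mul 1024 la))))))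
    (Nat.add gn (Nat.div (Nat.mul XC kap) D1))
    (Nat.add dn (Nat.div (Nat.mul XS kap) D1))

/-- correction in the `B` direction on one side, four times; `e` the length, `sb` the sum -/
def cBn (MM OP e sb P P' q q' U U' : ℕ) : ℕ :=
  Nat.mul e (Nat.sub
    (Nat.add (Nat.mul e (Nat.add P (Nat.sub P' P))) (Nat.add (Nat.mul sb P')
      (Nat.mul 2 (Nat.add (adb U U') (Nat.mul MM (adb q q'))))))
    (Nat.add (Nat.mul e OP) (Nat.mul sb P)))

/-- the comparison at a corner -/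
def cmp (Y W c : ℕ) : Bool := Nat.ble W (Nat.pow (Nat.sub Y c) 2)

/-- one cell -/
def cellOK (MM OP E1 E2 : ℕ)
    (b u v w P0 q0 U0 Y0 W0 P1 q1 U1 Y1 W1 : ℕ)
    (b' u' v' w' P0' q0' U0' Y0' W0' P1' q1' U1' Y1' W1' : ℕ) : Bool :=
  (fun cR cR' c0 c1 =>
    bi (cmp Y0 W0 (Nat.add cR c0)) (bi (cmp Y1 W1 (Nat.add cR c1))
      (bi (cmp Y0' W0' (Nat.add cR' c0)) (cmp Y1' W1' (Nat.add cR' c1)) false) false) false)
    (Nat.add (Nat.sub (Nat.add u (Nat.mul b' w)) v) (Nat.add E1 (Nat.mul E2 b')))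
    (Nat.add (Nat.sub (Nat.add u' (Nat.mul b' w')) v') (Nat.add E1 (Nat.mul E2 b')))
    (cBn MM OP (Nat.sub b' b) (Nat.add b b') P0 P0' q0 q0' U0 U0')
    (cBn MM OP (Nat.sub b' b) (Nat.add b b') P1 P1' q1 q1' U1 U1')

/-- far region -/
def tlb (M a xm r1 gp gn dp dn hp hn b : ℕ) : Bool :=
  bi (Nat.blt r1 b) (Nat.ble
    (Nat.add (Nat.add (Nat.mul (Nat.mul xm 1048576) M)
      (Nat.mul (Nat.add (Nat.add gp gn) (Nat.add dp dn)) (Nat.mul M M)))
      (Nat.mul (Nat.mul (Nat.add a hp) M) (Nat.sub b r1)))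
    (Nat.mul (Nat.add (Nat.mul a b) (Nat.mul hn M)) (Nat.sub b r1))) false

/-- the type of a corner function -/
abbrev Cor : Type := ℕ → ℕ → ℕ → ℕ → ℕ → ℕ → (ℕ → ℕ → ℕ → ℕ → ℕ → Bool) → Bool

/-- the type of the state -/
abbrev St : Type := ℕ → ℕ → ℕ → ℕ → ℕ → ℕ → ℕ → ℕ → ℕ → ℕ → ℕ → ℕ → ℕ → ℕ → ℕ → Bool

/-- one node: `b` and its certificate -/
def node (cor0 cor1 : Cor) (D2 DD A1 A0 : ℕ) (c b : ℕ) (k : St) : Bool :=
  (fun i0 i1 l0 l1 bb =>
    bi (Nat.ble i0 208) (bi (Nat.ble i1 208)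
      (cor0 b bb (Nat.mul 64 bb) (kKr i0) (kLr i0) l0 fun P0 q0 U0 Y0 W0 =>
       cor1 b bb (Nat.mul 64 bb) (kKr i1) (kLr i1) l1 fun P1 q1 U1 Y1 W1 =>
       k (Nat.shiftRight c 60) b (Nat.add (Nat.mul D2 U1) A1)
        (Nat.add (Nat.mul D2 U0) (Nat.add (Nat.mul DD (Nat.sub P0 (Nat.sub P0 P1))) A0))
        (Nat.mul D2 (adb P0 P1)) P0 q0 U0 Y0 W0 P1 q1 U1 Y1 W1) false) false)
    (Nat.mod c 256) (Nat.mod (Nat.shiftRight c 8) 256) (Nat.mod (Nat.shiftRight c 16) 65536)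
    (Nat.mod (Nat.shiftRight c 32) 65536) (Nat.mul b b)

/-- the loop; `cor0`, `cor1` are the corner functions of the two sides -/
def bloop (cor0 cor1 : Cor) (D2 DD A1 A0 MM OP E1 E2 : ℕ) (fin : ℕ → Bool) (K : ℕ) : St :=
  Nat.rec (fun _ _ _ _ _ _ _ _ _ _ _ _ _ _ _ => false)
    (fun _ ih c b u v w P0 q0 U0 Y0 W0 P1 q1 U1 Y1 W1 =>
      bi (Nat.beq c 0) (fin b)
        (node cor0 cor1 D2 DD A1 A0 c (Nat.add b (Nat.mod (Nat.shiftRight c 48) 4096))
         (fun c' b' u' v' w' P0' q0' U0' Y0' W0' P1' q1' U1' Y1' W1' =>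
            bi (cellOK MM OP E1 E2 b u v w P0 q0 U0 Y0 W0 P1 q1 U1 Y1 W1
              b' u' v' w' P0' q0' U0' Y0' W0' P1' q1' U1' Y1' W1')
              (ih c' b' u' v' w' P0' q0' U0' Y0' W0' P1' q1' U1' Y1' W1') false))) K

/-- the check of one dual at one node `x`, general form -/
def bchk2 (M k xm r0 r1 a gp gn dp dn hp hn a' gp' gn' dp' dn' hp' hn' c : ℕ) : Bool :=
  bi (bi (bi (Nat.ble 1 M) (Nat.ble xm (Nat.mul 4 M)) false)
    (bi (bi (Nat.ble r0 r1) (Nat.ble k 100) false)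
      (bi (Nat.ble (Nat.add a hp) 4294967296) (Nat.ble (Nat.add a' hp') 4294967296) false)
      false) false)
    ((fun MM OP D1 XC XS X2 M3 D => (fun OU0 OU1 D2 DD r02 r12 =>
      (fun cor0 cor1 A1 A0 =>
        node cor0 cor1 D2 DD A1 A0 c (Nat.sub M r1)
          (bloop cor0 cor1 D2 DD A1 A0 MM OP (Nat.mul MM (Nat.mul 16 r1)) (Nat.mul 32 MM)
            (fun b => bi (tlb M a xm r1 gp gn dp dn hp hn b)
              (tlb M a' xm r1 gp' gn' dp' dn' hp' hn' b) false) 300))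
        (corner M MM D1 XC XS X2 M3 OP r0 (Nat.mul r0 r0) r02 (Nat.mul 2 a)
          (Nat.sub (Nat.add 34377564160 (Nat.mul 2 hn)) (Nat.mul 2 (Nat.add a hp)))
          gn dn dp OU0 (Nat.mul r02 gp))
        (corner M MM D1 XC XS X2 M3 OP r1 (Nat.mul r1 r1) r12 (Nat.mul 2 a')
          (Nat.sub (Nat.add 34377564160 (Nat.mul 2 hn')) (Nat.mul 2 (Nat.add a' hp')))
          gn' dn' dp' OU1 (Nat.mul r12 gp'))
        (Nat.add (Nat.mul D2 OU0) (Nat.mul DD OP)) (Nat.mul D2 OU1))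
      (Nat.add (Nat.mul r0 OP) (Nat.mul MM gp)) (Nat.add (Nat.mul r1 OP) (Nat.mul MM gp'))
      (Nat.mul 2 D) (Nat.mul D D) (Nat.mul 2 (Nat.mul r0 MM)) (Nat.mul 2 (Nat.mul r1 MM)))
      (Nat.mul M M) (Nat.mul M 34359738368) (Nat.mul M 1099511627776) (Nat.mul xm (cN k))
      (Nat.mul xm (sN k)) (Nat.mul (Nat.mul xm xm) M) (Nat.mul 1024 (Nat.mul M (Nat.mul M M)))
      (Nat.sub r1 r0)) false

/-- the check with constant multipliers -/
def bchk (M k xm r0 r1 a gp gn dp dn hp hn c : ℕ) : Bool :=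
  bchk2 M k xm r0 r1 a gp gn dp dn hp hn a gp gn dp dn hp hn c

end Pool.Agent.Lib.MP_af3a4a_an.P1.CHK.H39.Bil
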