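import Pool.Agent.Lib.MP_af3a4a_an.P1.CHK.H39.InterpCell
import Pool.Agent.Lib.MP_af3a4a_an.P1.CHK.Curve.Nat2

set_option autoImplicit false

/-!
# Node duals: the radius (council 2, helper39)

`nearOK` checks by a few integer operations the radius `ρ = p / M` of a node dual; `amgm_ndual` gives
the AM-GM bound at a node as a node dual.
-/

namespace Pool.Agent.Lib.MP_af3a4a_an.P1.CHK.H39.Interp

open ComplexConjugate
open Pool.Agent.Lib.MP_af3a4a_an.SV (uu av)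
open Pool.Agent.Lib.MP_af3a4a_an.P1.H80
open Pool.Agent.Lib.MP_af3a4a_an.P1.CHK.H74
open Pool.Agent.Lib.MP_af3a4a_an.P1.CHK.H58 (S S_cast)
open Pool.Agent.Lib.MP_af3a4a_an.P1.CHK.Arith (isq isqL isqL_le_sqrt sqrt_le_isq esL esL_spec)
open Pool.Agent.Lib.MP_af3a4a_an.P1.CHK.Curve (cN sN cos_bd sin_bd)

/-! ## The real statement -/

theorem norm_mk (a b : ℝ) : ‖(⟨a, b⟩ : ℂ)‖ = Real.sqrt (a ^ 2 + b ^ 2) := by
  rw [Complex.norm_def, Complex.normSq_apply]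
  congr 1
  ring

/-- inversion of a disc -/
theorem inv_disc {v y : ℂ} {ρ : ℝ} (hv : v ≠ 0) (h : ‖v - y‖ ≤ ρ) (hy : ρ ≤ ‖y‖) :
    ‖((‖y‖ ^ 2 - ρ ^ 2 : ℝ) : ℂ) * v⁻¹ - conj y‖ ≤ ρ := by
  have hρ : 0 ≤ ρ := (norm_nonneg _).trans h
  have hv0 : 0 < ‖v‖ := norm_pos_iff.2 hv
  obtain ⟨q, hq⟩ : ∃ q, q = ‖y‖ ^ 2 - ρ ^ 2 := ⟨_, rfl⟩
  rw [← hq]
  have e : ((q : ℝ) : ℂ) * v⁻¹ - conj y = ((q : ℂ) - conj y * v) * v⁻¹ := by
    field_simp
  rw [e, norm_mul, norm_inv, ← div_eq_mul_inv, div_le_iff₀ hv0]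
  have h1 : ‖(q : ℂ) - conj y * v‖ ^ 2 ≤ (ρ * ‖v‖) ^ 2 := by
    have n1 : ‖(q : ℂ) - conj y * v‖ ^ 2 =
        (q - (y.re * v.re + y.im * v.im)) ^ 2 + (y.re * v.im - y.im * v.re) ^ 2 := by
      rw [← Complex.normSq_eq_norm_sq, Complex.normSq_apply]
      simp only [Complex.sub_re, Complex.sub_im, Complex.mul_re, Complex.mul_im, Complex.ofReal_re,
        Complex.ofReal_im, Complex.conj_re, Complex.conj_im]
      ring
    have n2 : ‖v‖ ^ 2 = v.re ^ 2 + v.im ^ 2 := by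
      rw [← Complex.normSq_eq_norm_sq, Complex.normSq_apply]
      ring
    have n3 : ‖y‖ ^ 2 = y.re ^ 2 + y.im ^ 2 := by
      rw [← Complex.normSq_eq_norm_sq, Complex.normSq_apply]
      ring
    have n4 : ‖v - y‖ ^ 2 = (v.re - y.re) ^ 2 + (v.im - y.im) ^ 2 := by
      rw [← Complex.normSq_eq_norm_sq, Complex.normSq_apply, Complex.sub_re, Complex.sub_im]
      ring
    have h2 : ‖v - y‖ ^ 2 ≤ ρ ^ 2 := pow_le_pow_left₀ (norm_nonneg _) h 2
    have h3 : ρ ^ 2 ≤ ‖y‖ ^ 2 := pow_le_pow_left₀ hρ hy 2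
    have h4 := mul_nonneg (sub_nonneg.2 h2) (sub_nonneg.2 h3)
    rw [mul_pow, n1, n2, hq, n3]
    rw [n4, n3] at h4
    linarith only [h4]
  exact (sq_le_sq₀ (norm_nonneg _) (by positivity)).1 h1

/-- bound of the linear part -/
theorem lin_le {u : ℂ} {γ δ G : ℝ} (hG0 : 0 ≤ G) (hG : γ ^ 2 + δ ^ 2 ≤ G ^ 2) :
    γ * u.re + δ * u.im ≤ G * ‖u‖ := by
  have h1 : (γ * u.re + δ * u.im) ^ 2 ≤ (G * ‖u‖) ^ 2 := by
    have n2 : ‖u‖ ^ 2 = u.re ^ 2 + u.im ^ 2 := by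
      rw [← Complex.normSq_eq_norm_sq, Complex.normSq_apply]
      ring
    rw [mul_pow, n2]
    have h2 := mul_le_mul_of_nonneg_right hG (by positivity : 0 ≤ u.re ^ 2 + u.im ^ 2)
    linarith only [h2, sq_nonneg (γ * u.im - δ * u.re)]
  exact (abs_le_of_sq_le_sq' h1 (by positivity)).2

/-- **the radius**, real form -/
theorem near_of {R x c s α γ δ h ρ dl T G σ W : ℝ} (hcs : c ^ 2 + s ^ 2 = 1) (hx : 0 ≤ x)
    (hR : 0 ≤ R) (hα : 0 ≤ α) (hdl : dl ^ 2 ≤ (R - x * c) ^ 2 + (x * s) ^ 2)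
    (hT : T ≤ dl - ρ ∨ T ≤ 1 - R ∨ T ≤ 0) (hG0 : 0 ≤ G) (hG : γ ^ 2 + δ ^ 2 ≤ G ^ 2)
    (hσ : G ≤ σ ∨ (ρ < x ∧ (γ * c + δ * s) * x + G * ρ ≤ σ * (x ^ 2 - ρ ^ 2)))
    (hW : W ≤ 1 ∨ W ≤ x - ρ) (hfin : ρ ≤ W * Real.exp (α * (T - 1) - σ - h)) {v : ℂ}
    (hv : 1 ≤ ‖v‖) (hvy : ‖v - ⟨x * c, -(x * s)⟩‖ < ρ) :
    ρ ≤ ‖v‖ * Real.exp (α * (‖v - R‖ - 1) - γ * (v⁻¹).re - δ * (v⁻¹).im - h) := by
  obtain ⟨y, hy⟩ : ∃ y : ℂ, y = ⟨x * c, -(x * s)⟩ := ⟨_, rfl⟩
  rw [← hy] at hvy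
  have hρ : 0 < ρ := lt_of_le_of_lt (norm_nonneg _) hvy
  have hv0 : v ≠ 0 := by
    intro h
    rw [h, norm_zero] at hv
    linarith only [hv]
  have hyn : ‖y‖ = x := by
    rw [hy, norm_mk]
    have : (x * c) ^ 2 + (-(x * s)) ^ 2 = x ^ 2 := by
      linear_combination x ^ 2 * hcs
    rw [this, Real.sqrt_sq hx]
  have hWv : W ≤ ‖v‖ := by
    rcases hW with hW | hW
    · exact hW.trans hv
    · have h1 : ‖y‖ ≤ ‖v‖ + ‖v - y‖ := by
        have : y = v - (v - y) := by ring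
        calc ‖y‖ = ‖v - (v - y)‖ := by rw [← this]
          _ ≤ _ := norm_sub_le _ _
      rw [hyn] at h1
      linarith only [hvy, hW, h1]
  have hTv : T ≤ ‖v - R‖ := by
    rcases hT with hT | hT | hT
    · have h1 : dl ≤ ‖y - R‖ := by
        have e : y - (R : ℂ) = ⟨x * c - R, -(x * s)⟩ := by
          rw [hy]
          apply Complex.ext <;> simp
        rw [e, norm_mk]
        apply Real.le_sqrt_of_sq_le
        linarith only [hdl, neg_sq (x * s), sq_abs (R - x * c), show (R - x * c) ^ 2 = (x * c - R) ^ 2 by ring]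
      have h2 : ‖y - R‖ ≤ ‖v - y‖ + ‖v - R‖ := by
        have : y - (R : ℂ) = -(v - y) + (v - R) := by ring
        rw [this]
        refine (norm_add_le _ _).trans ?_
        rw [norm_neg]
      linarith only [hvy, hT, h1, h2]
    · have h2 : ‖v‖ ≤ ‖v - (R : ℂ)‖ + R := by
        calc ‖v‖ = ‖(v - (R : ℂ)) + (R : ℂ)‖ := by rw [sub_add_cancel]
          _ ≤ ‖v - (R : ℂ)‖ + ‖(R : ℂ)‖ := norm_add_le _ _
          _ = _ := by rw [Complex.norm_real, Real.norm_of_nonneg hR]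
      linarith only [hv, hT, h2]
    · exact hT.trans (norm_nonneg _)
  have hun : ‖v⁻¹‖ ≤ 1 := by
    rw [norm_inv]
    exact inv_le_one_of_one_le₀ hv
  have hlin : γ * (v⁻¹).re + δ * (v⁻¹).im ≤ σ := by
    rcases hσ with hσ | ⟨hρx, hσ⟩
    · refine (lin_le hG0 hG).trans (le_trans ?_ hσ)
      calc G * ‖v⁻¹‖ ≤ G * 1 := mul_le_mul_of_nonneg_left hun hG0
        _ = G := mul_one G
    · have hq : 0 < x ^ 2 - ρ ^ 2 := by nlinarith only [hx, hρ, hρx]
      have h1 := inv_disc hv0 hvy.le (by rw [hyn]; exact hρx.le)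
      rw [hyn] at h1
      have h2 := lin_le (u := ((x ^ 2 - ρ ^ 2 : ℝ) : ℂ) * v⁻¹ - conj y) hG0 hG
      have h3 := mul_le_mul_of_nonneg_left h1 hG0
      rw [Complex.sub_re, Complex.sub_im, Complex.re_ofReal_mul, Complex.im_ofReal_mul,
        Complex.conj_re, Complex.conj_im, hy] at h2
      simp only [] at h2
      have h4 : (x ^ 2 - ρ ^ 2) * (γ * (v⁻¹).re + δ * (v⁻¹).im) ≤ (x ^ 2 - ρ ^ 2) * σ := by
        rw [hy] at h3
        linarith only [hσ, h2, h3]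
      exact le_of_mul_le_mul_left h4 hq
  have hexp : Real.exp (α * (T - 1) - σ - h) ≤
      Real.exp (α * (‖v - R‖ - 1) - γ * (v⁻¹).re - δ * (v⁻¹).im - h) := by
    apply Real.exp_le_exp.2
    have := mul_le_mul_of_nonneg_left hTv hα
    linarith only [hlin, this]
  calc ρ ≤ W * Real.exp (α * (T - 1) - σ - h) := hfin
    _ ≤ ‖v‖ * Real.exp (α * (T - 1) - σ - h) :=
      mul_le_mul_of_nonneg_right hWv (Real.exp_pos _).le
    _ ≤ _ := mul_le_mul_of_nonneg_left hexp (norm_nonneg _)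

/-- no points near the node -/
theorem near_empty {x c s ρ : ℝ} (hcs : c ^ 2 + s ^ 2 = 1) (hx : 0 ≤ x) (h1 : x + ρ ≤ 1) {v : ℂ}
    (hv : 1 ≤ ‖v‖) (hvy : ‖v - ⟨x * c, -(x * s)⟩‖ < ρ) : False := by
  obtain ⟨y, hy⟩ : ∃ y : ℂ, y = ⟨x * c, -(x * s)⟩ := ⟨_, rfl⟩
  rw [← hy] at hvy
  have hyn : ‖y‖ = x := by
    rw [hy, norm_mk]
    have : (x * c) ^ 2 + (-(x * s)) ^ 2 = x ^ 2 := by
      linear_combination x ^ 2 * hcs
    rw [this, Real.sqrt_sq hx]
  have h2 : ‖v‖ ≤ ‖v - y‖ + ‖y‖ := by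
    calc ‖v‖ = ‖(v - y) + y‖ := by rw [sub_add_cancel]
      _ ≤ _ := norm_add_le _ _
  rw [hyn] at h2
  linarith only [h1, hv, hvy, h2]

/-! ## The checker -/

/-- `max` -/
def mxN (a b : ℕ) : ℕ := bif Nat.ble a b then b else a

/-- the last comparison -/
def nearFin (M xm a hp hn p T sp sn : ℕ) : Bool :=
  Nat.ble (Nat.mul p 1099511627776) (Nat.mul (mxN M (Nat.sub xm p))
    (esL (Nat.mul (Nat.add (Nat.div (Nat.mul a T) M) (Nat.add sn hn)) 1048576)
      (Nat.mul (Nat.add a (Nat.add sp hp)) 1048576)))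

/-- the choice of the bound for the linear part -/
def nearS (M xm a hp hn p T G Lp Ln : ℕ) : Bool :=
  bif Nat.blt p xm then
    bif nearFin M xm a hp hn p T
      (Nat.add (Nat.div (Nat.sub Lp Ln)
        (Nat.mul (Nat.sub (Nat.mul xm xm) (Nat.mul p p)) 1099511627776)) 1)
      (Nat.div (Nat.sub Ln Lp)
        (Nat.mul (Nat.sub (Nat.mul xm xm) (Nat.mul p p)) 1099511627776)) then true
    else nearFin M xm a hp hn p T G 0
  else nearFin M xm a hp hn p T G 0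

/-- **the check of the radius** `p / M` -/
def nearOK (M k xm r0 r1 a gp gn dp dn hp hn p : ℕ) : Bool :=
  bif Nat.ble (Nat.add xm p) M then true
  else
    (fun X Y G =>
      nearS M xm a hp hn p
        (mxN (Nat.sub (isqL (Nat.add
          (Nat.pow (Nat.add (Nat.sub r0 (Nat.add X 2)) (Nat.sub X r1)) 2) (Nat.mul Y Y))) p)
          (Nat.sub M r1)) G
        (Nat.add (Nat.mul (Nat.add (Nat.mul gp (Nat.add (cN k) 1)) (Nat.mul dp (Nat.add (sN k) 1)))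
          (Nat.mul xm M)) (Nat.mul (Nat.mul G p) (Nat.mul M 1099511627776)))
        (Nat.mul (Nat.add (Nat.mul gn (cN k)) (Nat.mul dn (sN k))) (Nat.mul xm M)))
    (Nat.shiftRight (Nat.mul xm (cN k)) 40) (Nat.shiftRight (Nat.mul xm (sN k)) 40)
    (isq (Nat.add (Nat.pow (Nat.add (Nat.sub gp gn) (Nat.sub gn gp)) 2)
      (Nat.pow (Nat.add (Nat.sub dp dn) (Nat.sub dn dp)) 2)))

/-- a node with radius -/
def nchk (M k xm r0 r1 a gp gn dp dn hp hn c p : ℕ) : Bool :=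
  bif Nat.ble xm 1099511627776 then
    bif Nat.ble 1 p then
      bif nearOK M k xm r0 r1 a gp gn dp dn hp hn p then
        ochk M k xm r0 r1 a gp gn dp dn hp hn c
      else false
    else false
  else false

/-! ## Soundness -/

theorem mxN_eq (a b : ℕ) : mxN a b = max a b := by
  unfold mxN
  by_cases h : a ≤ b
  · rw [Nat.ble_eq_true_of_le h, cond_true, max_eq_right h]
  · have : Nat.ble a b = false := by
      rw [Bool.eq_false_iff, ne_eq, Nat.ble_eq]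
      exact h
    rw [this, cond_false, max_eq_left (by omega)]

theorem dist_cast (a b : ℕ) : (((a - b) + (b - a) : ℕ) : ℝ) ^ 2 = ((a : ℝ) - b) ^ 2 := by
  rcases le_total a b with h | h
  · rw [Nat.sub_eq_zero_of_le h, zero_add, Nat.cast_sub h]
    ring
  · rw [Nat.sub_eq_zero_of_le h, add_zero, Nat.cast_sub h]

section sound

variable {M k xm r0 r1 a gp gn dp dn hp hn p : ℕ}

theorem nearFin_real (hM : 0 < M) {T sp sn : ℕ} (h : nearFin M xm a hp hn p T sp sn = true) :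
    (p : ℝ) / M ≤ ((max M (xm - p) : ℕ) : ℝ) / M * Real.exp ((a : ℝ) / S * ((T : ℝ) / M - 1) -
      ((sp : ℝ) - sn) / S - ((hp : ℝ) - hn) / S) := by
  have hMR : (0 : ℝ) < M := by exact_mod_cast hM
  have hS : (S : ℝ) = 1048576 := S_cast
  unfold nearFin at h
  rw [mxN_eq] at h
  have h1 := Nat.le_of_ble_eq_true h
  simp only [Nat.add_eq, Nat.mul_eq, Nat.sub_eq, nat_div] at h1
  obtain ⟨P, hP⟩ : ∃ P, P = (a * T / M + (sn + hn)) * 1048576 := ⟨_, rfl⟩
  obtain ⟨Q, hQ⟩ : ∃ Q, Q = (a + (sp + hp)) * 1048576 := ⟨_, rfl⟩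
  rw [← hP, ← hQ] at h1
  have h2 : (p : ℝ) * 1099511627776 ≤ ((max M (xm - p) : ℕ) : ℝ) * (esL P Q : ℝ) := by
    exact_mod_cast h1
  have h3 := esL_spec P Q
  have h4 : (P : ℝ) / 2 ^ 40 - Q / 2 ^ 40 ≤ (a : ℝ) / S * ((T : ℝ) / M - 1) -
      ((sp : ℝ) - sn) / S - ((hp : ℝ) - hn) / S := by
    have h5 : ((a * T / M : ℕ) : ℝ) ≤ (a : ℝ) * T / M := by
      refine (Nat.cast_div_le).trans (le_of_eq ?_)
      push_cast
      ring
    rw [hP, hQ, hS]
    push_cast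
    have e1 : (((a * T / M : ℕ) : ℝ) + (sn + hn)) * 1048576 / 2 ^ 40 -
        (a + (sp + hp)) * 1048576 / 2 ^ 40 =
        (((a * T / M : ℕ) : ℝ) + sn + hn - a - sp - hp) / 1048576 := by
      ring
    have e2 : (a : ℝ) / 1048576 * ((T : ℝ) / M - 1) - ((sp : ℝ) - sn) / 1048576 -
        ((hp : ℝ) - hn) / 1048576 = ((a : ℝ) * T / M + sn + hn - a - sp - hp) / 1048576 := by
      ring
    rw [e1, e2]
    apply div_le_div_of_nonneg_right _ (by norm_num)
    linarith only [h5]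
  have h6 := h3.trans (Real.exp_le_exp.2 h4)
  have h7 : (0 : ℝ) ≤ ((max M (xm - p) : ℕ) : ℝ) := Nat.cast_nonneg _
  have h8 : (p : ℝ) ≤ ((max M (xm - p) : ℕ) : ℝ) * ((esL P Q : ℝ) / 2 ^ 40) := by
    rw [← mul_div_assoc, le_div_iff₀ (by norm_num),
      show (2 : ℝ) ^ 40 = 1099511627776 by norm_num]
    exact h2
  have h9 := h8.trans (mul_le_mul_of_nonneg_left h6 h7)
  calc (p : ℝ) / M ≤ (((max M (xm - p) : ℕ) : ℝ) * Real.exp ((a : ℝ) / S * ((T : ℝ) / M - 1) -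
      ((sp : ℝ) - sn) / S - ((hp : ℝ) - hn) / S)) / M := div_le_div_of_nonneg_right h9 hMR.le
    _ = _ := by ring

/-- **soundness of the check of the radius** -/
theorem nearOK_sound (hM : 0 < M) (hk : k ≤ 100) (hxm : xm ≤ 1099511627776) (hr : r0 ≤ r1)
    (h : nearOK M k xm r0 r1 a gp gn dp dn hp hn p = true)
    {R : ℝ} (hR0 : (r0 : ℝ) / M ≤ R) (hR1 : R ≤ r1 / M) {v : ℂ} (hv : 1 ≤ ‖v‖)
    (hvy : ‖v - ⟨(xm : ℝ) / M * Real.cos (k / 64), -((xm : ℝ) / M * Real.sin (k / 64))⟩‖ <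
      (p : ℝ) / M) :
    (p : ℝ) / M ≤ ‖v‖ * Real.exp ((a : ℝ) / S * (‖v - R‖ - 1) - ((gp : ℝ) - gn) / S * (v⁻¹).re
      - ((dp : ℝ) - dn) / S * (v⁻¹).im - ((hp : ℝ) - hn) / S) := by
  have hMR : (0 : ℝ) < M := by exact_mod_cast hM
  have hS : (0 : ℝ) < S := by rw [S_cast]; norm_num
  have hcs : Real.cos (k / 64) ^ 2 + Real.sin (k / 64) ^ 2 = 1 := by
    rw [add_comm]
    exact Real.sin_sq_add_cos_sq _
  obtain ⟨c0, c1⟩ := cos_bd hk
  obtain ⟨s0, s1⟩ := sin_bd hk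
  obtain ⟨c, hc⟩ : ∃ c, c = Real.cos (k / 64) := ⟨_, rfl⟩
  obtain ⟨s, hs⟩ : ∃ s, s = Real.sin (k / 64) := ⟨_, rfl⟩
  rw [← hc] at c0 c1
  rw [← hs] at s0 s1
  rw [← hc, ← hs] at hcs hvy
  have hc00 : 0 ≤ c := le_trans (by positivity) c0
  have hs00 : 0 ≤ s := le_trans (by positivity) s0
  have hR00 : 0 ≤ R := le_trans (by positivity) hR0
  have hx0 : (0 : ℝ) ≤ (xm : ℝ) / M := by positivity
  unfold nearOK at h
  by_cases h1 : xm + p ≤ M
  · exfalso
    refine near_empty hcs hx0 ?_ hv hvy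
    rw [← add_div, div_le_one hMR]
    exact_mod_cast h1
  have h1' : Nat.ble (Nat.add xm p) M = false := by
    rw [Bool.eq_false_iff, ne_eq, Nat.ble_eq]
    exact h1
  rw [h1', cond_false] at h
  simp only [Nat.add_eq, Nat.mul_eq, Nat.sub_eq, Nat.pow_eq, Nat.shiftRight_eq, mxN_eq] at h
  obtain ⟨X, hX⟩ : ∃ X, X = (xm * cN k) >>> 40 := ⟨_, rfl⟩
  obtain ⟨Y, hY⟩ : ∃ Y, Y = (xm * sN k) >>> 40 := ⟨_, rfl⟩
  obtain ⟨G, hG⟩ : ∃ G, G = isq (((gp - gn) + (gn - gp)) ^ 2 + ((dp - dn) + (dn - dp)) ^ 2) :=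
    ⟨_, rfl⟩
  rw [← hX, ← hY, ← hG] at h
  obtain ⟨dl, hdl⟩ : ∃ dl, dl = isqL (((r0 - (X + 2)) + (X - r1)) ^ 2 + Y * Y) := ⟨_, rfl⟩
  obtain ⟨T, hT⟩ : ∃ T, T = max (dl - p) (M - r1) := ⟨_, rfl⟩
  obtain ⟨Lp, hLp⟩ : ∃ Lp, Lp = (gp * (cN k + 1) + dp * (sN k + 1)) * (xm * M) +
    G * p * (M * 1099511627776) := ⟨_, rfl⟩
  obtain ⟨Ln, hLn⟩ : ∃ Ln, Ln = (gn * cN k + dn * sN k) * (xm * M) := ⟨_, rfl⟩
  rw [← hdl, ← hT, ← hLp, ← hLn] at h
  -- bounds of `X` and `Y`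
  have hX0 : (X : ℝ) ≤ xm * c := by
    have : (X : ℝ) ≤ ((xm * cN k : ℕ) : ℝ) / 2 ^ 40 := by
      rw [hX]
      exact Arith.shr_le _ _
    refine this.trans ?_
    push_cast
    rw [mul_div_assoc]
    apply mul_le_mul_of_nonneg_left _ (Nat.cast_nonneg _)
    norm_num at c0 ⊢
    exact c0
  have hY0 : (Y : ℝ) ≤ xm * s := by
    have : (Y : ℝ) ≤ ((xm * sN k : ℕ) : ℝ) / 2 ^ 40 := by
      rw [hY]
      exact Arith.shr_le _ _
    refine this.trans ?_
    push_cast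
    rw [mul_div_assoc]
    apply mul_le_mul_of_nonneg_left _ (Nat.cast_nonneg _)
    norm_num at s0 ⊢
    exact s0
  have hX1 : (xm : ℝ) * c ≤ X + 2 := by
    have h2 : ((xm * cN k : ℕ) : ℝ) / 2 ^ 40 ≤ ((X + 1 : ℕ) : ℝ) := by
      rw [hX]
      exact Arith.le_shr _ _
    have h3 : (xm : ℝ) ≤ 1099511627776 := by exact_mod_cast hxm
    have h4 := mul_le_mul_of_nonneg_left c1 (Nat.cast_nonneg (α := ℝ) xm)
    push_cast at h2 h4
    have e : (xm : ℝ) * (((cN k : ℝ) + 1) / 1099511627776) =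
        (xm : ℝ) * cN k / 2 ^ 40 + xm / 1099511627776 := by
      norm_num
      ring
    have h5 : (xm : ℝ) / 1099511627776 ≤ 1 := by
      rw [div_le_one (by norm_num)]
      exact h3
    linarith only [h3, h2, h4]
  have hMR0 : (r0 : ℝ) ≤ M * R := by
    rw [div_le_iff₀ hMR] at hR0
    linarith only [hR0]
  have hMR1 : (M : ℝ) * R ≤ r1 := by
    rw [le_div_iff₀ hMR] at hR1
    linarith only [hR1]
  -- the distance
  have hd : ((dl : ℝ) / M) ^ 2 ≤ (R - (xm : ℝ) / M * c) ^ 2 + ((xm : ℝ) / M * s) ^ 2 := by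
    obtain ⟨e, he⟩ : ∃ e, e = (r0 - (X + 2)) + (X - r1) := ⟨_, rfl⟩
    rw [← he] at hdl
    have h2 : (dl : ℝ) ≤ Real.sqrt ((e ^ 2 + Y * Y : ℕ) : ℝ) := by
      rw [hdl]
      exact isqL_le_sqrt _
    have h3 : (dl : ℝ) ^ 2 ≤ ((e ^ 2 + Y * Y : ℕ) : ℝ) := by
      have := pow_le_pow_left₀ (Nat.cast_nonneg (α := ℝ) dl) h2 2
      rwa [Real.sq_sqrt (Nat.cast_nonneg _)] at this
    have h4 : (e : ℝ) ^ 2 ≤ (M * R - xm * c) ^ 2 := by
      rcases lt_or_ge (X + 2) r0 with h5 | h5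
      · have h6 : (e : ℝ) = r0 - (X + 2) := by
          rw [he, Nat.sub_eq_zero_of_le (show X ≤ r1 by omega), add_zero, Nat.cast_sub h5.le]
          push_cast
          ring
        have h7 : (0 : ℝ) ≤ e := Nat.cast_nonneg _
        rw [h6] at h7 ⊢
        exact pow_le_pow_left₀ h7 (by linarith only [hX1, hMR0]) 2
      · rcases le_total r1 X with h8 | h8
        · have h6 : (e : ℝ) = X - r1 := by
            rw [he, Nat.sub_eq_zero_of_le h5, zero_add, Nat.cast_sub h8]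
          have h7 : (0 : ℝ) ≤ e := Nat.cast_nonneg _
          rw [h6] at h7 ⊢
          have : (M * R - xm * c) ^ 2 = (xm * c - M * R) ^ 2 := by ring
          rw [this]
          exact pow_le_pow_left₀ h7 (by linarith only [hX0, hMR1]) 2
        · have h6 : (e : ℝ) = 0 := by
            rw [he, Nat.sub_eq_zero_of_le h5, zero_add, Nat.sub_eq_zero_of_le h8, Nat.cast_zero]
          rw [h6]
          linarith only [sq_nonneg (M * R - xm * c)]
    have h5 : (Y : ℝ) * Y ≤ (xm * s) ^ 2 := by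
      rw [sq]
      exact mul_le_mul hY0 hY0 (Nat.cast_nonneg _) (by positivity)
    push_cast at h3
    have e1 : (R - (xm : ℝ) / M * c) ^ 2 + ((xm : ℝ) / M * s) ^ 2 =
        ((M * R - xm * c) ^ 2 + (xm * s) ^ 2) / M ^ 2 := by
      field_simp
    rw [e1, div_pow]
    exact div_le_div_of_nonneg_right (by linarith only [h4, h5, h3]) (by positivity)
  have hTT : (T : ℝ) / M ≤ (dl : ℝ) / M - (p : ℝ) / M ∨ (T : ℝ) / M ≤ 1 - R ∨ (T : ℝ) / M ≤ 0 := by
    rcases le_total (dl - p) (M - r1) with h2 | h2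
    · have h3 : T = M - r1 := by rw [hT, max_eq_right h2]
      rcases le_total r1 M with h4 | h4
      · right; left
        rw [h3, Nat.cast_sub h4, sub_div, div_self hMR.ne']
        linarith only [hR1]
      · right; right
        rw [h3, Nat.sub_eq_zero_of_le h4, Nat.cast_zero, zero_div]
    · have h3 : T = dl - p := by rw [hT, max_eq_left h2]
      rcases le_total p dl with h4 | h4
      · left
        rw [h3, Nat.cast_sub h4, sub_div]
      · right; right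
        rw [h3, Nat.sub_eq_zero_of_le h4, Nat.cast_zero, zero_div]
  have hGG : (((gp : ℝ) - gn) / S) ^ 2 + (((dp : ℝ) - dn) / S) ^ 2 ≤ ((G : ℝ) / S) ^ 2 := by
    have h2 : Real.sqrt ((((gp - gn) + (gn - gp)) ^ 2 + ((dp - dn) + (dn - dp)) ^ 2 : ℕ) : ℝ) ≤
        (G : ℝ) := by
      rw [hG]
      exact sqrt_le_isq _
    have h3 := pow_le_pow_left₀ (Real.sqrt_nonneg _) h2 2
    rw [Real.sq_sqrt (Nat.cast_nonneg _), Nat.cast_add, Nat.cast_pow, Nat.cast_pow, dist_cast,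
      dist_cast] at h3
    rw [div_pow, div_pow, div_pow, ← add_div]
    exact div_le_div_of_nonneg_right h3 (by positivity)
  have hWW : ((max M (xm - p) : ℕ) : ℝ) / M ≤ 1 ∨
      ((max M (xm - p) : ℕ) : ℝ) / M ≤ (xm : ℝ) / M - (p : ℝ) / M := by
    rcases le_total M (xm - p) with h2 | h2
    · right
      rw [max_eq_right h2, Nat.cast_sub (by omega), sub_div]
    · left
      rw [max_eq_left h2, div_self hMR.ne']
  -- the main step
  have main : ∀ sp sn : ℕ, nearFin M xm a hp hn p T sp sn = true →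
      ((G : ℝ) / S ≤ ((sp : ℝ) - sn) / S ∨ ((p : ℝ) / M < (xm : ℝ) / M ∧
        (((gp : ℝ) - gn) / S * c + ((dp : ℝ) - dn) / S * s) * ((xm : ℝ) / M) +
          (G : ℝ) / S * ((p : ℝ) / M) ≤
          ((sp : ℝ) - sn) / S * (((xm : ℝ) / M) ^ 2 - ((p : ℝ) / M) ^ 2))) →
      (p : ℝ) / M ≤ ‖v‖ * Real.exp ((a : ℝ) / S * (‖v - R‖ - 1) - ((gp : ℝ) - gn) / S * (v⁻¹).re
      - ((dp : ℝ) - dn) / S * (v⁻¹).im - ((hp : ℝ) - hn) / S) := by
    intro sp sn hfin hσ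
    exact near_of hcs hx0 hR00 (by positivity) hd hTT (by positivity) hGG hσ hWW
      (nearFin_real hM hfin) hv hvy
  have hG1 : (G : ℝ) / S ≤ ((G : ℝ) - (0 : ℕ)) / S := by
    rw [Nat.cast_zero, sub_zero]
  unfold nearS at h
  by_cases hpx : p < xm
  · rw [show Nat.blt p xm = true from Nat.blt_eq.mpr hpx, cond_true] at h
    simp only [Nat.add_eq, Nat.mul_eq, Nat.sub_eq, nat_div] at h
    obtain ⟨Q, hQ⟩ : ∃ Q, Q = (xm * xm - p * p) * 1099511627776 := ⟨_, rfl⟩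
    rw [← hQ] at h
    have hpp : p * p < xm * xm := Nat.mul_self_lt_mul_self hpx
    have hQ0 : 0 < Q := by
      rw [hQ]
      exact Nat.mul_pos (by omega) (by norm_num)
    have hQR : (0 : ℝ) < Q := by exact_mod_cast hQ0
    have hQe : (Q : ℝ) = ((xm : ℝ) ^ 2 - (p : ℝ) ^ 2) * 1099511627776 := by
      rw [hQ, Nat.cast_mul, Nat.cast_sub hpp.le]
      push_cast
      ring
    cases hb : nearFin M xm a hp hn p T ((Lp - Ln) / Q + 1) ((Ln - Lp) / Q) with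
    | true =>
      refine main _ _ hb (Or.inr ⟨div_lt_div_of_pos_right (by exact_mod_cast hpx) hMR, ?_⟩)
      have h2 : (((gp : ℝ) - gn) * c + ((dp : ℝ) - dn) * s) * 1099511627776 * (xm * M) +
          (G : ℝ) * p * (M * 1099511627776) ≤ (Lp : ℝ) - Ln := by
        rw [hLp, hLn]
        push_cast
        have b1 : (gp : ℝ) * (c * 1099511627776) ≤ gp * (cN k + 1) := by
          apply mul_le_mul_of_nonneg_left _ (Nat.cast_nonneg _)
          push_cast at c1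
          rw [le_div_iff₀ (by norm_num)] at c1
          exact c1
        have b2 : (gn : ℝ) * cN k ≤ gn * (c * 1099511627776) := by
          apply mul_le_mul_of_nonneg_left _ (Nat.cast_nonneg _)
          rw [div_le_iff₀ (by norm_num)] at c0
          exact c0
        have b3 : (dp : ℝ) * (s * 1099511627776) ≤ dp * (sN k + 1) := by
          apply mul_le_mul_of_nonneg_left _ (Nat.cast_nonneg _)
          push_cast at s1
          rw [le_div_iff₀ (by norm_num)] at s1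
          exact s1
        have b4 : (dn : ℝ) * sN k ≤ dn * (s * 1099511627776) := by
          apply mul_le_mul_of_nonneg_left _ (Nat.cast_nonneg _)
          rw [div_le_iff₀ (by norm_num)] at s0
          exact s0
        have b5 : (((gp : ℝ) - gn) * c + ((dp : ℝ) - dn) * s) * 1099511627776 ≤
            gp * (cN k + 1) + dp * (sN k + 1) - (gn * cN k + dn * sN k) := by linarith only [b1, b2, b3, b4]
        have b6 := mul_le_mul_of_nonneg_right b5 (show (0 : ℝ) ≤ xm * M by positivity)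
        linarith only [b6]
      have h3 : ((Lp : ℝ) - Ln) ≤ ((((Lp - Ln) / Q + 1 : ℕ) : ℝ) - ((Ln - Lp) / Q : ℕ)) * Q := by
        have d1 := Arith.real_le_div (Lp - Ln) Q hQ0
        have d2 := Arith.div_le_real (Ln - Lp) Q
        rw [div_le_iff₀ hQR] at d1
        rw [le_div_iff₀ hQR] at d2
        have d3 := sub_sub_cast Lp Ln
        rw [sub_mul]
        linarith only [d1, d2, d3]
      have h4 := h2.trans h3
      rw [hQe] at h4
      have e1 : (((gp : ℝ) - gn) / S * c + ((dp : ℝ) - dn) / S * s) * ((xm : ℝ) / M) +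
          (G : ℝ) / S * ((p : ℝ) / M) =
          ((((gp : ℝ) - gn) * c + ((dp : ℝ) - dn) * s) * 1099511627776 * (xm * M) +
          (G : ℝ) * p * (M * 1099511627776)) / (S * M ^ 2 * 1099511627776) := by
        field_simp
      have e2 : ((((Lp - Ln) / Q + 1 : ℕ) : ℝ) - ((Ln - Lp) / Q : ℕ)) / S *
          (((xm : ℝ) / M) ^ 2 - ((p : ℝ) / M) ^ 2) =
          ((((Lp - Ln) / Q + 1 : ℕ) : ℝ) - ((Ln - Lp) / Q : ℕ)) *
            (((xm : ℝ) ^ 2 - (p : ℝ) ^ 2) * 1099511627776) / (S * M ^ 2 * 1099511627776) := by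
        field_simp
      rw [e1, e2]
      exact div_le_div_of_nonneg_right h4 (by positivity)
    | false =>
      rw [hb, cond_false] at h
      exact main _ _ h (Or.inl hG1)
  · have hb : Nat.blt p xm = false := by
      rw [Bool.eq_false_iff, ne_eq, Nat.blt_eq]
      exact hpx
    rw [hb, cond_false] at h
    exact main _ _ h (Or.inl hG1)

/-- **soundness of the check of a node** -/
theorem nchk_sound {c : ℕ} (h : nchk M k xm r0 r1 a gp gn dp dn hp hn c p = true) {R : ℝ}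
    (hR0 : (r0 : ℝ) / M ≤ R) (hR1 : R ≤ r1 / M) :
    NDual R ((xm : ℝ) / M * Real.cos (k / 64)) ((xm : ℝ) / M * Real.sin (k / 64)) ((a : ℝ) / S)
      (((gp : ℝ) - gn) / S) (((dp : ℝ) - dn) / S) (((hp : ℝ) - hn) / S) ((p : ℝ) / M) ∧
    0 < (p : ℝ) / M := by
  unfold nchk at h
  simp only [Bool.cond_eq_ite] at h
  split_ifs at h with h1 h2 h3
  have hx : xm ≤ 1099511627776 := Nat.le_of_ble_eq_true h1
  have hp : 1 ≤ p := Nat.le_of_ble_eq_true h2
  have hO := ochk_sound h hR0 hR1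
  unfold ochk at h
  simp only [Arith.ev_eq, Nat.add_eq, Nat.mul_eq, Nat.sub_eq, Bool.and_eq_true, Nat.ble_eq] at h
  obtain ⟨⟨hM, -, hr, hk⟩, -⟩ := h
  have hM : 0 < M := hM
  refine ⟨⟨hO, fun v hv hvy => nearOK_sound hM hk hx hr h3 hR0 hR1 hv hvy⟩, ?_⟩
  have : (0 : ℝ) < M := by exact_mod_cast hM
  have : (0 : ℝ) < p := by exact_mod_cast hp
  positivity

end sound

/-! ## AM-GM as a node dual -/

/-- the tangent of the AM-GM bound -/
theorem amgm_ndual {R x c s L ρ : ℝ} (hcs : c ^ 2 + s ^ 2 = 1) (hL : 0 < L)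
    (hρ : ρ ^ 2 * Real.exp 1 ≤ L) :
    NDual R (x * c) (x * s) 0 (x / L * c) (x / L * s)
      (-((Real.log L + (1 + x ^ 2) / L - 1) / 2)) ρ := by
  have hexp : ∀ u : ℂ, 0 * (‖u⁻¹ - (R : ℂ)‖ - 1) - x / L * c * u.re - x / L * s * u.im -
      -((Real.log L + (1 + x ^ 2) / L - 1) / 2) =
      (Real.log L + (1 + x ^ 2 - 2 * (x * c * u.re + x * s * u.im)) / L - 1) / 2 := by
    intro u
    field_simp
    ring
  have hns : ∀ u : ℂ, ‖1 - (⟨x * c, -(x * s)⟩ : ℂ) * u‖ ^ 2 =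
      1 - 2 * (x * c * u.re + x * s * u.im) + x ^ 2 * ‖u‖ ^ 2 := by
    intro u
    rw [← Complex.normSq_eq_norm_sq, ← Complex.normSq_eq_norm_sq, Complex.normSq_apply,
      Complex.normSq_apply]
    simp only [Complex.sub_re, Complex.sub_im, Complex.mul_re, Complex.mul_im, Complex.one_re,
      Complex.one_im]
    linear_combination x ^ 2 * (u.re * u.re + u.im * u.im) * hcs
  have hle : ∀ v : ℂ, 1 ≤ ‖v‖ → ‖1 - (⟨x * c, -(x * s)⟩ : ℂ) * v⁻¹‖ ^ 2 ≤
      1 + x ^ 2 - 2 * (x * c * (v⁻¹).re + x * s * (v⁻¹).im) := by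
    intro v hv
    rw [hns]
    have h1 : ‖v⁻¹‖ ≤ 1 := by
      rw [norm_inv]
      exact inv_le_one_of_one_le₀ hv
    have h2 : ‖v⁻¹‖ ^ 2 ≤ 1 := pow_le_one₀ (norm_nonneg _) h1
    have h3 := mul_le_mul_of_nonneg_left h2 (sq_nonneg x)
    linarith only [h3]
  refine ⟨⟨le_rfl, fun v hv => ?_⟩, fun v hv _ => ?_⟩
  · have e := hexp v⁻¹
    rw [inv_inv] at e
    rw [e]
    obtain ⟨B, hB⟩ : ∃ B, B = 1 + x ^ 2 - 2 * (x * c * (v⁻¹).re + x * s * (v⁻¹).im) := ⟨_, rfl⟩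
    have h1 := hle v hv
    rw [← hB] at h1 ⊢
    have h2 : B ≤ L * Real.exp (B / L - 1) := by
      have := Real.add_one_le_exp (B / L - 1)
      rw [sub_add_cancel] at this
      rw [← div_le_iff₀' hL]
      exact this
    have h3 : ‖1 - (⟨x * c, -(x * s)⟩ : ℂ) * v⁻¹‖ ^ 2 ≤
        Real.exp ((Real.log L + B / L - 1) / 2) ^ 2 := by
      refine (h1.trans h2).trans (le_of_eq ?_)
      rw [← Real.exp_nat_mul]
      have e2 : ((2 : ℕ) : ℝ) * ((Real.log L + B / L - 1) / 2) = Real.log L + (B / L - 1) := by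
        push_cast
        ring
      rw [e2, Real.exp_add, Real.exp_log hL]
    exact (sq_le_sq₀ (norm_nonneg _) (Real.exp_pos _).le).1 h3
  · have e := hexp v⁻¹
    rw [inv_inv] at e
    rw [e]
    obtain ⟨B, hB⟩ : ∃ B, B = 1 + x ^ 2 - 2 * (x * c * (v⁻¹).re + x * s * (v⁻¹).im) := ⟨_, rfl⟩
    have h1 := hle v hv
    rw [← hB] at h1 ⊢
    have hB0 : 0 ≤ B := (sq_nonneg _).trans h1
    have h2 : ρ ≤ Real.exp ((Real.log L - 1) / 2) := by
      have h3 : ρ ^ 2 ≤ Real.exp ((Real.log L - 1) / 2) ^ 2 := by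
        rw [← Real.exp_nat_mul]
        have e2 : ((2 : ℕ) : ℝ) * ((Real.log L - 1) / 2) = Real.log L - 1 := by
          push_cast
          ring
        rw [e2, Real.exp_sub, Real.exp_log hL, le_div_iff₀ (Real.exp_pos _)]
        exact hρ
      exact (abs_le_of_sq_le_sq' h3 (Real.exp_pos _).le).2
    have h4 : Real.exp ((Real.log L - 1) / 2) ≤ Real.exp ((Real.log L + B / L - 1) / 2) := by
      apply Real.exp_le_exp.2
      have : 0 ≤ B / L := div_nonneg hB0 hL.le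
      linarith only [this]
    calc ρ ≤ Real.exp ((Real.log L + B / L - 1) / 2) := h2.trans h4
      _ = 1 * Real.exp ((Real.log L + B / L - 1) / 2) := (one_mul _).symm
      _ ≤ _ := mul_le_mul_of_nonneg_right hv (Real.exp_pos _).le

/-- the value of the AM-GM node -/
theorem amgm_value {x c s L : ℝ} {m : ℂ} (hL : 0 < L)
    (h : L = 1 + x ^ 2 - 2 * x * (c * m.re + s * m.im)) :
    -(-((Real.log L + (1 + x ^ 2) / L - 1) / 2) + (x / L * c * m.re + x / L * s * m.im)) =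
      Real.log L / 2 := by
  have : 1 + x ^ 2 = L + 2 * x * (c * m.re + s * m.im) := by linarith only [h]
  rw [this]
  field_simp
  ring

end Pool.Agent.Lib.MP_af3a4a_an.P1.CHK.H39.Interp
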