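import Pool.Agent.Lib.MP_af3a4a_an.P1.CHK.H39.BilSound
import Pool.Agent.Lib.MP_af3a4a_an.P1.CHK.H39.Near

/-!
# Bilinear multipliers: `bchk ... = true` gives the dual inequality (council 2, helper39)
-/

set_option autoImplicit false

namespace Pool.Agent.Lib.MP_af3a4a_an.P1.CHK.H39.Bil

open Pool.Agent.Lib.MP_af3a4a_an.P1.CHK.H74
  (FF q_approx kK_lt norm_mk_add point_of_FF point_of_far yy_sq exists_t ODual)
open Pool.Agent.Lib.MP_af3a4a_an.P1.CHK.H58 (S kK kL S_cast tab_sound)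
open Pool.Agent.Lib.MP_af3a4a_an.P1.CHK.Arith (ad ad_cast sub_le_cast)
open Pool.Agent.Lib.MP_af3a4a_an.P1.CHK.Curve (cN sN tab_ok cos_nonneg_tab sin_nonneg_tab)

/-- change of `G` and `A` -/
theorem FB_perturb {P G G' A A' Q B R ε : ℝ} (hB : 0 ≤ B) (hR : 0 ≤ R) (h1 : |G' - G| ≤ ε)
    (h2 : |A' - A| ≤ ε) :
    FB P G A Q B R - ε * (2 * R + 4 * B) ≤ FB P G' A' Q B R := by
  have ev : (⟨B * (R * P - G'), B * A'⟩ : ℂ) =
      ⟨B * (R * P - G) + B * (G - G'), B * A + B * (A' - A)⟩ := by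
    apply Complex.ext
    · simp only
      ring
    · simp only
      ring
  have hn := norm_mk_add (x := B * (R * P - G)) (y := B * A) (d := B * (G - G'))
    (e := B * (A' - A))
  rw [abs_mul, abs_mul, abs_of_nonneg hB, abs_sub_comm G G'] at hn
  have h3 : 2 * R * (G' - G) ≤ 2 * R * ε :=
    mul_le_mul_of_nonneg_left (abs_le.1 h1).2 (by linarith)
  have h4 : B * |G' - G| ≤ B * ε := mul_le_mul_of_nonneg_left h1 hB
  have h5 : B * |A' - A| ≤ B * ε := mul_le_mul_of_nonneg_left h2 hB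
  unfold FB
  rw [ev]
  linarith

theorem neg_log_li {x y t : ℝ} (hx : 0 < x) (hy : 0 < y) (h0 : 0 ≤ t) (h1 : t ≤ 1) :
    -Real.log (li t x y) ≤ li t (-Real.log x) (-Real.log y) := by
  have h := strictConcaveOn_log_Ioi.concaveOn.2 (Set.mem_Ioi.2 hx) (Set.mem_Ioi.2 hy)
    (by linarith : (0 : ℝ) ≤ 1 - t) h0 (by ring)
  simp only [smul_eq_mul] at h
  unfold li
  linarith

theorem li_mono {t a a' b b' : ℝ} (h0 : 0 ≤ t) (h1 : t ≤ 1) (ha : a ≤ a') (hb : b ≤ b') :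
    li t a b ≤ li t a' b' := by
  unfold li
  have := mul_le_mul_of_nonneg_left ha (by linarith : (0 : ℝ) ≤ 1 - t)
  have := mul_le_mul_of_nonneg_left hb h0
  linarith

theorem li_pos {t a b : ℝ} (h0 : 0 ≤ t) (h1 : t ≤ 1) (ha : 0 < a) (hb : 0 < b) :
    0 < li t a b := by
  unfold li
  rcases h0.eq_or_lt with h | h
  · rw [← h]
    linarith
  · have := mul_pos h hb
    have := mul_nonneg (by linarith : (0 : ℝ) ≤ 1 - t) ha.le
    linarith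

theorem li_abs {t a b c : ℝ} (h0 : 0 ≤ t) (h1 : t ≤ 1) (ha : |a| ≤ c) (hb : |b| ≤ c) :
    |li t a b| ≤ c := by
  rw [abs_le] at *
  exact ⟨le_li h0 h1 ha.1 hb.1, li_le h0 h1 ha.2 hb.2⟩

theorem bi_ff {α : Type} (a b : α) : bi false a b = b := rfl

theorem li_self (t a : ℝ) : li t a a = a := by
  unfold li
  ring

/-- the conclusion for one `w` -/
def PtR (M k xm : ℕ) (α γ δ η R : ℝ) (v : ℂ) : Prop :=
  ‖1 - (⟨(xm : ℝ) / M * Real.cos (k / 64), -((xm : ℝ) / M * Real.sin (k / 64))⟩ : ℂ) * v⁻¹‖ ≤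
    Real.exp (α * (‖v - R‖ - 1) - γ * (v⁻¹).re - δ * (v⁻¹).im - η)

section

variable {M k xm : ℕ} {s0 s1 : Sd}

theorem y1_approx (hM : 0 < M) (hx : xm ≤ 4 * M) (hk : k ≤ 100) (i : ℕ) :
    |rκ i * ((xm : ℝ) / M * Real.cos (k / 64)) - ry1 M k xm i| ≤ 2 / S := by
  obtain ⟨tc1, tc2, ts1, ts2⟩ := tab_ok (k := k) (by omega)
  rw [abs_of_nonneg (cos_nonneg_tab hk)] at tc1 tc2
  have h := q_approx hM (kK_lt i) hx tc1 tc2
  rw [Nat.mul_comm (kK i)] at h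
  exact h

theorem y2_approx (hM : 0 < M) (hx : xm ≤ 4 * M) (hk : k ≤ 100) (i : ℕ) :
    |rκ i * ((xm : ℝ) / M * Real.sin (k / 64)) - ry2 M k xm i| ≤ 2 / S := by
  obtain ⟨tc1, tc2, ts1, ts2⟩ := tab_ok (k := k) (by omega)
  rw [abs_of_nonneg (sin_nonneg_tab (by omega))] at ts1 ts2
  have h := q_approx hM (kK_lt i) hx ts1 ts2
  rw [Nat.mul_comm (kK i)] at h
  exact h

/-- from the cell to the point -/
theorem pt_of_cell (hM : 0 < M) (hx : xm ≤ 4 * M) (hk : k ≤ 100)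
    {b b' i0 l0 i1 l1 i0' l0' i1' l1' : ℕ}
    (hi0 : i0 ≤ 208) (hi1 : i1 ≤ 208) (hi0' : i0' ≤ 208) (hi1' : i1' ≤ 208)
    {s t R : ℝ} {v : ℂ} (hv : 1 ≤ ‖v‖) (hs0 : 0 ≤ s) (hs1 : s ≤ 1) (ht0 : 0 ≤ t) (ht1 : t ≤ 1)
    (hB1 : ‖v - (R : ℂ)‖ ≤ (b' : ℝ) / M)
    (hR0 : 0 ≤ R) (hR1 : R ≤ (s1.r : ℝ) / M)
    (hB : li s ((b : ℝ) / M) ((b' : ℝ) / M) = ‖v - (R : ℂ)‖)
    (hR : li t ((s0.r : ℝ) / M) ((s1.r : ℝ) / M) = R)
    (h : 2 / S * (2 * ((s1.r : ℝ) / M) + 4 * ((b' : ℝ) / M)) ≤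
      FB (bl s t (rP M s0 b i0 l0) (rP M s1 b i1 l1) (rP M s0 b' i0' l0') (rP M s1 b' i1' l1'))
        (bl s t (rG M k xm s0 i0) (rG M k xm s1 i1) (rG M k xm s0 i0') (rG M k xm s1 i1'))
        (bl s t (rA M k xm s0 i0) (rA M k xm s1 i1) (rA M k xm s0 i0') (rA M k xm s1 i1'))
        (bl s t (rQ M xm i0 l0) (rQ M xm i1 l1) (rQ M xm i0' l0') (rQ M xm i1' l1'))
        (li s ((b : ℝ) / M) ((b' : ℝ) / M)) (li t ((s0.r : ℝ) / M) ((s1.r : ℝ) / M))) :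
    PtR M k xm (li t (rα s0) (rα s1)) (li t (rγ s0) (rγ s1)) (li t (rδ s0) (rδ s1))
      (li t (rη s0) (rη s1)) R v := by
  have hS := S_pos'
  have hBn : 0 ≤ ‖v - (R : ℂ)‖ := norm_nonneg _
  rw [hB, hR] at h
  obtain ⟨B, hBd⟩ : ∃ B, B = ‖v - (R : ℂ)‖ := ⟨_, rfl⟩
  rw [← hBd] at h hB hB1 hBn
  obtain ⟨y1, hy1⟩ : ∃ y, y = (xm : ℝ) / M * Real.cos (k / 64) := ⟨_, rfl⟩
  obtain ⟨y2, hy2⟩ : ∃ y, y = (xm : ℝ) / M * Real.sin (k / 64) := ⟨_, rfl⟩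
  obtain ⟨x, hxd⟩ : ∃ y, y = (xm : ℝ) / M := ⟨_, rfl⟩
  have a1 : ∀ i, |rκ i * y1 - ry1 M k xm i| ≤ 2 / S := by
    intro i
    rw [hy1]
    exact y1_approx hM hx hk i
  have a2 : ∀ i, |rκ i * y2 - ry2 M k xm i| ≤ 2 / S := by
    intro i
    rw [hy2]
    exact y2_approx hM hx hk i
  obtain ⟨κ, hκ⟩ : ∃ y, y = bl s t (rκ i0) (rκ i1) (rκ i0') (rκ i1') := ⟨_, rfl⟩
  obtain ⟨L, hL⟩ : ∃ y, y = bl s t (rL i0) (rL i1) (rL i0') (rL i1') := ⟨_, rfl⟩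
  obtain ⟨lam, hlam⟩ : ∃ y, y = bl s t (rl l0) (rl l1) (rl l0') (rl l1') := ⟨_, rfl⟩
  have hκpos : ∀ i, i ≤ 208 → 0 < rκ i := by
    intro i hi
    have := (tab_sound (i := i) (by omega)).1
    have h2 : (0 : ℝ) < kK i := by exact_mod_cast this
    unfold rκ
    positivity
  have hκ0 : 0 < κ := by
    rw [hκ]
    unfold bl
    exact li_pos ht0 ht1 (li_pos hs0 hs1 (hκpos _ hi0) (hκpos _ hi0'))
      (li_pos hs0 hs1 (hκpos _ hi1) (hκpos _ hi1'))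
  have hLL : -Real.log κ ≤ L := by
    rw [hκ, hL]
    unfold bl
    refine (neg_log_li (li_pos hs0 hs1 (hκpos _ hi0) (hκpos _ hi0'))
      (li_pos hs0 hs1 (hκpos _ hi1) (hκpos _ hi1')) ht0 ht1).trans (li_mono ht0 ht1 ?_ ?_)
    · exact (neg_log_li (hκpos _ hi0) (hκpos _ hi0') hs0 hs1).trans
        (li_mono hs0 hs1 (tab_sound (by omega)).2 (tab_sound (by omega)).2)
    · exact (neg_log_li (hκpos _ hi1) (hκpos _ hi1') hs0 hs1).trans
        (li_mono hs0 hs1 (tab_sound (by omega)).2 (tab_sound (by omega)).2)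
  have hlam0 : 0 ≤ lam := by
    have : ∀ l, 0 ≤ rl l := by
      intro l
      unfold rl
      positivity
    rw [hlam]
    unfold bl
    exact le_li ht0 ht1 (le_li hs0 hs1 (this _) (this _)) (le_li hs0 hs1 (this _) (this _))
  -- the perturbation
  have hG : |(li t (rγ s0) (rγ s1) - κ * y1) -
      bl s t (rG M k xm s0 i0) (rG M k xm s1 i1) (rG M k xm s0 i0') (rG M k xm s1 i1')| ≤
      2 / S := by
    have e : (li t (rγ s0) (rγ s1) - κ * y1) -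
        bl s t (rG M k xm s0 i0) (rG M k xm s1 i1) (rG M k xm s0 i0') (rG M k xm s1 i1') =
        -(li t (li s (rκ i0 * y1 - ry1 M k xm i0) (rκ i0' * y1 - ry1 M k xm i0'))
          (li s (rκ i1 * y1 - ry1 M k xm i1) (rκ i1' * y1 - ry1 M k xm i1'))) := by
      rw [hκ]
      unfold bl rG li
      ring
    rw [e, abs_neg]
    exact li_abs ht0 ht1 (li_abs hs0 hs1 (a1 _) (a1 _)) (li_abs hs0 hs1 (a1 _) (a1 _))
  have hA : |(li t (rδ s0) (rδ s1) - κ * y2) -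
      bl s t (rA M k xm s0 i0) (rA M k xm s1 i1) (rA M k xm s0 i0') (rA M k xm s1 i1')| ≤
      2 / S := by
    have e : (li t (rδ s0) (rδ s1) - κ * y2) -
        bl s t (rA M k xm s0 i0) (rA M k xm s1 i1) (rA M k xm s0 i0') (rA M k xm s1 i1') =
        -(li t (li s (rκ i0 * y2 - ry2 M k xm i0) (rκ i0' * y2 - ry2 M k xm i0'))
          (li s (rκ i1 * y2 - ry2 M k xm i1) (rκ i1' * y2 - ry2 M k xm i1'))) := by
      rw [hκ]
      unfold bl rA li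
      ring
    rw [e, abs_neg]
    exact li_abs ht0 ht1 (li_abs hs0 hs1 (a2 _) (a2 _)) (li_abs hs0 hs1 (a2 _) (a2 _))
  have hp := FB_perturb (P := bl s t (rP M s0 b i0 l0) (rP M s1 b i1 l1) (rP M s0 b' i0' l0')
    (rP M s1 b' i1' l1')) (Q := bl s t (rQ M xm i0 l0) (rQ M xm i1 l1) (rQ M xm i0' l0')
    (rQ M xm i1' l1')) hBn hR0 hG hA
  have hm : 2 / S * (2 * R + 4 * B) ≤ 2 / S * (2 * ((s1.r : ℝ) / M) + 4 * ((b' : ℝ) / M)) :=
    mul_le_mul_of_nonneg_left (by linarith) (by positivity)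
  have hF : 0 ≤ FB (bl s t (rP M s0 b i0 l0) (rP M s1 b i1 l1) (rP M s0 b' i0' l0')
      (rP M s1 b' i1' l1')) (li t (rγ s0) (rγ s1) - κ * y1) (li t (rδ s0) (rδ s1) - κ * y2)
      (bl s t (rQ M xm i0 l0) (rQ M xm i1 l1) (rQ M xm i0' l0') (rQ M xm i1' l1')) B R := by
    linarith
  have eP : bl s t (rP M s0 b i0 l0) (rP M s1 b i1 l1) (rP M s0 b' i0' l0')
      (rP M s1 b' i1' l1') = 2 * li t (rα s0) (rα s1) * B +
      (-2 * li t (rα s0) (rα s1) - 2 * li t (rη s0) (rη s1) + 1 - L - κ - lam) := by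
    rw [hL, hκ, hlam, ← hB]
    unfold bl rP rK li
    ring
  have eQ : bl s t (rQ M xm i0 l0) (rQ M xm i1 l1) (rQ M xm i0' l0') (rQ M xm i1' l1') =
      κ * x ^ 2 - lam := by
    rw [hκ, hlam, hxd]
    unfold bl rQ li
    ring
  rw [eP, eQ, ← FF_eq, hBd] at hF
  have hfin := point_of_FF (y1 := y1) (y2 := y2) (δ := li t (rδ s0) (rδ s1)) (x := x) hv hκ0 hLL
    hlam0 (by rw [hy1, hy2, hxd]; exact yy_sq _ _) hF
  rw [hy1, hy2] at hfin
  exact hfin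

/-- the far region -/
theorem tlb_sound (hM : 0 < M) {b : ℕ}
    (h0 : tlb M s0.a xm s1.r s0.gp s0.gn s0.dp s0.dn s0.hp s0.hn b = true)
    (h1 : tlb M s1.a xm s1.r s1.gp s1.gn s1.dp s1.dn s1.hp s1.hn b = true)
    {t R : ℝ} {v : ℂ} (hv : 1 ≤ ‖v‖) (ht0 : 0 ≤ t) (ht1 : t ≤ 1)
    (hR0 : 0 ≤ R) (hR1 : R ≤ (s1.r : ℝ) / M) (hB : (b : ℝ) / M ≤ ‖v - (R : ℂ)‖) :
    PtR M k xm (li t (rα s0) (rα s1)) (li t (rγ s0) (rγ s1)) (li t (rδ s0) (rδ s1))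
      (li t (rη s0) (rη s1)) R v := by
  have hMR : (0 : ℝ) < M := by exact_mod_cast hM
  have hS := S_pos'
  have key : ∀ s : Sd, tlb M s.a xm s1.r s.gp s.gn s.dp s.dn s.hp s.hn b = true →
      (s1.r : ℝ) / M < b / M ∧ (xm : ℝ) / M + |rγ s| + |rδ s| ≤
        (rα s * ((b : ℝ) / M - 1) - rη s) * (b / M - s1.r / M) := by
    intro s h
    unfold tlb at h
    obtain ⟨e1, e2⟩ := bi_true h
    simp only [Nat.add_eq, Nat.mul_eq, Nat.sub_eq] at e2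
    have e1 : s1.r < b := Nat.blt_eq.mp e1
    have e2 := Nat.le_of_ble_eq_true e2
    have e1R : (s1.r : ℝ) < b := by exact_mod_cast e1
    have h3 : ((xm * 1048576 * M + (s.gp + s.gn + (s.dp + s.dn)) * (M * M) +
        (s.a + s.hp) * M * (b - s1.r) : ℕ) : ℝ) ≤
        (((s.a * b + s.hn * M) * (b - s1.r) : ℕ) : ℝ) := by exact_mod_cast e2
    push_cast [Nat.cast_sub e1.le] at h3
    have hg1 : |((s.gp : ℝ) - s.gn) / S| ≤ (s.gp + s.gn) / S := by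
      rw [abs_div, abs_of_pos hS]
      apply div_le_div_of_nonneg_right _ hS.le
      have : (0 : ℝ) ≤ s.gp := Nat.cast_nonneg _
      have : (0 : ℝ) ≤ s.gn := Nat.cast_nonneg _
      rw [abs_le]
      constructor <;> linarith
    have hg2 : |((s.dp : ℝ) - s.dn) / S| ≤ (s.dp + s.dn) / S := by
      rw [abs_div, abs_of_pos hS]
      apply div_le_div_of_nonneg_right _ hS.le
      have : (0 : ℝ) ≤ s.dp := Nat.cast_nonneg _
      have : (0 : ℝ) ≤ s.dn := Nat.cast_nonneg _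
      rw [abs_le]
      constructor <;> linarith
    refine ⟨div_lt_div_of_pos_right e1R hMR, ?_⟩
    have f1 : ((s.a : ℝ) / S * ((b : ℝ) / M - 1) - ((s.hp : ℝ) - s.hn) / S) *
        (b / M - s1.r / M) =
        (((s.a : ℝ) * b + s.hn * M) * (b - s1.r) - (s.a + s.hp) * M * (b - s1.r)) /
          (S * M ^ 2) := by
      field_simp
      ring
    have f2 : (xm : ℝ) / M + ((s.gp : ℝ) + s.gn) / S + ((s.dp : ℝ) + s.dn) / S =
        (xm * 1048576 * M + (s.gp + s.gn + (s.dp + s.dn)) * (M * M)) / (S * M ^ 2) := by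
      field_simp
      rw [S_cast]
      ring
    have f3 : (xm : ℝ) / M + ((s.gp : ℝ) + s.gn) / S + ((s.dp : ℝ) + s.dn) / S ≤
        ((s.a : ℝ) / S * ((b : ℝ) / M - 1) - ((s.hp : ℝ) - s.hn) / S) *
          (b / M - s1.r / M) := by
      rw [f1, f2]
      apply div_le_div_of_nonneg_right _ (by positivity)
      linarith
    unfold rα rγ rδ rη
    linarith
  obtain ⟨g0, k0⟩ := key s0 h0
  obtain ⟨_, k1⟩ := key s1 h1
  have hα : ∀ s : Sd, 0 ≤ rα s := by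
    intro s
    unfold rα
    positivity
  have m0 := mul_le_mul_of_nonneg_left k0 (by linarith : (0 : ℝ) ≤ 1 - t)
  have m1 := mul_le_mul_of_nonneg_left k1 ht0
  have habs : ∀ x y : ℝ, |li t x y| ≤ (1 - t) * |x| + t * |y| := by
    intro x y
    unfold li
    refine (abs_add_le _ _).trans (le_of_eq ?_)
    rw [abs_mul, abs_mul, abs_of_nonneg (by linarith : (0 : ℝ) ≤ 1 - t), abs_of_nonneg ht0]
  have ag := habs (rγ s0) (rγ s1)
  have ad := habs (rδ s0) (rδ s1)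
  refine point_of_far (x := (xm : ℝ) / M) (Bm := (b : ℝ) / M) (R1 := (s1.r : ℝ) / M) hv
    (le_li ht0 ht1 (hα _) (hα _)) (by positivity) (yy_sq _ _) hR0 hR1 hB g0 ?_
  have e : (li t (rα s0) (rα s1) * ((b : ℝ) / M - 1) - li t (rη s0) (rη s1)) *
      (b / M - s1.r / M) =
      (1 - t) * ((rα s0 * ((b : ℝ) / M - 1) - rη s0) * (b / M - s1.r / M)) +
      t * ((rα s1 * ((b : ℝ) / M - 1) - rη s1) * (b / M - s1.r / M)) := by
    unfold li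
    ring
  rw [e]
  linarith

/-- one node -/
theorem node_true {c b : ℕ} {K : St}
    (h : node (cor M k xm s0) (cor M k xm s1) (Nat.mul 2 (Nat.sub s1.r s0.r))
      (Nat.mul (Nat.sub s1.r s0.r) (Nat.sub s1.r s0.r))
      (Nat.add (Nat.mul (Nat.mul 2 (Nat.sub s1.r s0.r)) (oU M s0))
        (Nat.mul (Nat.mul (Nat.sub s1.r s0.r) (Nat.sub s1.r s0.r)) (M * 34359738368)))
      (Nat.mul (Nat.mul 2 (Nat.sub s1.r s0.r)) (oU M s1)) c b K = true) :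
    ∃ i0 i1 l0 l1 : ℕ, i0 ≤ 208 ∧ i1 ≤ 208 ∧ l0 < 65536 ∧ l1 < 65536 ∧
      K (Nat.shiftRight c 60) b (nu M k xm s0 s1 b i1 l1) (nv M k xm s0 s1 b i0 l0 i1 l1)
        (nw M s0 s1 b i0 l0 i1 l1)
        (vP M s0 b i0 l0) (vq M k xm s0 i0) (vU M k xm s0 b i0 l0) (vY M k xm s0 b i0 l0)
        (vW M k xm s0 b i0 l0)
        (vP M s1 b i1 l1) (vq M k xm s1 i1) (vU M k xm s1 b i1 l1) (vY M k xm s1 b i1 l1)
        (vW M k xm s1 b i1 l1) = true := by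
  unfold node at h
  obtain ⟨h1, h⟩ := bi_true h
  obtain ⟨h2, h⟩ := bi_true h
  exact ⟨_, _, _, _, Nat.le_of_ble_eq_true h1, Nat.le_of_ble_eq_true h2,
    Nat.mod_lt _ (by norm_num), Nat.mod_lt _ (by norm_num), h⟩

/-- the loop with its final arguments -/
def lp (M k xm : ℕ) (s0 s1 : Sd) (K : ℕ) : St :=
  bloop (cor M k xm s0) (cor M k xm s1) (Nat.mul 2 (Nat.sub s1.r s0.r))
      (Nat.mul (Nat.sub s1.r s0.r) (Nat.sub s1.r s0.r))
      (Nat.add (Nat.mul (Nat.mul 2 (Nat.sub s1.r s0.r)) (oU M s0))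
        (Nat.mul (Nat.mul (Nat.sub s1.r s0.r) (Nat.sub s1.r s0.r)) (M * 34359738368)))
      (Nat.mul (Nat.mul 2 (Nat.sub s1.r s0.r)) (oU M s1))
      (M * M) (M * 34359738368) (M * M * (16 * s1.r)) (32 * (M * M))
      (fun b => bi (tlb M s0.a xm s1.r s0.gp s0.gn s0.dp s0.dn s0.hp s0.hn b)
        (tlb M s1.a xm s1.r s1.gp s1.gn s1.dp s1.dn s1.hp s1.hn b) false) K

theorem lp_sound (hM : 0 < M) (hx : xm ≤ 4 * M) (hk : k ≤ 100) (hr : s0.r ≤ s1.r)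
    (hg0 : s0.a + s0.hp ≤ 4294967296) (hg1 : s1.a + s1.hp ≤ 4294967296)
    {t R : ℝ} {v : ℂ} (hv : 1 ≤ ‖v‖) (ht0 : 0 ≤ t) (ht1 : t ≤ 1)
    (hR0 : 0 ≤ R) (hR1 : R ≤ (s1.r : ℝ) / M)
    (hR : li t ((s0.r : ℝ) / M) ((s1.r : ℝ) / M) = R) :
    ∀ (K c b i0 l0 i1 l1 : ℕ), i0 ≤ 208 → i1 ≤ 208 → l0 < 65536 → l1 < 65536 →
    lp M k xm s0 s1 K c b (nu M k xm s0 s1 b i1 l1) (nv M k xm s0 s1 b i0 l0 i1 l1)
        (nw M s0 s1 b i0 l0 i1 l1)
        (vP M s0 b i0 l0) (vq M k xm s0 i0) (vU M k xm s0 b i0 l0) (vY M k xm s0 b i0 l0)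
        (vW M k xm s0 b i0 l0)
        (vP M s1 b i1 l1) (vq M k xm s1 i1) (vU M k xm s1 b i1 l1) (vY M k xm s1 b i1 l1)
        (vW M k xm s1 b i1 l1) = true →
    (b : ℝ) / M ≤ ‖v - (R : ℂ)‖ →
    PtR M k xm (li t (rα s0) (rα s1)) (li t (rγ s0) (rγ s1)) (li t (rδ s0) (rδ s1))
      (li t (rη s0) (rη s1)) R v := by
  have hMR : (0 : ℝ) < M := by exact_mod_cast hM
  intro K
  induction K with
  | zero =>
    intro c b i0 l0 i1 l1 _ _ _ _ h _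
    exact absurd h (by simp [lp, bloop])
  | succ K ih =>
    intro c b i0 l0 i1 l1 hi0 hi1 hl0 hl1 h hB
    have e : lp M k xm s0 s1 (K + 1) c b (nu M k xm s0 s1 b i1 l1)
        (nv M k xm s0 s1 b i0 l0 i1 l1) (nw M s0 s1 b i0 l0 i1 l1)
        (vP M s0 b i0 l0) (vq M k xm s0 i0) (vU M k xm s0 b i0 l0) (vY M k xm s0 b i0 l0)
        (vW M k xm s0 b i0 l0)
        (vP M s1 b i1 l1) (vq M k xm s1 i1) (vU M k xm s1 b i1 l1) (vY M k xm s1 b i1 l1)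
        (vW M k xm s1 b i1 l1) =
      bi (Nat.beq c 0) (bi (tlb M s0.a xm s1.r s0.gp s0.gn s0.dp s0.dn s0.hp s0.hn b)
        (tlb M s1.a xm s1.r s1.gp s1.gn s1.dp s1.dn s1.hp s1.hn b) false)
        (node (cor M k xm s0) (cor M k xm s1) (Nat.mul 2 (Nat.sub s1.r s0.r))
          (Nat.mul (Nat.sub s1.r s0.r) (Nat.sub s1.r s0.r))
          (Nat.add (Nat.mul (Nat.mul 2 (Nat.sub s1.r s0.r)) (oU M s0))
            (Nat.mul (Nat.mul (Nat.sub s1.r s0.r) (Nat.sub s1.r s0.r)) (M * 34359738368)))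
          (Nat.mul (Nat.mul 2 (Nat.sub s1.r s0.r)) (oU M s1)) c
          (Nat.add b (Nat.mod (Nat.shiftRight c 48) 4096))
          (fun c' b' u' v' w' P0' q0' U0' Y0' W0' P1' q1' U1' Y1' W1' =>
            bi (cellOK (M * M) (M * 34359738368) (M * M * (16 * s1.r)) (32 * (M * M))
              b (nu M k xm s0 s1 b i1 l1) (nv M k xm s0 s1 b i0 l0 i1 l1)
              (nw M s0 s1 b i0 l0 i1 l1)
              (vP M s0 b i0 l0) (vq M k xm s0 i0) (vU M k xm s0 b i0 l0) (vY M k xm s0 b i0 l0)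
              (vW M k xm s0 b i0 l0)
              (vP M s1 b i1 l1) (vq M k xm s1 i1) (vU M k xm s1 b i1 l1) (vY M k xm s1 b i1 l1)
              (vW M k xm s1 b i1 l1)
              b' u' v' w' P0' q0' U0' Y0' W0' P1' q1' U1' Y1' W1')
              (lp M k xm s0 s1 K c' b' u' v' w' P0' q0' U0' Y0' W0' P1' q1' U1' Y1' W1')
              false)) := rfl
    rw [e] at h
    cases hc : Nat.beq c 0 with
    | true =>
      rw [hc] at h
      obtain ⟨h0, h1⟩ := bi_true (show bi _ _ false = true from h)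
      exact tlb_sound hM h0 h1 hv ht0 ht1 hR0 hR1 hB
    | false =>
      rw [hc, bi_ff] at h
      obtain ⟨j0, j1, m0, m1, hj0, hj1, hm0, hm1, h⟩ := node_true h
      obtain ⟨hcell, hrec⟩ := bi_true h
      obtain ⟨b', hb'⟩ : ∃ b', b' = Nat.add b (Nat.mod (Nat.shiftRight c 48) 4096) := ⟨_, rfl⟩
      rw [← hb'] at hcell hrec
      have hbb : b ≤ b' := by
        rw [hb']
        exact Nat.le_add_right _ _
      rcases le_total ‖v - (R : ℂ)‖ ((b' : ℝ) / M) with hle | hge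
      · obtain ⟨s, hs0, hs1, hs⟩ := exists_t hB hle
        exact pt_of_cell hM hx hk hi0 hi1 hj0 hj1 hv hs0 hs1 ht0 ht1 hle hR0 hR1 hs hR
          (cell_sound hM hr hg0 hg1 hbb hl0 hl1 hm0 hm1 hcell hs0 hs1 ht0 ht1)
      · exact ih _ b' j0 m0 j1 m1 hj0 hj1 hm0 hm1 hrec hge

/-- **soundness, general form** -/
theorem bchk2_sound {r0 r1 a gp gn dp dn hp hn a' gp' gn' dp' dn' hp' hn' c : ℕ}
    (h : bchk2 M k xm r0 r1 a gp gn dp dn hp hn a' gp' gn' dp' dn' hp' hn' c = true) {t : ℝ}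
    (ht0 : 0 ≤ t) (ht1 : t ≤ 1) :
    ODual (li t ((r0 : ℝ) / M) ((r1 : ℝ) / M)) ((xm : ℝ) / M * Real.cos (k / 64))
      ((xm : ℝ) / M * Real.sin (k / 64)) (li t ((a : ℝ) / S) ((a' : ℝ) / S))
      (li t (((gp : ℝ) - gn) / S) (((gp' : ℝ) - gn') / S))
      (li t (((dp : ℝ) - dn) / S) (((dp' : ℝ) - dn') / S))
      (li t (((hp : ℝ) - hn) / S) (((hp' : ℝ) - hn') / S)) := by
  unfold bchk2 at h
  obtain ⟨h1, h⟩ := bi_true h
  obtain ⟨h2, h3⟩ := bi_true h1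
  obtain ⟨hM, hx⟩ := bi_true h2
  obtain ⟨h4, h5⟩ := bi_true h3
  obtain ⟨hr, hk⟩ := bi_true h4
  obtain ⟨hg0, hg1⟩ := bi_true h5
  have hM : 0 < M := Nat.le_of_ble_eq_true hM
  have hx : xm ≤ 4 * M := Nat.le_of_ble_eq_true hx
  have hr : r0 ≤ r1 := Nat.le_of_ble_eq_true hr
  have hk : k ≤ 100 := Nat.le_of_ble_eq_true hk
  have hg0 : a + hp ≤ 4294967296 := Nat.le_of_ble_eq_true hg0
  have hg1 : a' + hp' ≤ 4294967296 := Nat.le_of_ble_eq_true hg1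
  have hMR : (0 : ℝ) < M := by exact_mod_cast hM
  have hS := S_pos'
  obtain ⟨s0, hs0⟩ : ∃ s : Sd, s = ⟨r0, a, gp, gn, dp, dn, hp, hn⟩ := ⟨_, rfl⟩
  obtain ⟨s1, hs1⟩ : ∃ s : Sd, s = ⟨r1, a', gp', gn', dp', dn', hp', hn'⟩ := ⟨_, rfl⟩
  have hnode : node (cor M k xm s0) (cor M k xm s1) (Nat.mul 2 (Nat.sub s1.r s0.r))
      (Nat.mul (Nat.sub s1.r s0.r) (Nat.sub s1.r s0.r))
      (Nat.add (Nat.mul (Nat.mul 2 (Nat.sub s1.r s0.r)) (oU M s0))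
        (Nat.mul (Nat.mul (Nat.sub s1.r s0.r) (Nat.sub s1.r s0.r)) (M * 34359738368)))
      (Nat.mul (Nat.mul 2 (Nat.sub s1.r s0.r)) (oU M s1)) c (Nat.sub M s1.r)
      (lp M k xm s0 s1 300) = true := by
    rw [hs0, hs1]
    exact h
  obtain ⟨i0, i1, l0, l1, hi0, hi1, hl0, hl1, hl⟩ := node_true hnode
  refine ⟨?_, fun v hv => ?_⟩
  · exact le_li ht0 ht1 (by positivity) (by positivity)
  have hr01 : (r0 : ℝ) / M ≤ (r1 : ℝ) / M :=
    div_le_div_of_nonneg_right (by exact_mod_cast hr) hMR.le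
  have hR0 : 0 ≤ li t ((r0 : ℝ) / M) ((r1 : ℝ) / M) :=
    le_li ht0 ht1 (by positivity) (by positivity)
  have hR1 : li t ((r0 : ℝ) / M) ((r1 : ℝ) / M) ≤ (r1 : ℝ) / M := li_le ht0 ht1 hr01 le_rfl
  have key := lp_sound (s0 := s0) (s1 := s1) hM hx hk (by rw [hs0, hs1]; exact hr)
    (by rw [hs0]; exact hg0) (by rw [hs1]; exact hg1) hv ht0 ht1 hR0 (by rw [hs1]; exact hR1)
    (by rw [hs0, hs1]) 300 _ _ i0 l0 i1 l1 hi0 hi1 hl0 hl1 hl ?_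
  · rw [hs0, hs1] at key
    exact key
  · rw [hs1]
    obtain ⟨R, hRd⟩ : ∃ R, R = li t ((r0 : ℝ) / M) ((r1 : ℝ) / M) := ⟨_, rfl⟩
    rw [← hRd] at hR0 hR1 ⊢
    have g1 : 1 - R ≤ ‖v - (R : ℂ)‖ := by
      have h2 : ‖v‖ ≤ ‖v - (R : ℂ)‖ + R := by
        calc ‖v‖ = ‖(v - (R : ℂ)) + (R : ℂ)‖ := by rw [sub_add_cancel]
          _ ≤ ‖v - (R : ℂ)‖ + ‖(R : ℂ)‖ := norm_add_le _ _
          _ = _ := by rw [Complex.norm_real, Real.norm_of_nonneg hR0]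
      linarith
    show ((M - r1 : ℕ) : ℝ) / M ≤ _
    rcases le_total M r1 with h3 | h3
    · rw [Nat.sub_eq_zero_of_le h3, Nat.cast_zero, zero_div]
      exact norm_nonneg _
    · rw [Nat.cast_sub h3, sub_div, div_self hMR.ne']
      linarith

/-- **soundness, constant multipliers** -/
theorem bchk_sound {r0 r1 a gp gn dp dn hp hn c : ℕ}
    (h : bchk M k xm r0 r1 a gp gn dp dn hp hn c = true) {R : ℝ}
    (hR0 : (r0 : ℝ) / M ≤ R) (hR1 : R ≤ r1 / M) :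
    ODual R ((xm : ℝ) / M * Real.cos (k / 64)) ((xm : ℝ) / M * Real.sin (k / 64)) ((a : ℝ) / S)
      (((gp : ℝ) - gn) / S) (((dp : ℝ) - dn) / S) (((hp : ℝ) - hn) / S) := by
  obtain ⟨t, ht0, ht1, ht⟩ := exists_t hR0 hR1
  have h2 := bchk2_sound h ht0 ht1
  rw [li_self, li_self, li_self, li_self] at h2
  have e : li t ((r0 : ℝ) / M) ((r1 : ℝ) / M) = R := ht
  rw [e] at h2
  exact h2

end

end Pool.Agent.Lib.MP_af3a4a_an.P1.CHK.H39.Bil
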