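import Pool.Agent.Lib.MP_af3a4a_an.P1.CHK.H39.BilMain
import Pool.Agent.Lib.MP_af3a4a_an.P1.CHK.TAIL.NFam

/-!
# Bilinear multipliers: node duals and pools (council 2, helper39)

`nchkB` and `poolB` are `nchk` and `poolOK` (helper62) with the bilinear certificate.
-/

set_option autoImplicit false

namespace Pool.Agent.Lib.MP_af3a4a_an.P1.CHK.H39.Bil

open Pool.Agent.Lib.MP_af3a4a_an.P1.CHK.H58 (S)
open Pool.Agent.Lib.MP_af3a4a_an.P1.CHK.H39.Interp (NDual nearOK nearOK_sound)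
open Pool.Agent.Lib.MP_af3a4a_an.P1.CHK.TAIL (nJ nK nG nD nH NodeE FamN off_fr)

/-- a node with radius `p / M` -/
def nchkB (M k xm r0 r1 a gp gn dp dn hp hn c p : ℕ) : Bool :=
  bi (bi (Nat.ble xm 1099511627776) (Nat.ble 1 p) false)
    (bi (nearOK M k xm r0 r1 a gp gn dp dn hp hn p)
      (bchk M k xm r0 r1 a gp gn dp dn hp hn c) false) false

theorem nchkB_sound {M k xm r0 r1 a gp gn dp dn hp hn c p : ℕ}
    (h : nchkB M k xm r0 r1 a gp gn dp dn hp hn c p = true) {R : ℝ}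
    (hR0 : (r0 : ℝ) / M ≤ R) (hR1 : R ≤ r1 / M) :
    NDual R ((xm : ℝ) / M * Real.cos (k / 64)) ((xm : ℝ) / M * Real.sin (k / 64)) ((a : ℝ) / S)
      (((gp : ℝ) - gn) / S) (((dp : ℝ) - dn) / S) (((hp : ℝ) - hn) / S) ((p : ℝ) / M) ∧
    0 < (p : ℝ) / M := by
  unfold nchkB at h
  obtain ⟨h1, h2⟩ := bi_true h
  obtain ⟨hx, hp⟩ := bi_true h1
  obtain ⟨hn, hb⟩ := bi_true h2
  have hx : xm ≤ 1099511627776 := Nat.le_of_ble_eq_true hx
  have hp : 1 ≤ p := Nat.le_of_ble_eq_true hp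
  have hO := bchk_sound hb hR0 hR1
  unfold bchk bchk2 at hb
  obtain ⟨g1, -⟩ := bi_true hb
  obtain ⟨g2, g3⟩ := bi_true g1
  obtain ⟨hM, -⟩ := bi_true g2
  obtain ⟨g4, -⟩ := bi_true g3
  obtain ⟨hr, hk⟩ := bi_true g4
  have hM : 0 < M := Nat.le_of_ble_eq_true hM
  have hr : r0 ≤ r1 := Nat.le_of_ble_eq_true hr
  have hk : k ≤ 100 := Nat.le_of_ble_eq_true hk
  refine ⟨⟨hO, fun v hv hvy => nearOK_sound hM hk hx hr hn hR0 hR1 hv hvy⟩, ?_⟩
  have : (0 : ℝ) < M := by exact_mod_cast hM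
  have : (0 : ℝ) < p := by exact_mod_cast hp
  positivity

/-- one node entry with its certificate: `a = α 2^20`, stream `c`, radius `p / M` -/
def nodeB (M B k r0 r1 e a c p : ℕ) : Bool :=
  (fun J K G D H =>
    bi (Nat.ble (Nat.mul 32 (Nat.mul M M)) (Nat.mul K (Nat.mul p p)))
      (nchkB M k (Nat.mul J B) r0 r1 a (Nat.sub G 8388608) (Nat.sub 8388608 G)
        (Nat.sub D 8388608) (Nat.sub 8388608 D) (Nat.sub H 8388608) (Nat.sub 8388608 H) c p)
      false) (nJ e) (nK e) (nG e) (nD e) (nH e)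

theorem nodeB_sound {M B Q k r0 r1 e a c p : ℕ} (hM : Q * B = M) (hQ : 0 < Q) (hB : 0 < B)
    (h : nodeB M B k r0 r1 e a c p = true) {R : ℝ} (hR0 : (r0 : ℝ) / M ≤ R)
    (hR1 : R ≤ r1 / M) : NodeE Q k R e := by
  unfold nodeB at h
  obtain ⟨h, h1⟩ := bi_true h
  have hx : (((nJ e * B : ℕ) : ℝ) / M) = (nJ e : ℝ) / Q := by
    have hQ' : (0 : ℝ) < Q := Nat.cast_pos.2 hQ
    have hB' : (0 : ℝ) < B := Nat.cast_pos.2 hB
    rw [← hM]
    push_cast
    field_simp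
  have hM0 : 0 < M := by
    rw [← hM]
    exact Nat.mul_pos hQ hB
  have hM' : (0 : ℝ) < M := Nat.cast_pos.2 hM0
  obtain ⟨hD, hp⟩ := nchkB_sound h1 hR0 hR1
  simp only [Nat.sub_eq, Nat.mul_eq] at hD
  rw [hx, off_fr, off_fr, off_fr] at hD
  refine ⟨_, _, hp, ?_, hD⟩
  have h2 := Nat.le_of_ble_eq_true h
  have h3 : ((32 * (M * M) : ℕ) : ℝ) ≤ ((nK e * (p * p) : ℕ) : ℝ) := by exact_mod_cast h2
  push_cast at h3
  rw [div_pow, mul_div_assoc', le_div_iff₀ (by positivity)]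
  linarith

/-- the nodes of a pool -/
def pgoB (M B k r0 r1 : ℕ) : List (ℕ × ℕ × ℕ) → ℕ → Bool
  | [], _ => true
  | (a, c, p) :: cs, F =>
    bi (nodeB M B k r0 r1 F a c p) (pgoB M B k r0 r1 cs (Nat.shiftRight F 96)) false

theorem pgoB_sound {M B Q k r0 r1 : ℕ} (hM : Q * B = M) (hQ : 0 < Q) (hB : 0 < B) :
    ∀ (certs : List (ℕ × ℕ × ℕ)) (F : ℕ), pgoB M B k r0 r1 certs F = true →
    ∀ i, i < certs.length → ∀ R : ℝ, (r0 : ℝ) / M ≤ R → R ≤ r1 / M →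
      NodeE Q k R (F >>> (96 * i)) := by
  intro certs
  induction certs with
  | nil =>
    intro F _ i hi
    exact absurd hi (Nat.not_lt_zero _)
  | cons t cs ih =>
    obtain ⟨a, c, p⟩ := t
    intro F h i hi R hR0 hR1
    rw [pgoB] at h
    obtain ⟨h1, h⟩ := bi_true h
    rcases i with _ | i
    · rw [Nat.mul_zero, Nat.shiftRight_zero]
      exact nodeB_sound hM hQ hB h1 hR0 hR1
    · have := ih (F >>> 96) h i (by
        simp only [List.length_cons] at hi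
        omega) R hR0 hR1
      rw [← Nat.shiftRight_add] at this
      rw [show 96 * (i + 1) = 96 + 96 * i by ring]
      exact this

/-- **the check of a pool**, `B = M/Q` -/
def poolB (M Q k r0 r1 P : ℕ) (certs : List (ℕ × ℕ × ℕ)) : Bool :=
  bi (bi (Nat.ble 1 Q) (bi (Nat.ble 1 M) (Nat.beq (Nat.mul Q (Nat.div M Q)) M) false) false)
    (pgoB M (Nat.div M Q) k r0 r1 certs P) false

/-- **soundness of the check of a pool** -/
theorem poolB_sound {M Q k r0 r1 P : ℕ} {certs : List (ℕ × ℕ × ℕ)}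
    (h : poolB M Q k r0 r1 P certs = true) : FamN M Q k r0 r1 P certs.length := by
  unfold poolB at h
  obtain ⟨h1, h⟩ := bi_true h
  obtain ⟨h1, h2⟩ := bi_true h1
  obtain ⟨h2, h3⟩ := bi_true h2
  have hQ : 0 < Q := Nat.le_of_ble_eq_true h1
  have hM : 0 < M := Nat.le_of_ble_eq_true h2
  have hB : Q * (M / Q) = M := Nat.eq_of_beq_eq_true h3
  refine ⟨hQ, pgoB_sound hB hQ ?_ certs P h⟩
  rcases Nat.eq_zero_or_pos (M / Q) with h4 | h4
  · rw [h4, Nat.mul_zero] at hB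
    omega
  · exact h4

end Pool.Agent.Lib.MP_af3a4a_an.P1.CHK.H39.Bil
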