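import Pool.Agent.Lib.MP_af3a4a_an.P1.CHK.H74.OffCell

set_option autoImplicit false

/-!
# Bilinear multipliers: the real part (council 2, helper39)

`κ` and `λ` are bilinear in `(B, R)` on a cell; `P = 2 α B + K`, `G = γ - κ y₁`, `A = δ - κ y₂`,
`Q = κ x² - λ` are bilinear too, and the minimum over the cell of the polynomial form is bounded by
its values at the corners.
-/

namespace Pool.Agent.Lib.MP_af3a4a_an.P1.CHK.H39.Bil

open Pool.Agent.Lib.MP_af3a4a_an.P1.CHK.H74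

/-- the form after the minimum over the direction -/
noncomputable def FB (P G A Q B R : ℝ) : ℝ :=
  (R ^ 2 + B ^ 2) * P - 2 * R * G - Q - 2 * ‖(⟨B * (R * P - G), B * A⟩ : ℂ)‖

theorem FF_eq (α γ c1 a2 q K lam B R : ℝ) : FF α γ c1 a2 q K lam B R =
    FB (2 * α * B + K) (γ - c1) a2 (q - lam) B R := by
  unfold FF FB A0 a1
  have e1 : B * (R * (2 * α * B + K) - γ + c1) = B * (R * (2 * α * B + K) - (γ - c1)) := by ring
  rw [e1]
  ring

/-- linear interpolation -/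
noncomputable def li (t a b : ℝ) : ℝ := (1 - t) * a + t * b

/-- a perturbed chord of norms -/
theorem norm_mk_chord {t x y x' y' d e : ℝ} (h0 : 0 ≤ t) (h1 : t ≤ 1) :
    ‖(⟨(1 - t) * x + t * x' + d, (1 - t) * y + t * y' + e⟩ : ℂ)‖ ≤
      (1 - t) * ‖(⟨x, y⟩ : ℂ)‖ + t * ‖(⟨x', y'⟩ : ℂ)‖ + (|d| + |e|) := by
  have hn := norm_mk_comb (x := x) (y := y) (x' := x') (y' := y') h0 h1
  have hn2 := norm_mk_add (x := (1 - t) * x + t * x') (y := (1 - t) * y + t * y') (d := d) (e := e)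
  linarith

/-- **interpolation in `R`** -/
theorem FB_R {B R0 R1 t P0 P1 G0 G1 A0 A1 Q0 Q1 : ℝ} (hB : 0 ≤ B) (hR : R0 ≤ R1)
    (h0 : 0 ≤ t) (h1 : t ≤ 1) :
    li t (FB P0 G0 A0 Q0 B R0) (FB P1 G1 A1 Q1 B R1) -
      t * (1 - t) * ((R1 - R0) ^ 2 * li t P0 P1 + (R1 - R0) * (R0 + R1) * (P1 - P0) -
        2 * (R1 - R0) * (G1 - G0) + 2 * B * (R1 - R0) * |P1 - P0|) ≤
      FB (li t P0 P1) (li t G0 G1) (li t A0 A1) (li t Q0 Q1) B (li t R0 R1) := by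
  have hn := norm_mk_chord (x := B * (R0 * P0 - G0)) (y := B * A0) (x' := B * (R1 * P1 - G1))
    (y' := B * A1) (d := -(t * (1 - t) * (B * (R1 - R0) * (P1 - P0)))) (e := 0) h0 h1
  have ev : (⟨(1 - t) * (B * (R0 * P0 - G0)) + t * (B * (R1 * P1 - G1)) +
      -(t * (1 - t) * (B * (R1 - R0) * (P1 - P0))), (1 - t) * (B * A0) + t * (B * A1) + 0⟩ : ℂ) =
      ⟨B * (li t R0 R1 * li t P0 P1 - li t G0 G1), B * li t A0 A1⟩ := by
    apply Complex.ext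
    · simp only [li]
      ring
    · simp only [li]
      ring
  rw [ev] at hn
  have ha : |(-(t * (1 - t) * (B * (R1 - R0) * (P1 - P0))))| =
      t * (1 - t) * (B * (R1 - R0) * |P1 - P0|) := by
    rw [abs_neg, abs_mul, abs_mul, abs_mul, abs_mul, abs_of_nonneg h0,
      abs_of_nonneg (by linarith : (0 : ℝ) ≤ 1 - t), abs_of_nonneg hB,
      abs_of_nonneg (by linarith : (0 : ℝ) ≤ R1 - R0)]
  rw [ha, abs_zero, add_zero] at hn
  have e1 : (li t R0 R1 ^ 2 + B ^ 2) * li t P0 P1 - 2 * li t R0 R1 * li t G0 G1 - li t Q0 Q1 =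
      (1 - t) * ((R0 ^ 2 + B ^ 2) * P0 - 2 * R0 * G0 - Q0) +
      t * ((R1 ^ 2 + B ^ 2) * P1 - 2 * R1 * G1 - Q1) -
      t * (1 - t) * ((R1 - R0) ^ 2 * li t P0 P1 + (R1 - R0) * (R0 + R1) * (P1 - P0) -
        2 * (R1 - R0) * (G1 - G0)) := by
    unfold li
    ring
  unfold FB
  rw [e1]
  unfold li at hn ⊢
  linarith

/-- **interpolation in `B`** -/
theorem FB_B {B0 B1 R s P0 P1 G0 G1 A0 A1 Q0 Q1 : ℝ} (hB : B0 ≤ B1)
    (h0 : 0 ≤ s) (h1 : s ≤ 1) :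
    li s (FB P0 G0 A0 Q0 B0 R) (FB P1 G1 A1 Q1 B1 R) -
      s * (1 - s) * ((B1 - B0) ^ 2 * li s P0 P1 + (B1 - B0) * (B0 + B1) * (P1 - P0) +
        2 * (B1 - B0) * (|(R * P1 - G1) - (R * P0 - G0)| + |A1 - A0|)) ≤
      FB (li s P0 P1) (li s G0 G1) (li s A0 A1) (li s Q0 Q1) (li s B0 B1) R := by
  have hn := norm_mk_chord (x := B0 * (R * P0 - G0)) (y := B0 * A0) (x' := B1 * (R * P1 - G1))
    (y' := B1 * A1) (d := -(s * (1 - s) * ((B1 - B0) * ((R * P1 - G1) - (R * P0 - G0)))))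
    (e := -(s * (1 - s) * ((B1 - B0) * (A1 - A0)))) h0 h1
  have ev : (⟨(1 - s) * (B0 * (R * P0 - G0)) + s * (B1 * (R * P1 - G1)) +
      -(s * (1 - s) * ((B1 - B0) * ((R * P1 - G1) - (R * P0 - G0)))),
      (1 - s) * (B0 * A0) + s * (B1 * A1) + -(s * (1 - s) * ((B1 - B0) * (A1 - A0)))⟩ : ℂ) =
      ⟨li s B0 B1 * (R * li s P0 P1 - li s G0 G1), li s B0 B1 * li s A0 A1⟩ := by
    apply Complex.ext
    · simp only [li]
      ring
    · simp only [li]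
      ring
  rw [ev] at hn
  have ha : ∀ z : ℝ, |(-(s * (1 - s) * ((B1 - B0) * z)))| = s * (1 - s) * ((B1 - B0) * |z|) := by
    intro z
    rw [abs_neg, abs_mul, abs_mul, abs_mul, abs_of_nonneg h0,
      abs_of_nonneg (by linarith : (0 : ℝ) ≤ 1 - s),
      abs_of_nonneg (by linarith : (0 : ℝ) ≤ B1 - B0)]
  rw [ha, ha] at hn
  have e1 : (R ^ 2 + li s B0 B1 ^ 2) * li s P0 P1 - 2 * R * li s G0 G1 - li s Q0 Q1 =
      (1 - s) * ((R ^ 2 + B0 ^ 2) * P0 - 2 * R * G0 - Q0) +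
      s * ((R ^ 2 + B1 ^ 2) * P1 - 2 * R * G1 - Q1) -
      s * (1 - s) * ((B1 - B0) ^ 2 * li s P0 P1 + (B1 - B0) * (B0 + B1) * (P1 - P0)) := by
    unfold li
    ring
  unfold FB
  rw [e1]
  unfold li at hn ⊢
  linarith

theorem li_le {t a b c : ℝ} (h0 : 0 ≤ t) (h1 : t ≤ 1) (ha : a ≤ c) (hb : b ≤ c) : li t a b ≤ c := by
  unfold li
  have := mul_le_mul_of_nonneg_left ha (by linarith : (0 : ℝ) ≤ 1 - t)
  have := mul_le_mul_of_nonneg_left hb h0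
  linarith

theorem le_li {t a b c : ℝ} (h0 : 0 ≤ t) (h1 : t ≤ 1) (ha : c ≤ a) (hb : c ≤ b) : c ≤ li t a b := by
  unfold li
  have := mul_le_mul_of_nonneg_left ha (by linarith : (0 : ℝ) ≤ 1 - t)
  have := mul_le_mul_of_nonneg_left hb h0
  linarith

theorem quart {t c C : ℝ} (h0 : 0 ≤ t) (h1 : t ≤ 1) (hc : c ≤ C) (hC : 0 ≤ C) :
    t * (1 - t) * c ≤ C / 4 := by
  have ht : 0 ≤ t * (1 - t) := mul_nonneg h0 (by linarith)
  have h4 : t * (1 - t) ≤ 1 / 4 := by nlinarith [sq_nonneg (t - 1 / 2)]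
  calc t * (1 - t) * c ≤ t * (1 - t) * C := mul_le_mul_of_nonneg_left hc ht
    _ ≤ 1 / 4 * C := mul_le_mul_of_nonneg_right h4 hC
    _ = C / 4 := by ring

/-- bilinear interpolation: first index `B`, second index `R` -/
noncomputable def bl (s t a00 a01 a10 a11 : ℝ) : ℝ := li t (li s a00 a10) (li s a01 a11)

/-- **the cell** -/
theorem FB_cell {B0 B1 R0 R1 s t P00 P01 P10 P11 G00 G01 G10 G11 A00 A01 A10 A11
    Q00 Q01 Q10 Q11 d0 d1 c0 c1 : ℝ} (hB0 : 0 ≤ B0) (hB : B0 ≤ B1) (hR : R0 ≤ R1)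
    (hs0 : 0 ≤ s) (hs1 : s ≤ 1) (ht0 : 0 ≤ t) (ht1 : t ≤ 1) (hd0 : 0 ≤ d0) (hd1 : 0 ≤ d1)
    (hc0 : 0 ≤ c0) (hc1 : 0 ≤ c1)
    (r00 : (R1 - R0) ^ 2 * P00 + (R1 - R0) * (R0 + R1) * (P01 - P00) -
      2 * (R1 - R0) * (G01 - G00) + 2 * B1 * (R1 - R0) * |P01 - P00| ≤ d0)
    (r01 : (R1 - R0) ^ 2 * P01 + (R1 - R0) * (R0 + R1) * (P01 - P00) -
      2 * (R1 - R0) * (G01 - G00) + 2 * B1 * (R1 - R0) * |P01 - P00| ≤ d0)
    (r10 : (R1 - R0) ^ 2 * P10 + (R1 - R0) * (R0 + R1) * (P11 - P10) -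
      2 * (R1 - R0) * (G11 - G10) + 2 * B1 * (R1 - R0) * |P11 - P10| ≤ d1)
    (r11 : (R1 - R0) ^ 2 * P11 + (R1 - R0) * (R0 + R1) * (P11 - P10) -
      2 * (R1 - R0) * (G11 - G10) + 2 * B1 * (R1 - R0) * |P11 - P10| ≤ d1)
    (b00 : (B1 - B0) ^ 2 * P00 + (B1 - B0) * (B0 + B1) * (P10 - P00) +
      2 * (B1 - B0) * (|(R0 * P10 - G10) - (R0 * P00 - G00)| + |A10 - A00|) ≤ c0)
    (b10 : (B1 - B0) ^ 2 * P10 + (B1 - B0) * (B0 + B1) * (P10 - P00) +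
      2 * (B1 - B0) * (|(R0 * P10 - G10) - (R0 * P00 - G00)| + |A10 - A00|) ≤ c0)
    (b01 : (B1 - B0) ^ 2 * P01 + (B1 - B0) * (B0 + B1) * (P11 - P01) +
      2 * (B1 - B0) * (|(R1 * P11 - G11) - (R1 * P01 - G01)| + |A11 - A01|) ≤ c1)
    (b11 : (B1 - B0) ^ 2 * P11 + (B1 - B0) * (B0 + B1) * (P11 - P01) +
      2 * (B1 - B0) * (|(R1 * P11 - G11) - (R1 * P01 - G01)| + |A11 - A01|) ≤ c1)
    {e : ℝ}
    (e00 : e + (d0 + c0) / 4 ≤ FB P00 G00 A00 Q00 B0 R0)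
    (e10 : e + (d1 + c0) / 4 ≤ FB P10 G10 A10 Q10 B1 R0)
    (e01 : e + (d0 + c1) / 4 ≤ FB P01 G01 A01 Q01 B0 R1)
    (e11 : e + (d1 + c1) / 4 ≤ FB P11 G11 A11 Q11 B1 R1) :
    e ≤ FB (bl s t P00 P01 P10 P11) (bl s t G00 G01 G10 G11) (bl s t A00 A01 A10 A11)
      (bl s t Q00 Q01 Q10 Q11) (li s B0 B1) (li t R0 R1) := by
  have hBs : 0 ≤ li s B0 B1 := le_li hs0 hs1 hB0 (hB0.trans hB)
  have hBs1 : li s B0 B1 ≤ B1 := li_le hs0 hs1 hB le_rfl
  have hds : 0 ≤ li s d0 d1 := le_li hs0 hs1 hd0 hd1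
  -- the two edges
  have f0 : e + li s d0 d1 / 4 ≤ FB (li s P00 P10) (li s G00 G10) (li s A00 A10) (li s Q00 Q10)
      (li s B0 B1) R0 := by
    have h := FB_B (R := R0) (P0 := P00) (P1 := P10) (G0 := G00) (G1 := G10) (A0 := A00)
      (A1 := A10) (Q0 := Q00) (Q1 := Q10) hB hs0 hs1
    have hq := quart hs0 hs1 (c := (B1 - B0) ^ 2 * li s P00 P10 +
      (B1 - B0) * (B0 + B1) * (P10 - P00) +
      2 * (B1 - B0) * (|(R0 * P10 - G10) - (R0 * P00 - G00)| + |A10 - A00|)) (C := c0) (by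
        have := li_le hs0 hs1 b00 b10
        unfold li at this ⊢
        linarith) hc0
    have g0 := mul_le_mul_of_nonneg_left e00 (by linarith : (0 : ℝ) ≤ 1 - s)
    have g1 := mul_le_mul_of_nonneg_left e10 hs0
    unfold li at h hq ⊢
    linarith
  have f1 : e + li s d0 d1 / 4 ≤ FB (li s P01 P11) (li s G01 G11) (li s A01 A11) (li s Q01 Q11)
      (li s B0 B1) R1 := by
    have h := FB_B (R := R1) (P0 := P01) (P1 := P11) (G0 := G01) (G1 := G11) (A0 := A01)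
      (A1 := A11) (Q0 := Q01) (Q1 := Q11) hB hs0 hs1
    have hq := quart hs0 hs1 (c := (B1 - B0) ^ 2 * li s P01 P11 +
      (B1 - B0) * (B0 + B1) * (P11 - P01) +
      2 * (B1 - B0) * (|(R1 * P11 - G11) - (R1 * P01 - G01)| + |A11 - A01|)) (C := c1) (by
        have := li_le hs0 hs1 b01 b11
        unfold li at this ⊢
        linarith) hc1
    have g0 := mul_le_mul_of_nonneg_left e01 (by linarith : (0 : ℝ) ≤ 1 - s)
    have g1 := mul_le_mul_of_nonneg_left e11 hs0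
    unfold li at h hq ⊢
    linarith
  have h := FB_R (B := li s B0 B1) (R0 := R0) (R1 := R1) (P0 := li s P00 P10)
    (P1 := li s P01 P11) (G0 := li s G00 G10) (G1 := li s G01 G11) (A0 := li s A00 A10)
    (A1 := li s A01 A11) (Q0 := li s Q00 Q10) (Q1 := li s Q01 Q11) hBs hR ht0 ht1
  have hD : 0 ≤ R1 - R0 := by linarith
  have habs : |li s P01 P11 - li s P00 P10| ≤ li s |P01 - P00| |P11 - P10| := by
    have e1 : li s P01 P11 - li s P00 P10 = (1 - s) * (P01 - P00) + s * (P11 - P10) := by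
      unfold li
      ring
    rw [e1]
    refine (abs_add_le _ _).trans (le_of_eq ?_)
    rw [abs_mul, abs_mul, abs_of_nonneg (by linarith : (0 : ℝ) ≤ 1 - s), abs_of_nonneg hs0]
    rfl
  have hB2 : 2 * li s B0 B1 * (R1 - R0) * |li s P01 P11 - li s P00 P10| ≤
      2 * B1 * (R1 - R0) * li s |P01 - P00| |P11 - P10| := by
    apply mul_le_mul _ habs (abs_nonneg _)
    · have : 0 ≤ B1 := hB0.trans hB
      positivity
    · exact mul_le_mul_of_nonneg_right (by linarith) hD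
  have key : (R1 - R0) ^ 2 * li t (li s P00 P10) (li s P01 P11) +
      (R1 - R0) * (R0 + R1) * (li s P01 P11 - li s P00 P10) -
        2 * (R1 - R0) * (li s G01 G11 - li s G00 G10) +
        2 * li s B0 B1 * (R1 - R0) * |li s P01 P11 - li s P00 P10| ≤ li s d0 d1 := by
    have k0 := li_le ht0 ht1 r00 r01
    have k1 := li_le ht0 ht1 r10 r11
    have g0 := mul_le_mul_of_nonneg_left k0 (by linarith : (0 : ℝ) ≤ 1 - s)
    have g1 := mul_le_mul_of_nonneg_left k1 hs0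
    refine le_trans (add_le_add_right hB2 _) (le_trans (le_of_eq ?_) (add_le_add g0 g1))
    unfold li
    ring
  have hq := quart ht0 ht1 key hds
  have hl := le_li ht0 ht1 f0 f1
  unfold bl
  linarith

end Pool.Agent.Lib.MP_af3a4a_an.P1.CHK.H39.Bil
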