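import Pool.Agent.Lib.MP_af3a4a_an.P1.CHK.H39.BilVal

/-!
# Bilinear multipliers: soundness of one cell (council 2, helper39)
-/

set_option autoImplicit false

namespace Pool.Agent.Lib.MP_af3a4a_an.P1.CHK.H39.Bil

open Pool.Agent.Lib.MP_af3a4a_an.P1.CHK.H74
  (FF q_approx kK_lt norm_mk_add point_of_FF point_of_far yy_sq exists_t ODual)
open Pool.Agent.Lib.MP_af3a4a_an.P1.CHK.H58 (S kK kL S_cast tab_sound)
open Pool.Agent.Lib.MP_af3a4a_an.P1.CHK.Arith (ad ad_cast sub_le_cast)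
open Pool.Agent.Lib.MP_af3a4a_an.P1.CHK.Curve (cN sN tab_ok cos_nonneg_tab sin_nonneg_tab)

theorem max_aff {c d x y : ℝ} (hc : 0 ≤ c) : max (c * x + d) (c * y + d) = c * max x y + d := by
  rcases le_total x y with h | h
  · have := mul_le_mul_of_nonneg_left h hc
    rw [max_eq_right h, max_eq_right (by linarith)]
  · have := mul_le_mul_of_nonneg_left h hc
    rw [max_eq_left h, max_eq_left (by linarith)]

theorem min_aff {c d x y : ℝ} (hc : 0 ≤ c) : min (c * x + d) (c * y + d) = c * min x y + d := by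
  rcases le_total x y with h | h
  · have := mul_le_mul_of_nonneg_left h hc
    rw [min_eq_left h, min_eq_left (by linarith)]
  · have := mul_le_mul_of_nonneg_left h hc
    rw [min_eq_right h, min_eq_right (by linarith)]

theorem abs_aff {c x y : ℝ} (hc : 0 ≤ c) (h : y = c * x) : |y| = c * |x| := by
  rw [h, abs_mul, abs_of_nonneg hc]

section

variable {M k xm : ℕ} {s0 s1 : Sd}

/-- the `B` correction -/
theorem cBn_real (hM : 0 < M) {s : Sd} (hg : s.a + s.hp ≤ 4294967296) {b b' i la i' la' : ℕ}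
    (hb : b ≤ b') (hla : la < 65536) (hla' : la' < 65536) :
    ((b' : ℝ) / M - b / M) ^ 2 * max (rP M s b i la) (rP M s b' i' la') +
      ((b' : ℝ) / M - b / M) * ((b : ℝ) / M + b' / M) * (rP M s b' i' la' - rP M s b i la) +
      2 * ((b' : ℝ) / M - b / M) * (|((s.r : ℝ) / M * rP M s b' i' la' - rG M k xm s i') -
        ((s.r : ℝ) / M * rP M s b i la - rG M k xm s i)| +
        |rA M k xm s i' - rA M k xm s i|) ≤
      ((cBn (M * M) (M * 34359738368) (b' - b) (b + b') (vP M s b i la) (vP M s b' i' la')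
        (vq M k xm s i) (vq M k xm s i') (vU M k xm s b i la) (vU M k xm s b' i' la') : ℕ) : ℝ) /
        (S * M ^ 3) := by
  have hMR : (0 : ℝ) < M := by exact_mod_cast hM
  have hS := S_pos'
  have hD : (0 : ℝ) < S * M ^ 3 := by positivity
  have hbR : (b : ℝ) ≤ b' := by exact_mod_cast hb
  have hP := P_cast hM hg (b := b) (i := i) hla
  have hP' := P_cast hM hg (b := b') (i := i') hla'
  have hA := q_cast (M := M) (k := k) (xm := xm) (s := s) (i := i)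
  have hA' := q_cast (M := M) (k := k) (xm := xm) (s := s) (i := i')
  have hU := U_cast (k := k) (xm := xm) hM hg (b := b) (i := i) hla
  have hU' := U_cast (k := k) (xm := xm) hM hg (b := b') (i := i') hla'
  obtain ⟨p, hp⟩ : ∃ p, p = vP M s b i la := ⟨_, rfl⟩
  obtain ⟨p', hp'⟩ : ∃ p, p = vP M s b' i' la' := ⟨_, rfl⟩
  obtain ⟨q, hq⟩ : ∃ p, p = vq M k xm s i := ⟨_, rfl⟩
  obtain ⟨q', hq'⟩ : ∃ p, p = vq M k xm s i' := ⟨_, rfl⟩
  obtain ⟨u, hu⟩ : ∃ p, p = vU M k xm s b i la := ⟨_, rfl⟩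
  obtain ⟨u', hu'⟩ : ∃ p, p = vU M k xm s b' i' la' := ⟨_, rfl⟩
  rw [← hp] at hP
  rw [← hp'] at hP'
  rw [← hq] at hA
  rw [← hq'] at hA'
  rw [← hu] at hU
  rw [← hu'] at hU'
  rw [← hp, ← hp', ← hq, ← hq', ← hu, ← hu']
  have e1 : cBn (M * M) (M * 34359738368) (b' - b) (b + b') p p' q q' u u' =
      (b' - b) * (((b' - b) * (p + (p' - p)) + ((b + b') * p' +
        2 * (ad u u' + M * M * ad q q'))) - ((b' - b) * (M * 34359738368) + (b + b') * p)) := rfl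
  rw [e1]
  have hmx : p + (p' - p) = max p p' := by omega
  rw [hmx]
  have h2 := sub_le_cast ((b' - b) * max p p' + ((b + b') * p' +
        2 * (ad u u' + M * M * ad q q'))) ((b' - b) * (M * 34359738368) + (b + b') * p)
  have h3 := mul_le_mul_of_nonneg_left h2 (by linarith : (0 : ℝ) ≤ (b' : ℝ) - b)
  rw [Nat.cast_mul, Nat.cast_sub hb, le_div_iff₀ hD]
  refine le_trans (le_of_eq ?_) h3
  have hmaxR : (((max p p' : ℕ)) : ℝ) = S * M * max (rP M s b i la) (rP M s b' i' la') +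
      M * 34359738368 := by
    rw [Nat.cast_max, hP, hP', max_aff (by positivity)]
  have hUU : (ad u u' : ℝ) = S * M ^ 2 * |((s.r : ℝ) / M * rP M s b' i' la' - rG M k xm s i') -
        ((s.r : ℝ) / M * rP M s b i la - rG M k xm s i)| := by
    rw [ad_cast, abs_sub_comm (u : ℝ) u']
    apply abs_aff (by positivity)
    linear_combination hU' - hU
  have hqq : (ad q q' : ℝ) = S * |rA M k xm s i' - rA M k xm s i| := by
    rw [ad_cast]
    apply abs_aff hS.le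
    linear_combination hA - hA'
  push_cast [Nat.cast_sub hb, hmaxR, hUU, hqq]
  rw [hP, hP']
  field_simp
  ring

/-- the numbers of the `R` correction at a node -/
def nu (M k xm : ℕ) (s0 s1 : Sd) (b i1 l1 : ℕ) : ℕ :=
  2 * (s1.r - s0.r) * vU M k xm s1 b i1 l1 +
    (2 * (s1.r - s0.r) * oU M s0 + (s1.r - s0.r) * (s1.r - s0.r) * (M * 34359738368))

def nv (M k xm : ℕ) (s0 s1 : Sd) (b i0 l0 i1 l1 : ℕ) : ℕ :=
  2 * (s1.r - s0.r) * vU M k xm s0 b i0 l0 +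
    ((s1.r - s0.r) * (s1.r - s0.r) *
      (vP M s0 b i0 l0 - (vP M s0 b i0 l0 - vP M s1 b i1 l1)) + 2 * (s1.r - s0.r) * oU M s1)

def nw (M : ℕ) (s0 s1 : Sd) (b i0 l0 i1 l1 : ℕ) : ℕ :=
  2 * (s1.r - s0.r) * ad (vP M s0 b i0 l0) (vP M s1 b i1 l1)

/-- the `R` correction -/
theorem cRn_real (hM : 0 < M) (hr : s0.r ≤ s1.r) (hg0 : s0.a + s0.hp ≤ 4294967296)
    (hg1 : s1.a + s1.hp ≤ 4294967296) {b b' i0 l0 i1 l1 : ℕ} (hl0 : l0 < 65536)
    (hl1 : l1 < 65536) :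
    ((s1.r : ℝ) / M - s0.r / M) ^ 2 * max (rP M s0 b i0 l0) (rP M s1 b i1 l1) +
      ((s1.r : ℝ) / M - s0.r / M) * ((s0.r : ℝ) / M + s1.r / M) *
        (rP M s1 b i1 l1 - rP M s0 b i0 l0) -
      2 * ((s1.r : ℝ) / M - s0.r / M) * (rG M k xm s1 i1 - rG M k xm s0 i0) +
      2 * ((b' : ℝ) / M) * ((s1.r : ℝ) / M - s0.r / M) * |rP M s1 b i1 l1 - rP M s0 b i0 l0| ≤
      ((nu M k xm s0 s1 b i1 l1 + b' * nw M s0 s1 b i0 l0 i1 l1 -
        nv M k xm s0 s1 b i0 l0 i1 l1 : ℕ) : ℝ) / (S * M ^ 3) := by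
  have hMR : (0 : ℝ) < M := by exact_mod_cast hM
  have hS := S_pos'
  have hD : (0 : ℝ) < S * M ^ 3 := by positivity
  have hP0 := P_cast hM hg0 (b := b) (i := i0) hl0
  have hP1 := P_cast hM hg1 (b := b) (i := i1) hl1
  have hU0 := U_cast (k := k) (xm := xm) hM hg0 (b := b) (i := i0) hl0
  have hU1 := U_cast (k := k) (xm := xm) hM hg1 (b := b) (i := i1) hl1
  unfold nu nv nw
  obtain ⟨p0, hp0⟩ : ∃ p, p = vP M s0 b i0 l0 := ⟨_, rfl⟩
  obtain ⟨p1, hp1⟩ : ∃ p, p = vP M s1 b i1 l1 := ⟨_, rfl⟩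
  obtain ⟨u0, hu0⟩ : ∃ p, p = vU M k xm s0 b i0 l0 := ⟨_, rfl⟩
  obtain ⟨u1, hu1⟩ : ∃ p, p = vU M k xm s1 b i1 l1 := ⟨_, rfl⟩
  rw [← hp0] at hP0
  rw [← hp1] at hP1
  rw [← hu0] at hU0
  rw [← hu1] at hU1
  rw [← hp0, ← hp1, ← hu0, ← hu1]
  have hmn : p0 - (p0 - p1) = min p0 p1 := by omega
  rw [hmn]
  obtain ⟨D, hDd⟩ : ∃ D, D = s1.r - s0.r := ⟨_, rfl⟩
  have hDR : (D : ℝ) = (s1.r : ℝ) - s0.r := by
    rw [hDd, Nat.cast_sub hr]
  rw [← hDd]
  have h2 := sub_le_cast (2 * D * u1 + (2 * D * oU M s0 + D * D * (M * 34359738368)) +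
    b' * (2 * D * ad p0 p1)) (2 * D * u0 + (D * D * min p0 p1 + 2 * D * oU M s1))
  rw [le_div_iff₀ hD]
  refine le_trans (le_of_eq ?_) h2
  have hminR : (((min p0 p1 : ℕ)) : ℝ) = S * M * min (rP M s0 b i0 l0) (rP M s1 b i1 l1) +
      M * 34359738368 := by
    rw [Nat.cast_min, hP0, hP1, min_aff (by positivity)]
  have hPP : (ad p0 p1 : ℝ) = S * M * |rP M s1 b i1 l1 - rP M s0 b i0 l0| := by
    rw [ad_cast, abs_sub_comm (p0 : ℝ) p1]
    apply abs_aff (by positivity)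
    linear_combination hP1 - hP0
  have hmm : min (rP M s0 b i0 l0) (rP M s1 b i1 l1) =
      rP M s0 b i0 l0 + rP M s1 b i1 l1 - max (rP M s0 b i0 l0) (rP M s1 b i1 l1) := by
    have := min_add_max (rP M s0 b i0 l0) (rP M s1 b i1 l1)
    linarith
  have e1 : ((2 * D * u1 + (2 * D * oU M s0 + D * D * (M * 34359738368)) +
      b' * (2 * D * ad p0 p1) : ℕ) : ℝ) -
      ((2 * D * u0 + (D * D * min p0 p1 + 2 * D * oU M s1) : ℕ) : ℝ) =
      2 * D * (((u1 : ℝ) - oU M s1) - ((u0 : ℝ) - oU M s0)) +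
        D * D * (M * 34359738368 - (min p0 p1 : ℕ)) + b' * (2 * D * (ad p0 p1 : ℕ)) := by
    push_cast
    ring
  rw [e1, hU1, hU0, hminR, hPP, hmm, hDR]
  field_simp
  ring

/-- **one cell** -/
theorem cell_sound (hM : 0 < M) (hr : s0.r ≤ s1.r) (hg0 : s0.a + s0.hp ≤ 4294967296)
    (hg1 : s1.a + s1.hp ≤ 4294967296) {b b' i0 l0 i1 l1 i0' l0' i1' l1' : ℕ} (hb : b ≤ b')
    (hl0 : l0 < 65536) (hl1 : l1 < 65536) (hl0' : l0' < 65536) (hl1' : l1' < 65536)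
    (h : cellOK (M * M) (M * 34359738368) (M * M * (16 * s1.r)) (32 * (M * M))
      b (nu M k xm s0 s1 b i1 l1) (nv M k xm s0 s1 b i0 l0 i1 l1) (nw M s0 s1 b i0 l0 i1 l1)
      (vP M s0 b i0 l0) (vq M k xm s0 i0) (vU M k xm s0 b i0 l0) (vY M k xm s0 b i0 l0)
      (vW M k xm s0 b i0 l0)
      (vP M s1 b i1 l1) (vq M k xm s1 i1) (vU M k xm s1 b i1 l1) (vY M k xm s1 b i1 l1)
      (vW M k xm s1 b i1 l1)
      b' (nu M k xm s0 s1 b' i1' l1') (nv M k xm s0 s1 b' i0' l0' i1' l1')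
      (nw M s0 s1 b' i0' l0' i1' l1')
      (vP M s0 b' i0' l0') (vq M k xm s0 i0') (vU M k xm s0 b' i0' l0')
      (vY M k xm s0 b' i0' l0') (vW M k xm s0 b' i0' l0')
      (vP M s1 b' i1' l1') (vq M k xm s1 i1') (vU M k xm s1 b' i1' l1')
      (vY M k xm s1 b' i1' l1') (vW M k xm s1 b' i1' l1') = true)
    {s t : ℝ} (hs0 : 0 ≤ s) (hs1 : s ≤ 1) (ht0 : 0 ≤ t) (ht1 : t ≤ 1) :
    2 / S * (2 * ((s1.r : ℝ) / M) + 4 * ((b' : ℝ) / M)) ≤
      FB (bl s t (rP M s0 b i0 l0) (rP M s1 b i1 l1) (rP M s0 b' i0' l0') (rP M s1 b' i1' l1'))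
        (bl s t (rG M k xm s0 i0) (rG M k xm s1 i1) (rG M k xm s0 i0') (rG M k xm s1 i1'))
        (bl s t (rA M k xm s0 i0) (rA M k xm s1 i1) (rA M k xm s0 i0') (rA M k xm s1 i1'))
        (bl s t (rQ M xm i0 l0) (rQ M xm i1 l1) (rQ M xm i0' l0') (rQ M xm i1' l1'))
        (li s ((b : ℝ) / M) ((b' : ℝ) / M)) (li t ((s0.r : ℝ) / M) ((s1.r : ℝ) / M)) := by
  have hMR : (0 : ℝ) < M := by exact_mod_cast hM
  have hS := S_pos'
  have hD : (0 : ℝ) < S * M ^ 3 := by positivity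
  unfold cellOK at h
  obtain ⟨h00, h⟩ := bi_true h
  obtain ⟨h01, h⟩ := bi_true h
  obtain ⟨h10, h11⟩ := bi_true h
  have k00 := cmp_sound hM hg0 hl0 h00
  have k01 := cmp_sound hM hg1 hl1 h01
  have k10 := cmp_sound hM hg0 hl0' h10
  have k11 := cmp_sound hM hg1 hl1' h11
  simp only [Nat.add_eq, Nat.mul_eq, Nat.sub_eq] at k00 k01 k10 k11
  have c0 := cBn_real (k := k) (xm := xm) hM hg0 (i := i0) (i' := i0') hb hl0 hl0'
  have c1 := cBn_real (k := k) (xm := xm) hM hg1 (i := i1) (i' := i1') hb hl1 hl1'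
  have d0 := cRn_real (k := k) (xm := xm) hM hr hg0 hg1 (b := b) (b' := b') (i0 := i0) (i1 := i1)
    hl0 hl1
  have d1 := cRn_real (k := k) (xm := xm) hM hr hg0 hg1 (b := b') (b' := b') (i0 := i0')
    (i1 := i1') hl0' hl1'
  obtain ⟨C0, hC0⟩ : ∃ C, C = cBn (M * M) (M * 34359738368) (b' - b) (b + b') (vP M s0 b i0 l0)
    (vP M s0 b' i0' l0') (vq M k xm s0 i0) (vq M k xm s0 i0') (vU M k xm s0 b i0 l0)
    (vU M k xm s0 b' i0' l0') := ⟨_, rfl⟩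
  obtain ⟨C1, hC1⟩ : ∃ C, C = cBn (M * M) (M * 34359738368) (b' - b) (b + b') (vP M s1 b i1 l1)
    (vP M s1 b' i1' l1') (vq M k xm s1 i1) (vq M k xm s1 i1') (vU M k xm s1 b i1 l1)
    (vU M k xm s1 b' i1' l1') := ⟨_, rfl⟩
  obtain ⟨D0, hD0⟩ : ∃ C, C = nu M k xm s0 s1 b i1 l1 + b' * nw M s0 s1 b i0 l0 i1 l1 -
    nv M k xm s0 s1 b i0 l0 i1 l1 := ⟨_, rfl⟩
  obtain ⟨D1, hD1⟩ : ∃ C, C = nu M k xm s0 s1 b' i1' l1' + b' * nw M s0 s1 b' i0' l0' i1' l1' -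
    nv M k xm s0 s1 b' i0' l0' i1' l1' := ⟨_, rfl⟩
  rw [← hC0] at c0 k00 k10
  rw [← hC1] at c1 k01 k11
  rw [← hD0] at d0 k00 k01
  rw [← hD1] at d1 k10 k11
  have hsum : ∀ D C : ℕ, ((D + (M * M * (16 * s1.r) + 32 * (M * M) * b') + C : ℕ) : ℝ) /
      (4 * (S * M ^ 3)) = 2 / S * (2 * ((s1.r : ℝ) / M) + 4 * ((b' : ℝ) / M)) +
        ((D : ℝ) / (S * M ^ 3) + (C : ℝ) / (S * M ^ 3)) / 4 := by
    intro D C
    push_cast
    field_simp
    ring
  rw [hsum] at k00 k01 k10 k11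
  have hbb : (b : ℝ) / M ≤ (b' : ℝ) / M :=
    div_le_div_of_nonneg_right (by exact_mod_cast hb) hMR.le
  have hrr : (s0.r : ℝ) / M ≤ (s1.r : ℝ) / M :=
    div_le_div_of_nonneg_right (by exact_mod_cast hr) hMR.le
  have hw1 : ∀ {x y z w : ℝ}, 0 ≤ x → x ^ 2 * max y z + w ≤ x ^ 2 * max y z + w := fun _ => le_rfl
  have hmax : ∀ {x y z : ℝ}, x ^ 2 * y ≤ x ^ 2 * max y z := fun {x y z} =>
    mul_le_mul_of_nonneg_left (le_max_left _ _) (sq_nonneg _)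
  have hmax' : ∀ {x y z : ℝ}, x ^ 2 * z ≤ x ^ 2 * max y z := fun {x y z} =>
    mul_le_mul_of_nonneg_left (le_max_right _ _) (sq_nonneg _)
  refine FB_cell (d0 := (D0 : ℝ) / (S * M ^ 3)) (d1 := (D1 : ℝ) / (S * M ^ 3))
    (c0 := (C0 : ℝ) / (S * M ^ 3)) (c1 := (C1 : ℝ) / (S * M ^ 3)) (by positivity) hbb hrr hs0 hs1
    ht0 ht1 (by positivity) (by positivity) (by positivity) (by positivity)
    ?_ ?_ ?_ ?_ ?_ ?_ ?_ ?_ k00 k10 k01 k11
  · refine le_trans ?_ d0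
    have := @hmax ((s1.r : ℝ) / M - s0.r / M) (rP M s0 b i0 l0) (rP M s1 b i1 l1)
    linarith
  · refine le_trans ?_ d0
    have := @hmax' ((s1.r : ℝ) / M - s0.r / M) (rP M s0 b i0 l0) (rP M s1 b i1 l1)
    linarith
  · refine le_trans ?_ d1
    have := @hmax ((s1.r : ℝ) / M - s0.r / M) (rP M s0 b' i0' l0') (rP M s1 b' i1' l1')
    linarith
  · refine le_trans ?_ d1
    have := @hmax' ((s1.r : ℝ) / M - s0.r / M) (rP M s0 b' i0' l0') (rP M s1 b' i1' l1')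
    linarith
  · refine le_trans ?_ c0
    have := @hmax ((b' : ℝ) / M - b / M) (rP M s0 b i0 l0) (rP M s0 b' i0' l0')
    linarith
  · refine le_trans ?_ c0
    have := @hmax' ((b' : ℝ) / M - b / M) (rP M s0 b i0 l0) (rP M s0 b' i0' l0')
    linarith
  · refine le_trans ?_ c1
    have := @hmax ((b' : ℝ) / M - b / M) (rP M s1 b i1 l1) (rP M s1 b' i1' l1')
    linarith
  · refine le_trans ?_ c1
    have := @hmax' ((b' : ℝ) / M - b / M) (rP M s1 b i1 l1) (rP M s1 b' i1' l1')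
    linarith

end

end Pool.Agent.Lib.MP_af3a4a_an.P1.CHK.H39.Bil
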