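import Pool.Agent.Lib.MP_af3a4a_an.P1.CHK.H39.BilReal
import Pool.Agent.Lib.MP_af3a4a_an.P1.CHK.H39.BilDefs
import Pool.Agent.Lib.MP_af3a4a_an.P1.CHK.H74.OffMain

/-!
# Bilinear multipliers: the values at a node (council 2, helper39)
-/

set_option autoImplicit false

namespace Pool.Agent.Lib.MP_af3a4a_an.P1.CHK.H39.Bil

open Pool.Agent.Lib.MP_af3a4a_an.P1.CHK.H74 (FF q_approx kK_lt)
open Pool.Agent.Lib.MP_af3a4a_an.P1.CHK.H58 (S kK kL S_cast tab_sound)
open Pool.Agent.Lib.MP_af3a4a_an.P1.CHK.Arith (ad ad_cast sub_le_cast)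
open Pool.Agent.Lib.MP_af3a4a_an.P1.CHK.Curve (cN sN tab_ok cos_nonneg_tab sin_nonneg_tab)

theorem kL_lt (i : ℕ) : kL i < 4294967296 := Nat.mod_lt _ (by norm_num)

theorem S_pos' : (0 : ℝ) < S := by rw [S_cast]; norm_num

/-- one side: `R = r / M` and the multipliers -/
structure Sd where
  r : ℕ
  a : ℕ
  gp : ℕ
  gn : ℕ
  dp : ℕ
  dn : ℕ
  hp : ℕ
  hn : ℕ

section

variable (M k xm : ℕ) (s : Sd)

/-- the corner function of a side -/
def cor : Cor :=
  corner M (Nat.mul M M) (Nat.mul M 1099511627776) (Nat.mul xm (cN k)) (Nat.mul xm (sN k))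
    (Nat.mul (Nat.mul xm xm) M) (Nat.mul 1024 (Nat.mul M (Nat.mul M M)))
    (Nat.mul M 34359738368) s.r (Nat.mul s.r s.r) (Nat.mul 2 (Nat.mul s.r (Nat.mul M M)))
    (Nat.mul 2 s.a)
    (Nat.sub (Nat.add 34377564160 (Nat.mul 2 s.hn)) (Nat.mul 2 (Nat.add s.a s.hp)))
    s.gn s.dn s.dp (Nat.add (Nat.mul s.r (Nat.mul M 34359738368)) (Nat.mul (Nat.mul M M) s.gp))
    (Nat.mul (Nat.mul 2 (Nat.mul s.r (Nat.mul M M))) s.gp)

/-- value of `P` -/
def vP (b i la : ℕ) : ℕ :=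
  2 * s.a * b + M * (34377564160 + 2 * s.hn - 2 * (s.a + s.hp) - (kL i + (kK i + 1024 * la)))

/-- `gn + κ y₁` -/
def vg (i : ℕ) : ℕ := s.gn + xm * cN k * kK i / (M * 1099511627776)

/-- `dn + κ y₂` -/
def vq (i : ℕ) : ℕ := s.dn + xm * sN k * kK i / (M * 1099511627776)

/-- value of `U` -/
def vU (b i la : ℕ) : ℕ := s.r * vP M s b i la + M * M * vg M k xm s i

/-- offset of `U` -/
def oU : ℕ := s.r * (M * 34359738368) + M * M * s.gp

/-- value of `Y` -/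
def vY (b i la : ℕ) : ℕ :=
  4 * ((s.r * s.r + b * b) * vP M s b i la +
      (2 * (s.r * (M * M)) * vg M k xm s i + 1024 * (M * (M * M)) * la) -
    ((s.r * s.r + b * b) * (M * 34359738368) +
      (xm * xm * M * kK i + 2 * (s.r * (M * M)) * s.gp)))

/-- value of `W` -/
def vW (b i la : ℕ) : ℕ :=
  1 + 64 * (b * b) * (ad (vU M k xm s b i la) (oU M s) ^ 2 +
    (M * M * ad (vq M k xm s i) s.dp) ^ 2)

theorem cor_eq (b i la : ℕ) (K : ℕ → ℕ → ℕ → ℕ → ℕ → Bool) :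
    cor M k xm s b (Nat.mul b b) (Nat.mul 64 (Nat.mul b b)) (kKr i) (kLr i) la K =
      K (vP M s b i la) (vq M k xm s i) (vU M k xm s b i la) (vY M k xm s b i la)
        (vW M k xm s b i la) := rfl

/-- the real multipliers -/
noncomputable def rα : ℝ := (s.a : ℝ) / S
noncomputable def rγ : ℝ := ((s.gp : ℝ) - s.gn) / S
noncomputable def rδ : ℝ := ((s.dp : ℝ) - s.dn) / S
noncomputable def rη : ℝ := ((s.hp : ℝ) - s.hn) / S
noncomputable def rκ (i : ℕ) : ℝ := (kK i : ℝ) / S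
noncomputable def rL (i : ℕ) : ℝ := (kL i : ℝ) / S - 16
noncomputable def rl (la : ℕ) : ℝ := ((1024 * la : ℕ) : ℝ) / S

noncomputable def rK (i la : ℕ) : ℝ := -2 * rα s - 2 * rη s + 1 - rL i - rκ i - rl la

noncomputable def rP (b i la : ℕ) : ℝ := 2 * rα s * ((b : ℝ) / M) + rK s i la

/-- the rounded `κ y₁`, `κ y₂` -/
noncomputable def ry1 (i : ℕ) : ℝ := ((xm * cN k * kK i / (M * 1099511627776) : ℕ) : ℝ) / S
noncomputable def ry2 (i : ℕ) : ℝ := ((xm * sN k * kK i / (M * 1099511627776) : ℕ) : ℝ) / S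

noncomputable def rG (i : ℕ) : ℝ := rγ s - ry1 M k xm i
noncomputable def rA (i : ℕ) : ℝ := rδ s - ry2 M k xm i
noncomputable def rQ (i la : ℕ) : ℝ := rκ i * ((xm : ℝ) / M) ^ 2 - rl la

variable {M k xm s}

theorem P_cast (hM : 0 < M) (hg : s.a + s.hp ≤ 4294967296) {b i la : ℕ} (hla : la < 65536) :
    (vP M s b i la : ℝ) = S * M * rP M s b i la + M * 34359738368 := by
  have hMR : (0 : ℝ) < M := by exact_mod_cast hM
  have hS := S_pos'
  have h1 := kL_lt i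
  have h2 := kK_lt i
  have h3 : 2 * (s.a + s.hp) ≤ 34377564160 + 2 * s.hn := by omega
  have h4 : kL i + (kK i + 1024 * la) ≤ 34377564160 + 2 * s.hn - 2 * (s.a + s.hp) := by omega
  unfold vP rP rK rα rη rL rκ rl
  push_cast [Nat.cast_sub h3, Nat.cast_sub h4]
  field_simp
  rw [S_cast]
  ring

theorem g_cast {i : ℕ} : (vg M k xm s i : ℝ) - s.gp = -(S * rG M k xm s i) := by
  have hS := S_pos'
  unfold vg rG rγ ry1
  rw [Nat.cast_add]
  field_simp
  ring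

theorem q_cast {i : ℕ} : (vq M k xm s i : ℝ) - s.dp = -(S * rA M k xm s i) := by
  have hS := S_pos'
  unfold vq rA rδ ry2
  rw [Nat.cast_add]
  field_simp
  ring

theorem U_cast (hM : 0 < M) (hg : s.a + s.hp ≤ 4294967296) {b i la : ℕ} (hla : la < 65536) :
    (vU M k xm s b i la : ℝ) - oU M s =
      S * M ^ 2 * ((s.r : ℝ) / M * rP M s b i la - rG M k xm s i) := by
  have hMR : (0 : ℝ) < M := by exact_mod_cast hM
  have hP := P_cast hM hg (b := b) (i := i) hla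
  have hG := g_cast (M := M) (k := k) (xm := xm) (s := s) (i := i)
  have e : (vU M k xm s b i la : ℝ) - oU M s =
      s.r * ((vP M s b i la : ℝ) - M * 34359738368) + M * M * ((vg M k xm s i : ℝ) - s.gp) := by
    unfold vU oU
    push_cast
    ring
  rw [e, hG, hP]
  field_simp
  ring

/-- **the comparison at a corner** -/
theorem cmp_sound (hM : 0 < M) (hg : s.a + s.hp ≤ 4294967296) {b i la c : ℕ} (hla : la < 65536)
    (h : cmp (vY M k xm s b i la) (vW M k xm s b i la) c = true) :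
    (c : ℝ) / (4 * (S * M ^ 3)) ≤
      FB (rP M s b i la) (rG M k xm s i) (rA M k xm s i) (rQ M xm i la) ((b : ℝ) / M)
        ((s.r : ℝ) / M) := by
  have hMR : (0 : ℝ) < M := by exact_mod_cast hM
  have hS := S_pos'
  have hD : (0 : ℝ) < S * M ^ 3 := by positivity
  unfold cmp at h
  simp only [Nat.sub_eq, Nat.pow_eq] at h
  have h : vW M k xm s b i la ≤ (vY M k xm s b i la - c) ^ 2 := Nat.le_of_ble_eq_true h
  obtain ⟨X, hX⟩ : ∃ X : ℕ, X = (s.r * s.r + b * b) * vP M s b i la +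
      (2 * (s.r * (M * M)) * vg M k xm s i + 1024 * (M * (M * M)) * la) := ⟨_, rfl⟩
  obtain ⟨Z, hZ⟩ : ∃ Z : ℕ, Z = (s.r * s.r + b * b) * (M * 34359738368) +
      (xm * xm * M * kK i + 2 * (s.r * (M * M)) * s.gp) := ⟨_, rfl⟩
  have hY : vY M k xm s b i la = 4 * (X - Z) := by
    rw [hX, hZ]
    rfl
  rw [hY] at h
  obtain ⟨V, hV⟩ : ∃ V : ℕ, V = ad (vU M k xm s b i la) (oU M s) ^ 2 +
    (M * M * ad (vq M k xm s i) s.dp) ^ 2 := ⟨_, rfl⟩
  have hW : vW M k xm s b i la = 1 + 64 * (b * b) * V := by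
    rw [hV]
    rfl
  rw [hW] at h
  have hcY : c < 4 * (X - Z) := by
    by_contra hcon
    have e : 4 * (X - Z) - c = 0 := by omega
    rw [e] at h
    simp at h
  have hZX : Z < X := by omega
  have h2 : ((64 * (b * b) * V : ℕ) : ℝ) ≤ (((4 * (X - Z) - c) ^ 2 : ℕ) : ℝ) := by
    exact_mod_cast (by omega : 64 * (b * b) * V ≤ (4 * (X - Z) - c) ^ 2)
  rw [Nat.cast_pow, Nat.cast_sub hcY.le] at h2
  push_cast [Nat.cast_sub hZX.le] at h2
  -- the two real quantities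
  have hP := P_cast hM hg (b := b) (i := i) hla
  have hG := g_cast (M := M) (k := k) (xm := xm) (s := s) (i := i)
  have hA := q_cast (M := M) (k := k) (xm := xm) (s := s) (i := i)
  have hU := U_cast (k := k) (xm := xm) hM hg (b := b) (i := i) hla
  obtain ⟨P, hPd⟩ : ∃ P, P = rP M s b i la := ⟨_, rfl⟩
  obtain ⟨G, hGd⟩ : ∃ G, G = rG M k xm s i := ⟨_, rfl⟩
  obtain ⟨A, hAd⟩ : ∃ A, A = rA M k xm s i := ⟨_, rfl⟩
  rw [← hPd, ← hGd] at hU
  rw [← hPd] at hP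
  rw [← hGd] at hG
  rw [← hAd] at hA
  rw [← hPd, ← hGd, ← hAd]
  have eV : (V : ℝ) = (S * M ^ 2 * ((s.r : ℝ) / M * P - G)) ^ 2 + (S * M ^ 2 * A) ^ 2 := by
    rw [hV, Nat.cast_add, Nat.cast_pow, Nat.cast_pow, Nat.cast_mul, ad_cast, ad_cast, mul_pow,
      sq_abs, sq_abs, hU, hA]
    push_cast
    ring
  have eX : (X : ℝ) - Z = S * M ^ 3 * ((((s.r : ℝ) / M) ^ 2 + ((b : ℝ) / M) ^ 2) * P -
      2 * ((s.r : ℝ) / M) * G - rQ M xm i la) := by
    have e1 : (X : ℝ) - Z = ((s.r : ℝ) * s.r + b * b) * ((vP M s b i la : ℝ) - M * 34359738368) +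
        2 * (s.r * (M * M)) * ((vg M k xm s i : ℝ) - s.gp) + 1024 * (M * (M * M)) * la -
        xm * xm * M * kK i := by
      rw [hX, hZ]
      push_cast
      ring
    rw [e1, hG, hP]
    unfold rQ rκ rl
    push_cast
    field_simp
    ring
  have hn : 8 * ‖(⟨(b : ℝ) / M * ((s.r : ℝ) / M * P - G), (b : ℝ) / M * A⟩ : ℂ)‖ ≤
      (4 * ((X : ℝ) - Z) - c) / (S * M ^ 3) := by
    have h3 : (8 * ‖(⟨(b : ℝ) / M * ((s.r : ℝ) / M * P - G), (b : ℝ) / M * A⟩ : ℂ)‖) ^ 2 ≤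
        ((4 * ((X : ℝ) - Z) - c) / (S * M ^ 3)) ^ 2 := by
      rw [mul_pow, ← Complex.normSq_eq_norm_sq, Complex.normSq_apply, div_pow]
      simp only
      rw [le_div_iff₀ (by positivity)]
      refine le_trans (le_of_eq ?_) h2
      rw [eV]
      field_simp
      ring
    have h4 : 0 ≤ (4 * ((X : ℝ) - Z) - c) / (S * M ^ 3) := by
      apply div_nonneg _ hD.le
      have : ((c : ℕ) : ℝ) ≤ ((4 * (X - Z) : ℕ) : ℝ) := by exact_mod_cast hcY.le
      push_cast [Nat.cast_sub hZX.le] at this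
      linarith
    have := sq_le_sq.1 h3
    rw [abs_of_nonneg h4] at this
    exact (le_abs_self _).trans this
  have e5 : (4 * ((X : ℝ) - Z) - c) / (S * M ^ 3) =
      4 * ((((s.r : ℝ) / M) ^ 2 + ((b : ℝ) / M) ^ 2) * P -
      2 * ((s.r : ℝ) / M) * G - rQ M xm i la) - 4 * (c / (4 * (S * M ^ 3))) := by
    rw [eX]
    field_simp
  rw [e5] at hn
  unfold FB
  linarith

end

end Pool.Agent.Lib.MP_af3a4a_an.P1.CHK.H39.Bil
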