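import Pool.Agent.Lib.MP_af3a4a_an.P1.CHK.H74.OffPoint

set_option autoImplicit false

/-!
# Node duals and interpolation in `x` (council 2, helper39)

Two duals at the nodes `x0 < x1` of one direction (with different multipliers) give, between the
nodes, the interpolated bound for `log |q|` with the small loss `t (1 - t) (x1 - x0)^2 / (2 ρ^2)`,
where `ρ` is a radius with `ρ ≤ ‖v‖ exp (A v)` near the node (`NDual`).
-/

namespace Pool.Agent.Lib.MP_af3a4a_an.P1.CHK.H39.Interp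

open MeasureTheory
open Pool.Agent.Lib.MP_af3a4a_an.SV (uu av)
open Pool.Agent.Lib.MP_af3a4a_an.P1.H80
open Pool.Agent.Lib.MP_af3a4a_an.P1.CHK.H74

/-! ## The gap lemma -/

/-- the tangent inequality -/
theorem log_ge {ρ P Q : ℝ} (hρ : 0 < ρ) (hP : ρ ≤ P) (hQ : ρ ≤ Q) :
    Real.log Q + (P - Q) / Q - (P - Q) ^ 2 / (2 * ρ ^ 2) ≤ Real.log P := by
  have hP0 : 0 < P := lt_of_lt_of_le hρ hP
  have hQ0 : 0 < Q := lt_of_lt_of_le hρ hQ
  obtain ⟨g, hg⟩ : ∃ g : ℝ → ℝ, g = fun s =>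
      Real.log s - Real.log Q - (s - Q) / Q + (s - Q) ^ 2 / (2 * ρ ^ 2) := ⟨_, rfl⟩
  have hd : ∀ s, 0 < s → HasDerivAt g (s⁻¹ - 1 / Q + (2 * (s - Q)) / (2 * ρ ^ 2)) s := by
    intro s hs
    rw [hg]
    have h1 := Real.hasDerivAt_log hs.ne'
    have h2 : HasDerivAt (fun s : ℝ => (s - Q) / Q) (1 / Q) s :=
      ((hasDerivAt_id s).sub_const Q).div_const Q
    have h3 : HasDerivAt (fun s : ℝ => (s - Q) ^ 2 / (2 * ρ ^ 2)) (2 * (s - Q) / (2 * ρ ^ 2)) s := by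
      have := (((hasDerivAt_id s).sub_const Q).pow 2).div_const (2 * ρ ^ 2)
      simpa using this
    exact ((h1.sub_const (Real.log Q)).sub h2).add h3
  have hval : ∀ s, 0 < s → s⁻¹ - 1 / Q + (2 * (s - Q)) / (2 * ρ ^ 2) =
      (s - Q) * (1 / ρ ^ 2 - 1 / (s * Q)) := by
    intro s hs
    field_simp
    ring
  have hfac : ∀ s, ρ ≤ s → 0 ≤ 1 / ρ ^ 2 - 1 / (s * Q) := by
    intro s hs
    rw [sub_nonneg]
    apply one_div_le_one_div_of_le (by positivity)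
    rw [sq]
    exact mul_le_mul hs hQ hρ.le (hρ.le.trans hs)
  have hQ1 : g Q = 0 := by
    rw [hg]
    simp
  have key : 0 ≤ g P := by
    rw [← hQ1]
    rcases le_total Q P with h | h
    · have : MonotoneOn g (Set.Icc Q P) := by
        apply monotoneOn_of_hasDerivWithinAt_nonneg (convex_Icc Q P)
          (f' := fun s => s⁻¹ - 1 / Q + (2 * (s - Q)) / (2 * ρ ^ 2))
        · intro s hs
          exact (hd s (lt_of_lt_of_le hQ0 hs.1)).continuousAt.continuousWithinAt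
        · intro s hs
          rw [interior_Icc] at hs
          exact (hd s (lt_trans hQ0 hs.1)).hasDerivWithinAt
        · intro s hs
          rw [interior_Icc] at hs
          rw [hval s (lt_trans hQ0 hs.1)]
          exact mul_nonneg (sub_nonneg.2 hs.1.le) (hfac s (hQ.trans hs.1.le))
      exact this (Set.left_mem_Icc.2 h) (Set.right_mem_Icc.2 h) h
    · have : AntitoneOn g (Set.Icc P Q) := by
        apply antitoneOn_of_hasDerivWithinAt_nonpos (convex_Icc P Q)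
          (f' := fun s => s⁻¹ - 1 / Q + (2 * (s - Q)) / (2 * ρ ^ 2))
        · intro s hs
          exact (hd s (lt_of_lt_of_le hP0 hs.1)).continuousAt.continuousWithinAt
        · intro s hs
          rw [interior_Icc] at hs
          exact (hd s (lt_trans hP0 hs.1)).hasDerivWithinAt
        · intro s hs
          rw [interior_Icc] at hs
          rw [hval s (lt_trans hP0 hs.1)]
          exact mul_nonpos_of_nonpos_of_nonneg (sub_nonpos.2 hs.2.le) (hfac s (hP.trans hs.1.le))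
      exact this (Set.left_mem_Icc.2 h) (Set.right_mem_Icc.2 h) h
  rw [hg] at key
  simp only [] at key
  linarith

/-- **the gap lemma** -/
theorem gap {ρ P0 P1 D t : ℝ} (hρ : 0 < ρ) (h0 : ρ ≤ P0) (h1 : ρ ≤ P1) (hD : |P1 - P0| ≤ D)
    (ht0 : 0 ≤ t) (ht1 : t ≤ 1) :
    (1 - t) * P0 + t * P1 ≤ Real.exp ((1 - t) * Real.log P0 + t * Real.log P1 +
      t * (1 - t) * D ^ 2 / (2 * ρ ^ 2)) := by
  have ht' : 0 ≤ 1 - t := by linarith
  obtain ⟨Q, hQ⟩ : ∃ Q, Q = (1 - t) * P0 + t * P1 := ⟨_, rfl⟩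
  have hQρ : ρ ≤ Q := by
    rw [hQ]
    nlinarith [mul_le_mul_of_nonneg_left h0 ht', mul_le_mul_of_nonneg_left h1 ht0]
  have hQ0 : 0 < Q := lt_of_lt_of_le hρ hQρ
  have a0 := mul_le_mul_of_nonneg_left (log_ge hρ h0 hQρ) ht'
  have a1 := mul_le_mul_of_nonneg_left (log_ge hρ h1 hQρ) ht0
  have e1 : (1 - t) * (Real.log Q + (P0 - Q) / Q - (P0 - Q) ^ 2 / (2 * ρ ^ 2)) +
      t * (Real.log Q + (P1 - Q) / Q - (P1 - Q) ^ 2 / (2 * ρ ^ 2)) =
      Real.log Q - t * (1 - t) * (P1 - P0) ^ 2 / (2 * ρ ^ 2) := by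
    have : (1 - t) * (P0 - Q) + t * (P1 - Q) = 0 := by
      rw [hQ]
      ring
    have e2 : (1 - t) * (P0 - Q) ^ 2 + t * (P1 - Q) ^ 2 = t * (1 - t) * (P1 - P0) ^ 2 := by
      rw [hQ]
      ring
    have e3 : (1 - t) * (Real.log Q + (P0 - Q) / Q - (P0 - Q) ^ 2 / (2 * ρ ^ 2)) +
      t * (Real.log Q + (P1 - Q) / Q - (P1 - Q) ^ 2 / (2 * ρ ^ 2)) =
      Real.log Q + ((1 - t) * (P0 - Q) + t * (P1 - Q)) / Q -
        ((1 - t) * (P0 - Q) ^ 2 + t * (P1 - Q) ^ 2) / (2 * ρ ^ 2) := by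
      field_simp
      ring
    rw [e3, this, e2]
    ring
  have hsq : (P1 - P0) ^ 2 ≤ D ^ 2 := by
    rw [← sq_abs]
    exact pow_le_pow_left₀ (abs_nonneg _) hD 2
  have h3 : t * (1 - t) * (P1 - P0) ^ 2 / (2 * ρ ^ 2) ≤ t * (1 - t) * D ^ 2 / (2 * ρ ^ 2) :=
    div_le_div_of_nonneg_right (mul_le_mul_of_nonneg_left hsq (mul_nonneg ht0 ht'))
      (by positivity)
  rw [← hQ]
  calc Q = Real.exp (Real.log Q) := (Real.exp_log hQ0).symm
    _ ≤ _ := by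
      apply Real.exp_le_exp.2
      linarith

/-! ## Node duals with a radius -/

/-- a dual at the node `y = y₁ - i y₂` with the radius `ρ` -/
structure NDual (R y1 y2 α γ δ h ρ : ℝ) : Prop extends ODual R y1 y2 α γ δ h where
  near : ∀ v : ℂ, 1 ≤ ‖v‖ → ‖v - ⟨y1, -y2⟩‖ < ρ →
    ρ ≤ ‖v‖ * Real.exp (α * (‖v - R‖ - 1) - γ * (v⁻¹).re - δ * (v⁻¹).im - h)

theorem norm_factor {v : ℂ} (hv : 1 ≤ ‖v‖) (y : ℂ) : ‖v - y‖ = ‖v‖ * ‖1 - y * v⁻¹‖ := by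
  have hv0 : v ≠ 0 := by
    intro h
    rw [h, norm_zero] at hv
    linarith
  rw [← norm_mul]
  congr 1
  field_simp

/-- both properties of a node dual in one -/
theorem NDual.bd {R y1 y2 α γ δ h ρ : ℝ} (hD : NDual R y1 y2 α γ δ h ρ) {v : ℂ}
    (hv : 1 ≤ ‖v‖) : max ‖v - ⟨y1, -y2⟩‖ ρ ≤
      ‖v‖ * Real.exp (α * (‖v - R‖ - 1) - γ * (v⁻¹).re - δ * (v⁻¹).im - h) := by
  have h1 : ‖v - ⟨y1, -y2⟩‖ ≤
      ‖v‖ * Real.exp (α * (‖v - R‖ - 1) - γ * (v⁻¹).re - δ * (v⁻¹).im - h) := by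
    rw [norm_factor hv]
    exact mul_le_mul_of_nonneg_left (hD.le v hv) (norm_nonneg _)
  refine max_le h1 ?_
  rcases lt_or_ge ‖v - ⟨y1, -y2⟩‖ ρ with h | h
  · exact hD.near v hv h
  · exact h.trans h1

theorem NDual.mono {R y1 y2 α γ δ h ρ ρ' : ℝ} (hD : NDual R y1 y2 α γ δ h ρ) (hρ : ρ' ≤ ρ) :
    NDual R y1 y2 α γ δ h ρ' :=
  ⟨hD.toODual, fun _ hv _ => (hρ.trans (le_max_right _ _)).trans (hD.bd hv)⟩

/-- **between two nodes**, pointwise -/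
theorem NDual.between {R y1 y2 y1' y2' α γ δ h α' γ' δ' h' ρ D t : ℝ} (hρ : 0 < ρ)
    (hD0 : NDual R y1 y2 α γ δ h ρ) (hD1 : NDual R y1' y2' α' γ' δ' h' ρ)
    (hD : ‖(⟨y1', -y2'⟩ : ℂ) - ⟨y1, -y2⟩‖ ≤ D) (ht0 : 0 ≤ t) (ht1 : t ≤ 1) {v : ℂ}
    (hv : 1 ≤ ‖v‖) :
    ‖1 - (((1 - t : ℝ) : ℂ) * ⟨y1, -y2⟩ + ((t : ℝ) : ℂ) * ⟨y1', -y2'⟩) * v⁻¹‖ ≤
      Real.exp ((1 - t) * (α * (‖v - R‖ - 1) - γ * (v⁻¹).re - δ * (v⁻¹).im - h) +
        t * (α' * (‖v - R‖ - 1) - γ' * (v⁻¹).re - δ' * (v⁻¹).im - h') +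
        t * (1 - t) * D ^ 2 / (2 * ρ ^ 2)) := by
  have ht' : 0 ≤ 1 - t := by linarith
  have hv0 : 0 < ‖v‖ := by linarith
  obtain ⟨A0, hA0⟩ : ∃ A0, A0 = α * (‖v - R‖ - 1) - γ * (v⁻¹).re - δ * (v⁻¹).im - h := ⟨_, rfl⟩
  obtain ⟨A1, hA1⟩ : ∃ A1, A1 = α' * (‖v - R‖ - 1) - γ' * (v⁻¹).re - δ' * (v⁻¹).im - h' :=
    ⟨_, rfl⟩
  obtain ⟨y, hy⟩ : ∃ y : ℂ, y = ⟨y1, -y2⟩ := ⟨_, rfl⟩
  obtain ⟨y', hy'⟩ : ∃ y' : ℂ, y' = ⟨y1', -y2'⟩ := ⟨_, rfl⟩
  have m0 := hD0.bd hv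
  have m1 := hD1.bd hv
  rw [← hA0, ← hy] at m0
  rw [← hA1, ← hy'] at m1
  rw [← hy, ← hy'] at hD
  rw [← hA0, ← hA1, ← hy, ← hy']
  have hP0 : 0 < max ‖v - y‖ ρ := lt_of_lt_of_le hρ (le_max_right _ _)
  have hP1 : 0 < max ‖v - y'‖ ρ := lt_of_lt_of_le hρ (le_max_right _ _)
  have hdist : |max ‖v - y'‖ ρ - max ‖v - y‖ ρ| ≤ D := by
    refine (abs_max_sub_max_le_abs _ _ _).trans ?_
    refine (abs_norm_sub_norm_le _ _).trans ?_
    have : v - y' - (v - y) = -(y' - y) := by ring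
    rw [this, norm_neg]
    exact hD
  have g := gap hρ (le_max_right ‖v - y‖ ρ) (le_max_right ‖v - y'‖ ρ) hdist ht0 ht1
  have l0 : Real.log (max ‖v - y‖ ρ) ≤ Real.log ‖v‖ + A0 := by
    have := Real.log_le_log hP0 m0
    rwa [Real.log_mul hv0.ne' (Real.exp_pos _).ne', Real.log_exp] at this
  have l1 : Real.log (max ‖v - y'‖ ρ) ≤ Real.log ‖v‖ + A1 := by
    have := Real.log_le_log hP1 m1
    rwa [Real.log_mul hv0.ne' (Real.exp_pos _).ne', Real.log_exp] at this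
  have key : ‖v - (((1 - t : ℝ) : ℂ) * y + ((t : ℝ) : ℂ) * y')‖ ≤
      (1 - t) * max ‖v - y‖ ρ + t * max ‖v - y'‖ ρ := by
    have e : v - (((1 - t : ℝ) : ℂ) * y + ((t : ℝ) : ℂ) * y') =
        ((1 - t : ℝ) : ℂ) * (v - y) + ((t : ℝ) : ℂ) * (v - y') := by
      push_cast
      ring
    rw [e]
    refine (norm_add_le _ _).trans ?_
    rw [norm_mul, norm_mul, Complex.norm_real, Complex.norm_real,
      Real.norm_of_nonneg ht', Real.norm_of_nonneg ht0]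
    exact add_le_add (mul_le_mul_of_nonneg_left (le_max_left _ _) ht')
      (mul_le_mul_of_nonneg_left (le_max_left _ _) ht0)
  rw [norm_factor hv] at key
  have h2 : ‖v‖ * ‖1 - (((1 - t : ℝ) : ℂ) * y + ((t : ℝ) : ℂ) * y') * v⁻¹‖ ≤
      ‖v‖ * Real.exp ((1 - t) * A0 + t * A1 + t * (1 - t) * D ^ 2 / (2 * ρ ^ 2)) := by
    refine (key.trans g).trans ?_
    conv_rhs => rw [← Real.exp_log hv0]
    rw [← Real.exp_add]
    apply Real.exp_le_exp.2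
    have b0 := mul_le_mul_of_nonneg_left l0 ht'
    have b1 := mul_le_mul_of_nonneg_left l1 ht0
    have : (1 - t) * (Real.log ‖v‖ + A0) + t * (Real.log ‖v‖ + A1) =
        Real.log ‖v‖ + ((1 - t) * A0 + t * A1) := by ring
    linarith
  exact le_of_mul_le_mul_left h2 hv0

/-! ## The mean version -/

/-- the exponent of a node: `V = -(h + γ m₁ + δ m₂)` -/
noncomputable def VV (γ δ h : ℝ) (m : ℂ) : ℝ := -(h + γ * m.re + δ * m.im)

/-- **`q` between two nodes** -/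
theorem NDual.qq_le {N : ℕ} (hN : 1 ≤ N) {w : Fin N → ℂ} {ω : ℂ}
    {x0 x1 R y1 y2 y1' y2' α γ δ h α' γ' δ' h' ρ t : ℝ} (hρ : 0 < ρ) (hx : x0 ≤ x1)
    (hD0 : NDual R y1 y2 α γ δ h ρ) (hD1 : NDual R y1' y2' α' γ' δ' h' ρ) (hω : ‖ω‖ = 1)
    (hy : (x0 : ℂ) * ω = ⟨y1, -y2⟩) (hy' : (x1 : ℂ) * ω = ⟨y1', -y2'⟩) (hw : ∀ k, 1 ≤ ‖w k‖)
    (ht : ∑ k, ‖w k - (R : ℂ)‖ ≤ N) (ht0 : 0 ≤ t) (ht1 : t ≤ 1) :
    ‖qq (ru w ω) ((1 - t) * x0 + t * x1)‖ ≤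
      Real.exp (N * ((1 - t) * VV γ δ h (av (uu w)) + t * VV γ' δ' h' (av (uu w)) +
        t * (1 - t) * (x1 - x0) ^ 2 / (2 * ρ ^ 2))) := by
  have ht' : 0 ≤ 1 - t := by linarith
  have hdist : ‖(⟨y1', -y2'⟩ : ℂ) - ⟨y1, -y2⟩‖ ≤ x1 - x0 := by
    rw [← hy, ← hy', ← sub_mul, norm_mul, hω, mul_one, ← Complex.ofReal_sub, Complex.norm_real,
      Real.norm_of_nonneg (by linarith)]
  have h1 : ‖qq (ru w ω) ((1 - t) * x0 + t * x1)‖ ≤
      Real.exp (∑ k, ((1 - t) * (α * (‖w k - R‖ - 1) - γ * (uu w k).re - δ * (uu w k).im - h) +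
        t * (α' * (‖w k - R‖ - 1) - γ' * (uu w k).re - δ' * (uu w k).im - h') +
        t * (1 - t) * (x1 - x0) ^ 2 / (2 * ρ ^ 2))) := by
    unfold qq ru
    rw [norm_prod, Real.exp_sum]
    apply Finset.prod_le_prod (fun _ _ => norm_nonneg _)
    intro k _
    have := NDual.between hρ hD0 hD1 hdist ht0 ht1 (hw k)
    refine le_trans (le_of_eq ?_) this
    congr 1
    rw [← hy, ← hy']
    simp only [uu]
    push_cast
    ring
  refine h1.trans (Real.exp_le_exp.2 ?_)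
  rw [Finset.sum_add_distrib, Finset.sum_add_distrib, ← Finset.mul_sum, ← Finset.mul_sum]
  have s0 := mul_le_mul_of_nonneg_left
    (ODual.sum_le (γ := γ) (δ := δ) (h := h) hN hD0.nonneg ht) ht'
  have s1 := mul_le_mul_of_nonneg_left
    (ODual.sum_le (γ := γ') (δ := δ') (h := h') hN hD1.nonneg ht) ht0
  simp only [Finset.sum_const, Finset.card_univ, Fintype.card_fin, nsmul_eq_mul]
  unfold VV
  have e : N * ((1 - t) * -(h + γ * (av (uu w)).re + δ * (av (uu w)).im) +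
      t * -(h' + γ' * (av (uu w)).re + δ' * (av (uu w)).im) +
      t * (1 - t) * (x1 - x0) ^ 2 / (2 * ρ ^ 2)) =
      (1 - t) * -(N * (h + γ * (av (uu w)).re + δ * (av (uu w)).im)) +
      t * -(N * (h' + γ' * (av (uu w)).re + δ' * (av (uu w)).im)) +
      N * (t * (1 - t) * (x1 - x0) ^ 2 / (2 * ρ ^ 2)) := by ring
  rw [e]
  linarith

end Pool.Agent.Lib.MP_af3a4a_an.P1.CHK.H39.Interp
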