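import Pool.Agent.Lib.MP_af3a4a_an.P1.CHK.H39.Interp
import Pool.Agent.Lib.MP_af3a4a_an.P1.CHK.Curve.Real
import Pool.Agent.Lib.MP_af3a4a_an.P1.CHK.H74.OffMain

set_option autoImplicit false

/-!
# Node duals: the integral over a half cell (council 2, helper39)
-/

namespace Pool.Agent.Lib.MP_af3a4a_an.P1.CHK.H39.Interp

open MeasureTheory intervalIntegral
open Pool.Agent.Lib.MP_af3a4a_an.SV (uu av)
open Pool.Agent.Lib.MP_af3a4a_an.P1.H80
open Pool.Agent.Lib.MP_af3a4a_an.P1.CHK.H74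
open Pool.Agent.Lib.MP_af3a4a_an.P1.CHK.Curve (trap)

/-- two node duals on the cell `[x0, x1]` in the direction `(c, s)` -/
structure NPair (R x0 x1 c s γ δ h γ' δ' h' ρ : ℝ) : Prop where
  pos : 0 < ρ
  ex0 : ∃ α, NDual R (x0 * c) (x0 * s) α γ δ h ρ
  ex1 : ∃ α, NDual R (x1 * c) (x1 * s) α γ' δ' h' ρ

/-- exponential of an affine function -/
noncomputable def fE (A B x0 x1 x : ℝ) : ℝ :=
  Real.exp ((1 - (x - x0) / (x1 - x0)) * A + (x - x0) / (x1 - x0) * B)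

theorem fE_cont (A B x0 x1 : ℝ) : Continuous (fE A B x0 x1) := by
  unfold fE
  fun_prop

theorem fE_convex {A B x0 x1 : ℝ} (h : x0 < x1) (s : Set ℝ) (hs : Convex ℝ s) :
    ConvexOn ℝ s (fE A B x0 x1) := by
  have hd : x1 - x0 ≠ 0 := by
    have : 0 < x1 - x0 := by linarith
    exact this.ne'
  refine ⟨hs, fun x _ y _ a b ha hb hab => ?_⟩
  unfold fE
  simp only [smul_eq_mul]
  have e := convexOn_exp.2 (Set.mem_univ ((1 - (x - x0) / (x1 - x0)) * A + (x - x0) / (x1 - x0) * B))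
    (Set.mem_univ ((1 - (y - x0) / (x1 - x0)) * A + (y - x0) / (x1 - x0) * B)) ha hb hab
  simp only [smul_eq_mul] at e
  refine le_trans (le_of_eq ?_) e
  congr 1
  have ha : a = 1 - b := by linarith
  rw [ha]
  field_simp
  ring

section npair

variable {N : ℕ} {w : Fin N → ℂ} {R x0 x1 θ γ δ h γ' δ' h' ρ η : ℝ}

/-- the bound at every point of the cell -/
theorem NPair.le (hN : 1 ≤ N) (hw : ∀ k, 1 ≤ ‖w k‖) (ht : ∑ k, ‖w k - (R : ℂ)‖ ≤ N)
    (H : NPair R x0 x1 (Real.cos θ) (Real.sin θ) γ δ h γ' δ' h' ρ) (hx : x0 < x1)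
    (hη : (x1 - x0) ^ 2 ≤ 8 * ρ ^ 2 * η) {x : ℝ} (h0 : x0 ≤ x) (h1 : x ≤ x1) :
    ‖qq (ru w (Complex.exp (-(θ : ℂ) * Complex.I))) x‖ ≤
      fE (-(N * (h + (γ * (av (uu w)).re + δ * (av (uu w)).im) - η)))
        (-(N * (h' + (γ' * (av (uu w)).re + δ' * (av (uu w)).im) - η))) x0 x1 x := by
  obtain ⟨hρ, ⟨α, ha⟩, ⟨α', ha'⟩⟩ := H
  have hd : 0 < x1 - x0 := by linarith
  obtain ⟨t, ht'⟩ : ∃ t, t = (x - x0) / (x1 - x0) := ⟨_, rfl⟩
  have ht0 : 0 ≤ t := by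
    rw [ht']
    exact div_nonneg (by linarith) hd.le
  have ht1 : t ≤ 1 := by
    rw [ht', div_le_one hd]
    linarith
  have hω : ‖Complex.exp (-(θ : ℂ) * Complex.I)‖ = 1 := by
    rw [← Complex.ofReal_neg]
    exact Complex.norm_exp_ofReal_mul_I _
  have key := NDual.qq_le hN hρ hx.le ha ha' hω (dir_eq _ _) (dir_eq _ _) hw ht ht0 ht1
  have ex : (1 - t) * x0 + t * x1 = x := by
    rw [ht']
    field_simp
    ring
  rw [ex] at key
  refine key.trans ?_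
  unfold fE VV
  rw [← ht']
  apply Real.exp_le_exp.2
  have h2 : t * (1 - t) * (x1 - x0) ^ 2 / (2 * ρ ^ 2) ≤ η := by
    rw [div_le_iff₀ (by positivity)]
    have h3 : t * (1 - t) ≤ 1 / 4 := by nlinarith [sq_nonneg (t - 1 / 2)]
    have h4 := mul_le_mul_of_nonneg_right h3 (sq_nonneg (x1 - x0))
    linarith
  have h5 : (N : ℝ) * (t * (1 - t) * (x1 - x0) ^ 2 / (2 * ρ ^ 2)) ≤ N * η :=
    mul_le_mul_of_nonneg_left h2 (Nat.cast_nonneg _)
  have e : (N : ℝ) * ((1 - t) * -(h + γ * (av (uu w)).re + δ * (av (uu w)).im) +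
      t * -(h' + γ' * (av (uu w)).re + δ' * (av (uu w)).im) +
      t * (1 - t) * (x1 - x0) ^ 2 / (2 * ρ ^ 2)) =
      (1 - t) * -(N * (h + (γ * (av (uu w)).re + δ * (av (uu w)).im) - η)) +
      t * -(N * (h' + (γ' * (av (uu w)).re + δ' * (av (uu w)).im) - η)) +
      (N * (t * (1 - t) * (x1 - x0) ^ 2 / (2 * ρ ^ 2)) - N * η) := by ring
  rw [e]
  linarith

/-- left half of the cell -/
theorem NPair.left (hN : 1 ≤ N) (hw : ∀ k, 1 ≤ ‖w k‖) (ht : ∑ k, ‖w k - (R : ℂ)‖ ≤ N)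
    (H : NPair R x0 x1 (Real.cos θ) (Real.sin θ) γ δ h γ' δ' h' ρ) (hx : x0 < x1)
    (hη : (x1 - x0) ^ 2 ≤ 8 * ρ ^ 2 * η) {E0 E1 : ℝ}
    (hE0 : Real.exp (-(N * (h + (γ * (av (uu w)).re + δ * (av (uu w)).im) - η))) ≤ E0)
    (hE1 : Real.exp (-(N * ((h + h') / 2 + ((γ + γ') / 2 * (av (uu w)).re +
      (δ + δ') / 2 * (av (uu w)).im) - η))) ≤ E1) :
    ‖∫ x in x0..(x0 + x1) / 2, qq (ru w (Complex.exp (-(θ : ℂ) * Complex.I))) x‖ ≤
      (x1 - x0) / 4 * (E0 + E1) := by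
  obtain ⟨A, hA⟩ : ∃ A, A = -(N * (h + (γ * (av (uu w)).re + δ * (av (uu w)).im) - η)) := ⟨_, rfl⟩
  obtain ⟨B, hB⟩ : ∃ B, B = -(N * (h' + (γ' * (av (uu w)).re + δ' * (av (uu w)).im) - η)) :=
    ⟨_, rfl⟩
  have hm1 : x0 < (x0 + x1) / 2 := by linarith
  have hd : x1 - x0 ≠ 0 := by
    have : 0 < x1 - x0 := by linarith
    exact this.ne'
  have h1 := norm_integral_le_of_norm_le hm1.le (μ := volume)
    (f := fun x => qq (ru w (Complex.exp (-(θ : ℂ) * Complex.I))) x)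
    (g := fE A B x0 x1)
    (Filter.Eventually.of_forall fun x hx' => by
      rw [hA, hB]
      exact H.le hN hw ht hx hη hx'.1.le (hx'.2.trans (by linarith)))
    ((fE_cont _ _ _ _).intervalIntegrable _ _)
  refine h1.trans ?_
  have hc := fE_convex (A := A) (B := B) hx (Set.Icc x0 x1) (convex_Icc _ _)
  have h2 := trap hc ⟨le_rfl, hx.le⟩ ⟨hm1.le, by linarith⟩ hm1 (fE_cont _ _ _ _).continuousOn
  refine h2.trans ?_
  have v0 : fE A B x0 x1 x0 ≤ E0 := by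
    refine le_trans (le_of_eq ?_) hE0
    rw [← hA]
    unfold fE
    rw [sub_self, zero_div]
    congr 1
    ring
  have v1 : fE A B x0 x1 ((x0 + x1) / 2) ≤ E1 := by
    refine le_trans (le_of_eq ?_) hE1
    unfold fE
    have : ((x0 + x1) / 2 - x0) / (x1 - x0) = 1 / 2 := by
      field_simp
      ring
    rw [this, hA, hB]
    congr 1
    ring
  have h4 : 0 ≤ (x1 - x0) / 4 := by linarith
  have h5 := mul_le_mul_of_nonneg_left (add_le_add v0 v1) h4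
  refine le_trans (le_of_eq ?_) h5
  ring

/-- right half of the cell -/
theorem NPair.right (hN : 1 ≤ N) (hw : ∀ k, 1 ≤ ‖w k‖) (ht : ∑ k, ‖w k - (R : ℂ)‖ ≤ N)
    (H : NPair R x0 x1 (Real.cos θ) (Real.sin θ) γ δ h γ' δ' h' ρ) (hx : x0 < x1)
    (hη : (x1 - x0) ^ 2 ≤ 8 * ρ ^ 2 * η) {E1 E2 : ℝ}
    (hE1 : Real.exp (-(N * ((h + h') / 2 + ((γ + γ') / 2 * (av (uu w)).re +
      (δ + δ') / 2 * (av (uu w)).im) - η))) ≤ E1)
    (hE2 : Real.exp (-(N * (h' + (γ' * (av (uu w)).re + δ' * (av (uu w)).im) - η))) ≤ E2) :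
    ‖∫ x in (x0 + x1) / 2..x1, qq (ru w (Complex.exp (-(θ : ℂ) * Complex.I))) x‖ ≤
      (x1 - x0) / 4 * (E1 + E2) := by
  obtain ⟨A, hA⟩ : ∃ A, A = -(N * (h + (γ * (av (uu w)).re + δ * (av (uu w)).im) - η)) := ⟨_, rfl⟩
  obtain ⟨B, hB⟩ : ∃ B, B = -(N * (h' + (γ' * (av (uu w)).re + δ' * (av (uu w)).im) - η)) :=
    ⟨_, rfl⟩
  have hm1 : (x0 + x1) / 2 < x1 := by linarith
  have hd : x1 - x0 ≠ 0 := by
    have : 0 < x1 - x0 := by linarith
    exact this.ne'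
  have h1 := norm_integral_le_of_norm_le hm1.le (μ := volume)
    (f := fun x => qq (ru w (Complex.exp (-(θ : ℂ) * Complex.I))) x)
    (g := fE A B x0 x1)
    (Filter.Eventually.of_forall fun x hx' => by
      rw [hA, hB]
      exact H.le hN hw ht hx hη (le_trans (by linarith) hx'.1.le) hx'.2)
    ((fE_cont _ _ _ _).intervalIntegrable _ _)
  refine h1.trans ?_
  have hc := fE_convex (A := A) (B := B) hx (Set.Icc x0 x1) (convex_Icc _ _)
  have h2 := trap hc ⟨by linarith, hm1.le⟩ ⟨hx.le, le_rfl⟩ hm1 (fE_cont _ _ _ _).continuousOn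
  refine h2.trans ?_
  have v1 : fE A B x0 x1 ((x0 + x1) / 2) ≤ E1 := by
    refine le_trans (le_of_eq ?_) hE1
    unfold fE
    have : ((x0 + x1) / 2 - x0) / (x1 - x0) = 1 / 2 := by
      field_simp
      ring
    rw [this, hA, hB]
    congr 1
    ring
  have v2 : fE A B x0 x1 x1 ≤ E2 := by
    refine le_trans (le_of_eq ?_) hE2
    rw [← hB]
    unfold fE
    rw [div_self hd]
    congr 1
    ring
  have h4 : 0 ≤ (x1 - x0) / 4 := by linarith
  have h5 := mul_le_mul_of_nonneg_left (add_le_add v1 v2) h4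
  refine le_trans (le_of_eq ?_) h5
  ring

end npair

end Pool.Agent.Lib.MP_af3a4a_an.P1.CHK.H39.Interp
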