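import Pool.Agent.Lib.MP_af3a4a_an.P1.CHK.H39.TabS

/-!
# Lines (helper39, council 2)
-/

set_option autoImplicit false

namespace Pool.Agent.Lib.MP_af3a4a_an.P1.CHK.H39.TabS

open Pool.Agent.Lib.MP_af3a4a_an.SV (uu av)
open Pool.Agent.Lib.MP_af3a4a_an.P1.H80

/-- the entries of the line `c` -/
def lnL (c : ℕ) : List (ℕ × ℕ) → List (ℕ × ℕ × ℕ × ℕ)
  | [] => []
  | (X, g) :: r => (X, c, g, 0) :: lnL c r

theorem mem_lnL {c X g : ℕ} : ∀ {l : List (ℕ × ℕ)}, (X, g) ∈ l → (X, c, g, 0) ∈ lnL c l := by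
  intro l
  induction l with
  | nil => intro h; simp at h
  | cons q r ih =>
    intro h
    obtain ⟨X', g'⟩ := q
    unfold lnL
    rcases List.mem_cons.1 h with e | e
    · rw [Prod.mk.injEq] at e
      rw [e.1, e.2]
      exact List.mem_cons_self
    · exact List.mem_cons_of_mem _ (ih e)

theorem lnL_sound {M D r0 r1 X0 c0 lend c : ℕ} {n0 : Nd} {l : List (ℕ × ℕ)}
    {rows : List (Nd × ℕ × ℕ)}
    (hc : tabSOK M D r0 r1 0 1024 X0 n0 c0 lend (lnL c l) rows = true)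
    {R : ℝ} (hr0 : (r0 : ℝ) / M ≤ R) (hr1 : R ≤ (r1 : ℝ) / M) (hR : 0 < R) {N : ℕ} (hN : 1 ≤ N)
    {w : Fin N → ℂ} (hw : ∀ k, 1 ≤ ‖w k‖) (ht : ∑ k, ‖w k - (R : ℂ)‖ ≤ N) :
    ∀ q ∈ l, ∀ x ∈ Set.Icc ((X0 : ℝ) / 1024) ((q.1 : ℝ) / 1024),
      ‖qq (uu w) x‖ ≤ Real.exp (-(N * ((c : ℝ) / 1024 * x ^ 2 / max 1 R +
        (q.2 : ℝ) / 1024 * x * (av (uu w)).re))) := by
  rintro ⟨X, g⟩ hq x ⟨h0, h1⟩
  exact tabL_sound hc hr0 hr1 hR hN hw ht (mem_lnL hq) h0 h1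

end Pool.Agent.Lib.MP_af3a4a_an.P1.CHK.H39.TabS
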