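import Pool.Agent.Lib.MP_af3a4a_an.P1.CHK.H58.Bridge

/-!
# Pair duals (helper39, council 2)

A dual `(α, γ, h)` valid at two nodes `x₀ ≤ x₁` is valid between them, because `|1 - x u|` is
convex in `x`. Chains of pair duals give bounds of `|q|` on whole intervals.
-/

set_option autoImplicit false

namespace Pool.Agent.Lib.MP_af3a4a_an.P1.CHK.H39

open Pool.Agent.Lib.MP_af3a4a_an.SV (uu av)
open Pool.Agent.Lib.MP_af3a4a_an.P1.H74 Pool.Agent.Lib.MP_af3a4a_an.P1.H80
open Pool.Agent.Lib.MP_af3a4a_an.P1.CHK.H58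

theorem dual_between {R x0 x1 x α γ h : ℝ} (h0 : Dual R x0 α γ h) (h1 : Dual R x1 α γ h)
    (hx0 : x0 ≤ x) (hx1 : x ≤ x1) : Dual R x α γ h := by
  refine ⟨h0.nonneg, fun v hv => ?_⟩
  rcases eq_or_lt_of_le (hx0.trans hx1) with h | h
  · have e : x = x0 := by linarith only [hx0, hx1, h]
    rw [e]
    exact h0.le v hv
  · have hd : 0 < x1 - x0 := by linarith only [h]
    obtain ⟨t, ht⟩ : ∃ t, t = (x - x0) / (x1 - x0) := ⟨_, rfl⟩
    have ht0 : 0 ≤ t := by
      rw [ht]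
      exact div_nonneg (by linarith only [hx0]) hd.le
    have ht1 : t ≤ 1 := by
      rw [ht, div_le_one hd]
      linarith only [hx1]
    have hx : x = (1 - t) * x0 + t * x1 := by
      rw [ht]
      field_simp
      ring
    have e : 1 - (x : ℂ) * v⁻¹ = ((1 - t : ℝ) : ℂ) * (1 - (x0 : ℂ) * v⁻¹) +
        ((t : ℝ) : ℂ) * (1 - (x1 : ℂ) * v⁻¹) := by
      rw [hx]
      push_cast
      ring
    rw [e]
    refine (norm_add_le _ _).trans ?_
    rw [norm_mul, norm_mul, Complex.norm_real, Complex.norm_real,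
      Real.norm_of_nonneg (by linarith only [ht1] : (0 : ℝ) ≤ 1 - t), Real.norm_of_nonneg ht0]
    have a0 := mul_le_mul_of_nonneg_left (h0.le v hv) (by linarith only [ht1] : (0 : ℝ) ≤ 1 - t)
    have a1 := mul_le_mul_of_nonneg_left (h1.le v hv) ht0
    linarith only [a0, a1]

/-- Rows `(l', a, h, c₀, c₁)` of a chain that starts at `l`: the pure `t` dual with multiplier
`a / S` and value `h / S` is certified at `l / D` and at `l' / D`. -/
def chain (M D r0 r1 : ℕ) (need : ℕ → ℕ → ℕ → Bool) (lend : ℕ) :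
    ℕ → List (ℕ × ℕ × ℕ × ℕ × ℕ) → Bool
  | l, [] => Nat.ble lend l
  | l, (l', a, h, c0, c1) :: rest =>
    (chk M D l r0 r1 a 0 0 h 0 c0 && chk M D l' r0 r1 a 0 0 h 0 c1) &&
      (need l l' h && chain M D r0 r1 need lend l' rest)

theorem chain_sound {M D r0 r1 : ℕ} {need : ℕ → ℕ → ℕ → Bool} {lend : ℕ} :
    ∀ (rows : List (ℕ × ℕ × ℕ × ℕ × ℕ)) (l : ℕ), chain M D r0 r1 need lend l rows = true →
    ∀ R : ℝ, (r0 : ℝ) / M ≤ R → R ≤ (r1 : ℝ) / M → ∀ x : ℝ, (l : ℝ) / D * R < x →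
      x ≤ (lend : ℝ) / D * R →
      ∃ l1 l2 a h : ℕ, need l1 l2 h = true ∧ (l1 : ℝ) / D * R < x ∧ x ≤ (l2 : ℝ) / D * R ∧
        Dual R x ((a : ℝ) / S) 0 ((h : ℝ) / S) := by
  intro rows
  induction rows with
  | nil =>
    intro l hl R h0 h1 x hx hx2
    unfold chain at hl
    have h2 : lend ≤ l := Nat.le_of_ble_eq_true hl
    have hR0 : 0 ≤ R := le_trans (by positivity) h0
    have h3 : (lend : ℝ) / D * R ≤ (l : ℝ) / D * R := by
      apply mul_le_mul_of_nonneg_right _ hR0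
      apply div_le_div_of_nonneg_right _ (Nat.cast_nonneg D)
      exact_mod_cast h2
    linarith only [hx, hx2, h3]
  | cons row rest ih =>
    intro l hl R h0 h1 x hx hx2
    obtain ⟨l', a, h, c0, c1⟩ := row
    unfold chain at hl
    simp only [Bool.and_eq_true] at hl
    obtain ⟨⟨k0, k1⟩, k2, k3⟩ := hl
    rcases le_or_gt x ((l' : ℝ) / D * R) with h4 | h4
    · refine ⟨l, l', a, h, k2, hx, h4, ?_⟩
      have d0 := chk_dual k0 h0 h1
      have d1 := chk_dual k1 h0 h1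
      simp only [Nat.cast_zero, sub_zero, zero_div] at d0 d1
      exact dual_between d0 d1 hx.le h4
    · exact ih l' k3 R h0 h1 x h4 hx2

/-- the requirement: `h ≥ 2 x² / 11` (rows that contain points `x < 1`) or `h ≥ x² / 8`,
below `lA`; `h ≥ 1 / 40` above `lA` -/
def needT (M D r0 r1 lA l l' h : ℕ) : Bool :=
  bif Nat.blt l lA then
    Nat.ble l' lA && (Nat.ble (S * (l' * r1) * (l' * r1)) (8 * h * (D * M) * (D * M)) &&
      (Nat.ble (D * M) (l * r0) ||
        Nat.ble (2 * S * (l' * r1) * (l' * r1)) (11 * h * (D * M) * (D * M))))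
  else Nat.ble S (40 * h)

/-- one `R`-cell -/
def cellT (M D r0 r1 l0 lA lB : ℕ) (rows : List (ℕ × ℕ × ℕ × ℕ × ℕ)) : Bool :=
  (Nat.blt 0 M && (Nat.blt 0 D && (Nat.ble lA D && Nat.ble lB D))) &&
  ((Nat.blt (l0 * r1 * 20) (7 * D * M) && (Nat.ble (r1 * (D - lA) * 200) (77 * D * M) &&
    Nat.ble (r1 * (D - lB) * 20) (3 * D * M))) &&
    chain M D r0 r1 (needT M D r0 r1 lA) lB l0 rows)

theorem S_pos : (0 : ℝ) < S := by
  rw [S_cast]
  norm_num

theorem cellT_sound {M D r0 r1 l0 lA lB : ℕ} {rows : List (ℕ × ℕ × ℕ × ℕ × ℕ)}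
    (hc : cellT M D r0 r1 l0 lA lB rows = true) {R : ℝ} (h0 : (r0 : ℝ) / M ≤ R)
    (h1 : R ≤ (r1 : ℝ) / M) (h8 : 4 / 5 ≤ R) {N : ℕ} (hN : 1 ≤ N) {w : Fin N → ℂ} (hw : ∀ k, 1 ≤ ‖w k‖)
    (ht : ∑ k, ‖w k - (R : ℂ)‖ ≤ N) {x : ℝ} (hx0 : 7 / 20 ≤ x) (hx1 : x ≤ R - 3 / 20) :
    (x ≤ R - 77 / 200 → ‖qq (uu w) x‖ ≤ Real.exp (-(N * (x ^ 2 / 8))) ∧
      (x ≤ 1 → ‖qq (uu w) x‖ ≤ Real.exp (-(N * (2 * x ^ 2 / 11))))) ∧
    (R - 77 / 200 ≤ x → ‖qq (uu w) x‖ ≤ Real.exp (-(N * (1 / 40)))) := by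
  unfold cellT at hc
  simp only [Bool.and_eq_true] at hc
  obtain ⟨⟨c1, c2, c3, c4⟩, ⟨c5, c6, c7⟩, c8⟩ := hc
  have c1 : 0 < M := Nat.blt_eq.mp c1
  have c2 : 0 < D := Nat.blt_eq.mp c2
  have c3 := Nat.le_of_ble_eq_true c3
  have c4 := Nat.le_of_ble_eq_true c4
  have c5 : l0 * r1 * 20 < 7 * D * M := Nat.blt_eq.mp c5
  have c6 := Nat.le_of_ble_eq_true c6
  have c7 := Nat.le_of_ble_eq_true c7
  have hM : (0 : ℝ) < M := by exact_mod_cast c1
  have hD : (0 : ℝ) < D := by exact_mod_cast c2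
  have hR0 : 0 ≤ R := le_trans (by positivity) h0
  have hNp : (0 : ℝ) < N := by exact_mod_cast hN
  have hl0 : (l0 : ℝ) / D * R < x := by
    have e : (l0 : ℝ) / D * R ≤ (l0 : ℝ) / D * (r1 / M) :=
      mul_le_mul_of_nonneg_left h1 (by positivity)
    have e2 : (l0 : ℝ) / D * (r1 / M) < 7 / 20 := by
      rw [div_mul_div_comm, div_lt_div_iff₀ (by positivity) (by norm_num)]
      have : ((l0 * r1 * 20 : ℕ) : ℝ) < ((7 * D * M : ℕ) : ℝ) := by exact_mod_cast c5
      push_cast at this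
      linarith only [this]
    linarith only [hx0, e, e2]
  have key : ∀ {l : ℕ} {a b : ℕ}, l ≤ D → 0 < b → r1 * (D - l) * b ≤ a * D * M →
      R - (a : ℝ) / b ≤ (l : ℝ) / D * R := by
    intro l a b hl hb h
    have hb' : (0 : ℝ) < b := by exact_mod_cast hb
    have h2 : ((r1 * (D - l) * b : ℕ) : ℝ) ≤ ((a * D * M : ℕ) : ℝ) := by exact_mod_cast h
    push_cast [Nat.cast_sub hl] at h2
    have hl' : (l : ℝ) ≤ D := by exact_mod_cast hl
    have h3 : (r1 : ℝ) / M * (((D : ℝ) - l) / D) ≤ (a : ℝ) / b := by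
      rw [div_mul_div_comm, div_le_div_iff₀ (by positivity) hb']
      linarith only [h2]
    have h4 : R * (((D : ℝ) - l) / D) ≤ (r1 : ℝ) / M * (((D : ℝ) - l) / D) :=
      mul_le_mul_of_nonneg_right h1 (div_nonneg (by linarith only [hl']) hD.le)
    have h5 : R * (((D : ℝ) - l) / D) = R - (l : ℝ) / D * R := by
      field_simp
    linarith only [h3, h4, h5]
  have kA := key c3 (by norm_num) c6
  have kB := key c4 (by norm_num) c7
  push_cast at kA kB
  obtain ⟨l1, l2, a, h, g1, g2, g3, g4⟩ := chain_sound rows l0 c8 R h0 h1 x hl0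
    (hx1.trans (by linarith only [kB]))
  have hq := g4.qq_le hN hw ht
  rw [zero_mul, zero_mul, add_zero] at hq
  -- the two kinds of rows
  have hSp := S_pos
  have hx00 : 0 < x := by linarith only [hx0]
  have hxl : x ≤ ((l2 : ℝ) * r1) / (D * M) := by
    refine g3.trans ?_
    rw [mul_div_mul_comm]
    exact mul_le_mul_of_nonneg_left h1 (by positivity)
  have hxl2 : x ^ 2 ≤ (((l2 : ℝ) * r1) / (D * M)) ^ 2 := pow_le_pow_left₀ hx00.le hxl 2
  unfold needT at g1
  by_cases hlA : l1 < lA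
  · have hb : Nat.blt l1 lA = true := Nat.blt_eq.mpr hlA
    rw [hb, cond_true] at g1
    simp only [Bool.and_eq_true, Bool.or_eq_true] at g1
    obtain ⟨e1, e2, e3⟩ := g1
    have e1 := Nat.le_of_ble_eq_true e1
    have e2 := Nat.le_of_ble_eq_true e2
    have e2' : ((S * (l2 * r1) * (l2 * r1) : ℕ) : ℝ) ≤ ((8 * h * (D * M) * (D * M) : ℕ) : ℝ) := by
      exact_mod_cast e2
    push_cast at e2'
    have f2 : x ^ 2 / 8 ≤ (h : ℝ) / S := by
      have : (((l2 : ℝ) * r1) / (D * M)) ^ 2 / 8 ≤ (h : ℝ) / S := by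
        rw [div_pow, div_div, div_le_div_iff₀ (by positivity) hSp]
        linarith only [e2']
      linarith only [hxl2, this]
    refine ⟨fun _ => ⟨hq.trans (Real.exp_le_exp.2 ?_), fun hx1' => ?_⟩, fun hxx => ?_⟩
    · rw [neg_le_neg_iff]
      exact mul_le_mul_of_nonneg_left f2 hNp.le
    · have f3 : 2 * x ^ 2 / 11 ≤ (h : ℝ) / S := by
        rcases e3 with e3 | e3
        · exfalso
          have e3 := Nat.le_of_ble_eq_true e3
          have e3' : ((D * M : ℕ) : ℝ) ≤ ((l1 * r0 : ℕ) : ℝ) := by exact_mod_cast e3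
          push_cast at e3'
          have : (1 : ℝ) ≤ (l1 : ℝ) / D * R := by
            calc (1 : ℝ) ≤ (l1 : ℝ) / D * (r0 / M) := by
                  rw [div_mul_div_comm, le_div_iff₀ (by positivity)]
                  linarith only [e3']
              _ ≤ (l1 : ℝ) / D * R := mul_le_mul_of_nonneg_left h0 (by positivity)
          linarith only [g2, hx1', this]
        · have e3 := Nat.le_of_ble_eq_true e3
          have e3' : ((2 * S * (l2 * r1) * (l2 * r1) : ℕ) : ℝ) ≤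
              ((11 * h * (D * M) * (D * M) : ℕ) : ℝ) := by exact_mod_cast e3
          push_cast at e3'
          have : 2 * (((l2 : ℝ) * r1) / (D * M)) ^ 2 / 11 ≤ (h : ℝ) / S := by
            rw [div_pow, ← mul_div_assoc, div_div, div_le_div_iff₀ (by positivity) hSp]
            linarith only [e3']
          linarith only [hxl2, this]
      refine hq.trans (Real.exp_le_exp.2 ?_)
      rw [neg_le_neg_iff]
      exact mul_le_mul_of_nonneg_left f3 hNp.le
    · -- `x ≥ 83/200` so `h ≥ 2 x² / 11 ≥ 1 / 40` unless `x > 1`, then `h ≥ x² / 8`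
      refine hq.trans (Real.exp_le_exp.2 ?_)
      rw [neg_le_neg_iff]
      apply mul_le_mul_of_nonneg_left _ hNp.le
      rcases e3 with e3 | e3
      · have e3 := Nat.le_of_ble_eq_true e3
        have e3' : ((D * M : ℕ) : ℝ) ≤ ((l1 * r0 : ℕ) : ℝ) := by exact_mod_cast e3
        push_cast at e3'
        have : (1 : ℝ) ≤ (l1 : ℝ) / D * R := by
          calc (1 : ℝ) ≤ (l1 : ℝ) / D * (r0 / M) := by
                rw [div_mul_div_comm, le_div_iff₀ (by positivity)]
                linarith only [e3']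
            _ ≤ (l1 : ℝ) / D * R := mul_le_mul_of_nonneg_left h0 (by positivity)
        have hx1' : 1 < x := lt_of_le_of_lt this g2
        have hx2' : 1 ≤ x ^ 2 := one_le_pow₀ hx1'.le
        linarith only [f2, hx2']
      · have e3 := Nat.le_of_ble_eq_true e3
        have e3' : ((2 * S * (l2 * r1) * (l2 * r1) : ℕ) : ℝ) ≤
            ((11 * h * (D * M) * (D * M) : ℕ) : ℝ) := by exact_mod_cast e3
        push_cast at e3'
        have : 2 * (((l2 : ℝ) * r1) / (D * M)) ^ 2 / 11 ≤ (h : ℝ) / S := by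
          rw [div_pow, ← mul_div_assoc, div_div, div_le_div_iff₀ (by positivity) hSp]
          linarith only [e3']
        have hx2' : (83 / 200 : ℝ) ^ 2 ≤ x ^ 2 :=
          pow_le_pow_left₀ (by norm_num) (by linarith only [h8, hxx]) 2
        linarith only [hxl2, this, hx2']
  · have hb : Nat.blt l1 lA = false := by
      rw [Bool.eq_false_iff, ne_eq, Nat.blt_eq]
      exact hlA
    rw [hb, cond_false] at g1
    have e1 := Nat.le_of_ble_eq_true g1
    have e1' : ((S : ℕ) : ℝ) ≤ ((40 * h : ℕ) : ℝ) := by exact_mod_cast e1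
    push_cast at e1'
    have hx3 : R - 77 / 200 < x := by
      have : (lA : ℝ) / D * R ≤ (l1 : ℝ) / D * R := by
        apply mul_le_mul_of_nonneg_right _ hR0
        apply div_le_div_of_nonneg_right _ hD.le
        exact_mod_cast (not_lt.1 hlA)
      linarith only [kA, g2, this]
    refine ⟨fun hh => absurd hh (not_le.2 hx3), fun _ => hq.trans (Real.exp_le_exp.2 ?_)⟩
    rw [neg_le_neg_iff]
    apply mul_le_mul_of_nonneg_left _ hNp.le
    rw [div_le_div_iff₀ (by norm_num) hSp]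
    linarith only [e1']

end Pool.Agent.Lib.MP_af3a4a_an.P1.CHK.H39
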