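import Pool.Agent.Lib.MP_af3a4a_an.P1.CHK.H39.Pt3A
import Pool.Agent.Lib.MP_af3a4a_an.P1.CHK.H39.Pt3B

/-!
# Pure tables `pt` (form `TabS`, slopes `0`), `13 / 20 ≤ R ≤ 4 / 5` (helper39, council 2)

`(X, c, 0, 0) ∈ pt…`: `|q(x)| ≤ exp(-N (c / 1024) x² / max 1 R)` for `82 / 1024 ≤ x ≤ X / 1024`.
-/

/-! The parts are in the imported files (split by helper88 for the build time only). -/
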