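import Pool.Agent.Lib.MP_af3a4a_an.P1.CHK.H39.TabS

/-!
# Pure tables in the form of `TabS` (helper39, council 2)
-/

set_option autoImplicit false

namespace Pool.Agent.Lib.MP_af3a4a_an.P1.CHK.H39.TabS

open Pool.Agent.Lib.MP_af3a4a_an.SV (uu av)
open Pool.Agent.Lib.MP_af3a4a_an.P1.H80

/-- all slopes are zero -/
def pureL : List (ℕ × ℕ × ℕ × ℕ) → Bool
  | [] => true
  | (_, _, g, k) :: r => (Nat.beq g 0 && Nat.beq k 0) && pureL r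

theorem pureL_mem : ∀ {l : List (ℕ × ℕ × ℕ × ℕ)}, pureL l = true → ∀ {X c g k : ℕ},
    (X, c, g, k) ∈ l → g = 0 ∧ k = 0 := by
  intro l
  induction l with
  | nil => intro _ X c g k h; simp at h
  | cons q r ih =>
    intro h X c g k hm
    obtain ⟨X', c', g', k'⟩ := q
    unfold pureL at h
    simp only [Bool.and_eq_true] at h
    rcases List.mem_cons.1 hm with e | e
    · rw [Prod.mk.injEq, Prod.mk.injEq, Prod.mk.injEq] at e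
      rw [e.2.2.1, e.2.2.2]
      exact ⟨Nat.eq_of_beq_eq_true h.1.1, Nat.eq_of_beq_eq_true h.1.2⟩
    · exact ih h.2 e

theorem pt_sound {M D r0 r1 X0 c0 lend : ℕ} {n0 : Nd} {l : List (ℕ × ℕ × ℕ × ℕ)}
    {rows : List (Nd × ℕ × ℕ)}
    (hc : tabSOK M D r0 r1 0 1024 X0 n0 c0 lend l rows = true) (hp : pureL l = true)
    {R : ℝ} (hr0 : (r0 : ℝ) / M ≤ R) (hr1 : R ≤ (r1 : ℝ) / M) (hR : 0 < R) {N : ℕ} (hN : 1 ≤ N)
    {w : Fin N → ℂ} (hw : ∀ k, 1 ≤ ‖w k‖) (ht : ∑ k, ‖w k - (R : ℂ)‖ ≤ N) :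
    ∀ q ∈ l, ∀ x ∈ Set.Icc ((X0 : ℝ) / 1024) ((q.1 : ℝ) / 1024),
      ‖qq (uu w) x‖ ≤ Real.exp (-(N * ((q.2.1 : ℝ) / 1024 * x ^ 2 / max 1 R))) := by
  rintro ⟨X, c, g, k⟩ hq x ⟨h0, h1⟩
  obtain ⟨rfl, rfl⟩ := pureL_mem hp hq
  have := tabL_sound hc hr0 hr1 hR hN hw ht hq h0 h1
  refine this.trans (le_of_eq ?_)
  congr 2
  simp

end Pool.Agent.Lib.MP_af3a4a_an.P1.CHK.H39.TabS
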