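import Pool.Agent.Lib.MP_af3a4a_an.P1.CHK.H39.PureT15A
import Pool.Agent.Lib.MP_af3a4a_an.P1.CHK.H39.PureT15B
import Pool.Agent.Lib.MP_af3a4a_an.P1.CHK.H39.PureT15C
import Pool.Agent.Lib.MP_af3a4a_an.P1.CHK.H39.PureT15D

/-!
# Pure `t` bounds of `|q|` for `21/20 ≤ R ≤ 21/10`, second table (helper39, council 2)

`|q(x)| ≤ exp(-N/15)` for `R - 77/200 ≤ x ≤ R - 3/20`, and `|q(x)| ≤ exp(-N x²/5)` for
`2/5 ≤ x ≤ 1`, `x ≤ R - 77/200`.
-/

set_option autoImplicit false

namespace Pool.Agent.Lib.MP_af3a4a_an.P1.CHK.H39

open Pool.Agent.Lib.MP_af3a4a_an.SV (uu av)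
open Pool.Agent.Lib.MP_af3a4a_an.P1.H74 Pool.Agent.Lib.MP_af3a4a_an.P1.H80
open Pool.Agent.Lib.MP_af3a4a_an.P1.CHK.H58

/-- **pure `t` bound `exp(-N/15)` near the end** -/
theorem pure_t15 {R : ℝ} (hR0 : 21 / 20 ≤ R) (hR1 : R ≤ 21 / 10) {N : ℕ} (hN : 1 ≤ N)
    {w : Fin N → ℂ} (hw : ∀ k, 1 ≤ ‖w k‖) (ht : ∑ k, ‖w k - (R : ℂ)‖ ≤ N) {x : ℝ}
    (hx0 : R - 77 / 200 ≤ x) (hx1 : x ≤ R - 3 / 20) :
    ‖qq (uu w) x‖ ≤ Real.exp (-(N * (1 / 15))) := by
  rcases le_or_gt R (1100 / 1000) with h | h1100
  · exact_mod_cast cellE_sound v1050 (by push_cast; linarith only [hR0]) (by push_cast; linarith only [h]) hN hw ht hx0 hx1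
  rcases le_or_gt R (1150 / 1000) with h | h1150
  · exact_mod_cast cellE_sound v1100 (by push_cast; linarith only [h1100]) (by push_cast; linarith only [h]) hN hw ht hx0 hx1
  rcases le_or_gt R (1200 / 1000) with h | h1200
  · exact_mod_cast cellE_sound v1150 (by push_cast; linarith only [h1150]) (by push_cast; linarith only [h]) hN hw ht hx0 hx1
  rcases le_or_gt R (1250 / 1000) with h | h1250
  · exact_mod_cast cellE_sound v1200 (by push_cast; linarith only [h1200]) (by push_cast; linarith only [h]) hN hw ht hx0 hx1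
  rcases le_or_gt R (1300 / 1000) with h | h1300
  · exact_mod_cast cellE_sound v1250 (by push_cast; linarith only [h1250]) (by push_cast; linarith only [h]) hN hw ht hx0 hx1
  rcases le_or_gt R (1350 / 1000) with h | h1350
  · exact_mod_cast cellE_sound v1300 (by push_cast; linarith only [h1300]) (by push_cast; linarith only [h]) hN hw ht hx0 hx1
  rcases le_or_gt R (1400 / 1000) with h | h1400
  · exact_mod_cast cellE_sound v1350 (by push_cast; linarith only [h1350]) (by push_cast; linarith only [h]) hN hw ht hx0 hx1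
  rcases le_or_gt R (1450 / 1000) with h | h1450
  · exact_mod_cast cellE_sound v1400 (by push_cast; linarith only [h1400]) (by push_cast; linarith only [h]) hN hw ht hx0 hx1
  rcases le_or_gt R (1500 / 1000) with h | h1500
  · exact_mod_cast cellE_sound v1450 (by push_cast; linarith only [h1450]) (by push_cast; linarith only [h]) hN hw ht hx0 hx1
  rcases le_or_gt R (1550 / 1000) with h | h1550
  · exact_mod_cast cellE_sound v1500 (by push_cast; linarith only [h1500]) (by push_cast; linarith only [h]) hN hw ht hx0 hx1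
  rcases le_or_gt R (1600 / 1000) with h | h1600
  · exact_mod_cast cellE_sound v1550 (by push_cast; linarith only [h1550]) (by push_cast; linarith only [h]) hN hw ht hx0 hx1
  rcases le_or_gt R (1650 / 1000) with h | h1650
  · exact_mod_cast cellE_sound v1600 (by push_cast; linarith only [h1600]) (by push_cast; linarith only [h]) hN hw ht hx0 hx1
  rcases le_or_gt R (1700 / 1000) with h | h1700
  · exact_mod_cast cellE_sound v1650 (by push_cast; linarith only [h1650]) (by push_cast; linarith only [h]) hN hw ht hx0 hx1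
  rcases le_or_gt R (1750 / 1000) with h | h1750
  · exact_mod_cast cellE_sound v1700 (by push_cast; linarith only [h1700]) (by push_cast; linarith only [h]) hN hw ht hx0 hx1
  rcases le_or_gt R (1800 / 1000) with h | h1800
  · exact_mod_cast cellE_sound v1750 (by push_cast; linarith only [h1750]) (by push_cast; linarith only [h]) hN hw ht hx0 hx1
  rcases le_or_gt R (1850 / 1000) with h | h1850
  · exact_mod_cast cellE_sound v1800 (by push_cast; linarith only [h1800]) (by push_cast; linarith only [h]) hN hw ht hx0 hx1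
  rcases le_or_gt R (1900 / 1000) with h | h1900
  · exact_mod_cast cellE_sound v1850 (by push_cast; linarith only [h1850]) (by push_cast; linarith only [h]) hN hw ht hx0 hx1
  rcases le_or_gt R (1950 / 1000) with h | h1950
  · exact_mod_cast cellE_sound v1900 (by push_cast; linarith only [h1900]) (by push_cast; linarith only [h]) hN hw ht hx0 hx1
  rcases le_or_gt R (2000 / 1000) with h | h2000
  · exact_mod_cast cellE_sound v1950 (by push_cast; linarith only [h1950]) (by push_cast; linarith only [h]) hN hw ht hx0 hx1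
  rcases le_or_gt R (2050 / 1000) with h | h2050
  · exact_mod_cast cellE_sound v2000 (by push_cast; linarith only [h2000]) (by push_cast; linarith only [h]) hN hw ht hx0 hx1
  exact_mod_cast cellE_sound v2050 (by push_cast; linarith only [h2050]) (by push_cast; linarith only [hR1]) hN hw ht hx0 hx1

/-- **pure `t` bound `exp(-N x²/5)`** -/
theorem pure_x5 {R : ℝ} (hR0 : 21 / 20 ≤ R) (hR1 : R ≤ 21 / 10) {N : ℕ} (hN : 1 ≤ N)
    {w : Fin N → ℂ} (hw : ∀ k, 1 ≤ ‖w k‖) (ht : ∑ k, ‖w k - (R : ℂ)‖ ≤ N) {x : ℝ}
    (hx0 : 2 / 5 ≤ x) (hx2 : x ≤ 1) (hx1 : x ≤ R - 77 / 200) :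
    ‖qq (uu w) x‖ ≤ Real.exp (-(N * (x ^ 2 / 5))) := by
  rcases le_or_gt R (1100 / 1000) with h | h1100
  · exact cellX_sound x1050 (by push_cast; linarith only [hR0]) (by push_cast; linarith only [h]) hN hw ht hx0 hx2 hx1
  rcases le_or_gt R (1150 / 1000) with h | h1150
  · exact cellX_sound x1100 (by push_cast; linarith only [h1100]) (by push_cast; linarith only [h]) hN hw ht hx0 hx2 hx1
  rcases le_or_gt R (1200 / 1000) with h | h1200
  · exact cellX_sound x1150 (by push_cast; linarith only [h1150]) (by push_cast; linarith only [h]) hN hw ht hx0 hx2 hx1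
  rcases le_or_gt R (1250 / 1000) with h | h1250
  · exact cellX_sound x1200 (by push_cast; linarith only [h1200]) (by push_cast; linarith only [h]) hN hw ht hx0 hx2 hx1
  rcases le_or_gt R (1300 / 1000) with h | h1300
  · exact cellX_sound x1250 (by push_cast; linarith only [h1250]) (by push_cast; linarith only [h]) hN hw ht hx0 hx2 hx1
  rcases le_or_gt R (1350 / 1000) with h | h1350
  · exact cellX_sound x1300 (by push_cast; linarith only [h1300]) (by push_cast; linarith only [h]) hN hw ht hx0 hx2 hx1
  rcases le_or_gt R (1400 / 1000) with h | h1400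
  · exact cellX_sound x1350 (by push_cast; linarith only [h1350]) (by push_cast; linarith only [h]) hN hw ht hx0 hx2 hx1
  rcases le_or_gt R (1450 / 1000) with h | h1450
  · exact cellX_sound x1400 (by push_cast; linarith only [h1400]) (by push_cast; linarith only [h]) hN hw ht hx0 hx2 hx1
  rcases le_or_gt R (1500 / 1000) with h | h1500
  · exact cellX_sound x1450 (by push_cast; linarith only [h1450]) (by push_cast; linarith only [h]) hN hw ht hx0 hx2 hx1
  rcases le_or_gt R (1550 / 1000) with h | h1550
  · exact cellX_sound x1500 (by push_cast; linarith only [h1500]) (by push_cast; linarith only [h]) hN hw ht hx0 hx2 hx1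
  rcases le_or_gt R (1600 / 1000) with h | h1600
  · exact cellX_sound x1550 (by push_cast; linarith only [h1550]) (by push_cast; linarith only [h]) hN hw ht hx0 hx2 hx1
  rcases le_or_gt R (1650 / 1000) with h | h1650
  · exact cellX_sound x1600 (by push_cast; linarith only [h1600]) (by push_cast; linarith only [h]) hN hw ht hx0 hx2 hx1
  rcases le_or_gt R (1700 / 1000) with h | h1700
  · exact cellX_sound x1650 (by push_cast; linarith only [h1650]) (by push_cast; linarith only [h]) hN hw ht hx0 hx2 hx1
  rcases le_or_gt R (1750 / 1000) with h | h1750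
  · exact cellX_sound x1700 (by push_cast; linarith only [h1700]) (by push_cast; linarith only [h]) hN hw ht hx0 hx2 hx1
  rcases le_or_gt R (1800 / 1000) with h | h1800
  · exact cellX_sound x1750 (by push_cast; linarith only [h1750]) (by push_cast; linarith only [h]) hN hw ht hx0 hx2 hx1
  rcases le_or_gt R (1850 / 1000) with h | h1850
  · exact cellX_sound x1800 (by push_cast; linarith only [h1800]) (by push_cast; linarith only [h]) hN hw ht hx0 hx2 hx1
  rcases le_or_gt R (1900 / 1000) with h | h1900
  · exact cellX_sound x1850 (by push_cast; linarith only [h1850]) (by push_cast; linarith only [h]) hN hw ht hx0 hx2 hx1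
  rcases le_or_gt R (1950 / 1000) with h | h1950
  · exact cellX_sound x1900 (by push_cast; linarith only [h1900]) (by push_cast; linarith only [h]) hN hw ht hx0 hx2 hx1
  rcases le_or_gt R (2000 / 1000) with h | h2000
  · exact cellX_sound x1950 (by push_cast; linarith only [h1950]) (by push_cast; linarith only [h]) hN hw ht hx0 hx2 hx1
  rcases le_or_gt R (2050 / 1000) with h | h2050
  · exact cellX_sound x2000 (by push_cast; linarith only [h2000]) (by push_cast; linarith only [h]) hN hw ht hx0 hx2 hx1
  exact cellX_sound x2050 (by push_cast; linarith only [h2050]) (by push_cast; linarith only [hR1]) hN hw ht hx0 hx2 hx1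

end Pool.Agent.Lib.MP_af3a4a_an.P1.CHK.H39
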