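import Pool.Agent.Lib.MP_af3a4a_an.P1.CHK.H39.Pair

/-!
# Pure `t` bounds of `|q|` for `21/20 ≤ R ≤ 21/10`, second table (helper39, council 2)

`|q(x)| ≤ exp(-N/15)` for `R - 77/200 ≤ x ≤ R - 3/20`, and `|q(x)| ≤ exp(-N x²/5)` for
`2/5 ≤ x ≤ 1`, `x ≤ R - 77/200`.
-/

set_option autoImplicit false

namespace Pool.Agent.Lib.MP_af3a4a_an.P1.CHK.H39

open Pool.Agent.Lib.MP_af3a4a_an.SV (uu av)
open Pool.Agent.Lib.MP_af3a4a_an.P1.H74 Pool.Agent.Lib.MP_af3a4a_an.P1.H80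
open Pool.Agent.Lib.MP_af3a4a_an.P1.CHK.H58

/-- end condition: `R - a/b ≤ (l/D) R` for `R ≤ r1/M` -/
theorem end_ok {M D r1 l a b : ℕ} (hM : 0 < M) (hD : 0 < D) (hl : l ≤ D) (hb : 0 < b)
    (h : r1 * (D - l) * b ≤ a * D * M) {R : ℝ} (h1 : R ≤ (r1 : ℝ) / M) :
    R - (a : ℝ) / b ≤ (l : ℝ) / D * R := by
  have hM : (0 : ℝ) < M := by exact_mod_cast hM
  have hD : (0 : ℝ) < D := by exact_mod_cast hD
  have hb' : (0 : ℝ) < b := by exact_mod_cast hb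
  have h2 : ((r1 * (D - l) * b : ℕ) : ℝ) ≤ ((a * D * M : ℕ) : ℝ) := by exact_mod_cast h
  push_cast [Nat.cast_sub hl] at h2
  have hl' : (l : ℝ) ≤ D := by exact_mod_cast hl
  have h3 : (r1 : ℝ) / M * (((D : ℝ) - l) / D) ≤ (a : ℝ) / b := by
    rw [div_mul_div_comm, div_le_div_iff₀ (by positivity) hb']
    linarith
  have h4 : R * (((D : ℝ) - l) / D) ≤ (r1 : ℝ) / M * (((D : ℝ) - l) / D) :=
    mul_le_mul_of_nonneg_right h1 (div_nonneg (by linarith) hD.le)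
  have h5 : R * (((D : ℝ) - l) / D) = R - (l : ℝ) / D * R := by
    field_simp
  linarith

/-- start condition: `(l/D) R < R - a/b` for `R ≥ r0/M` -/
theorem start_ok {M D r0 l a b : ℕ} (hM : 0 < M) (hD : 0 < D) (hl : l ≤ D) (hb : 0 < b)
    (h : a * D * M < r0 * (D - l) * b) {R : ℝ} (h0 : (r0 : ℝ) / M ≤ R) :
    (l : ℝ) / D * R < R - (a : ℝ) / b := by
  have hM : (0 : ℝ) < M := by exact_mod_cast hM
  have hD : (0 : ℝ) < D := by exact_mod_cast hD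
  have hb' : (0 : ℝ) < b := by exact_mod_cast hb
  have h2 : ((a * D * M : ℕ) : ℝ) < ((r0 * (D - l) * b : ℕ) : ℝ) := by exact_mod_cast h
  push_cast [Nat.cast_sub hl] at h2
  have hl' : (l : ℝ) ≤ D := by exact_mod_cast hl
  have h3 : (a : ℝ) / b < (r0 : ℝ) / M * (((D : ℝ) - l) / D) := by
    rw [div_mul_div_comm, div_lt_div_iff₀ hb' (by positivity)]
    linarith
  have h4 : (r0 : ℝ) / M * (((D : ℝ) - l) / D) ≤ R * (((D : ℝ) - l) / D) :=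
    mul_le_mul_of_nonneg_right h0 (div_nonneg (by linarith) hD.le)
  have h5 : R * (((D : ℝ) - l) / D) = R - (l : ℝ) / D * R := by
    field_simp
  linarith

/-- one `R`-cell of the zone `R - 77/200 ≤ x ≤ R - 3/20` -/
def cellE (c M D r0 r1 l0 lB : ℕ) (rows : List (ℕ × ℕ × ℕ × ℕ × ℕ)) : Bool :=
  (Nat.blt 0 M && (Nat.blt 0 D && (Nat.ble l0 D && Nat.ble lB D))) &&
  ((Nat.blt (77 * D * M) (r0 * (D - l0) * 200) && Nat.ble (r1 * (D - lB) * 20) (3 * D * M)) &&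
    chain M D r0 r1 (fun _ _ h => Nat.ble S (c * h)) lB l0 rows)

theorem cellE_sound {c M D r0 r1 l0 lB : ℕ} {rows : List (ℕ × ℕ × ℕ × ℕ × ℕ)}
    (hc : cellE c M D r0 r1 l0 lB rows = true) {R : ℝ} (h0 : (r0 : ℝ) / M ≤ R)
    (h1 : R ≤ (r1 : ℝ) / M) {N : ℕ} (hN : 1 ≤ N) {w : Fin N → ℂ} (hw : ∀ k, 1 ≤ ‖w k‖)
    (ht : ∑ k, ‖w k - (R : ℂ)‖ ≤ N) {x : ℝ} (hx0 : R - 77 / 200 ≤ x) (hx1 : x ≤ R - 3 / 20) :
    ‖qq (uu w) x‖ ≤ Real.exp (-(N * (1 / c))) := by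
  unfold cellE at hc
  simp only [Bool.and_eq_true] at hc
  obtain ⟨⟨c1, c2, c3, c4⟩, ⟨c5, c6⟩, c7⟩ := hc
  have c1 : 0 < M := Nat.blt_eq.mp c1
  have c2 : 0 < D := Nat.blt_eq.mp c2
  have c3 := Nat.le_of_ble_eq_true c3
  have c4 := Nat.le_of_ble_eq_true c4
  have c5 : 77 * D * M < r0 * (D - l0) * 200 := Nat.blt_eq.mp c5
  have c6 := Nat.le_of_ble_eq_true c6
  have hNp : (0 : ℝ) < N := by exact_mod_cast hN
  have k0 := start_ok c1 c2 c3 (by norm_num) c5 h0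
  have k1 := end_ok c1 c2 c4 (by norm_num) c6 h1
  push_cast at k0 k1
  obtain ⟨l1, l2, a, h, g1, g2, g3, g4⟩ := chain_sound rows l0 c7 R h0 h1 x (by linarith)
    (by linarith)
  have hq := g4.qq_le hN hw ht
  rw [zero_mul, zero_mul, add_zero] at hq
  have hSp := S_pos
  have e1 : S ≤ c * h := Nat.le_of_ble_eq_true g1
  have e1' : ((S : ℕ) : ℝ) ≤ ((c * h : ℕ) : ℝ) := by exact_mod_cast e1
  push_cast at e1'
  have hcp : (0 : ℝ) < c := by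
    rcases Nat.eq_zero_or_pos c with e | e
    · rw [e, Nat.cast_zero, zero_mul] at e1'
      linarith
    · exact_mod_cast e
  refine hq.trans (Real.exp_le_exp.2 ?_)
  rw [neg_le_neg_iff]
  apply mul_le_mul_of_nonneg_left _ hNp.le
  rw [div_le_div_iff₀ hcp hSp]
  linarith

/-- the requirement `h ≥ x²/5` -/
def needX (M D r1 l' h : ℕ) : Bool :=
  Nat.ble (S * (l' * r1) * (l' * r1)) (5 * h * (D * M) * (D * M))

/-- one `R`-cell of the zone `2/5 ≤ x ≤ 1`, `x ≤ R - 77/200` -/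
def cellX (M D r0 r1 l0 lB : ℕ) (rows : List (ℕ × ℕ × ℕ × ℕ × ℕ)) : Bool :=
  (Nat.blt 0 M && (Nat.blt 0 D && (Nat.ble lB D && Nat.blt (l0 * r1 * 5) (2 * D * M)))) &&
  ((Nat.ble (r1 * (D - lB) * 200) (77 * D * M) || Nat.ble (D * M) (lB * r0)) &&
    chain M D r0 r1 (fun _ l' h => needX M D r1 l' h) lB l0 rows)

theorem cellX_sound {M D r0 r1 l0 lB : ℕ} {rows : List (ℕ × ℕ × ℕ × ℕ × ℕ)}
    (hc : cellX M D r0 r1 l0 lB rows = true) {R : ℝ} (h0 : (r0 : ℝ) / M ≤ R)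
    (h1 : R ≤ (r1 : ℝ) / M) {N : ℕ} (hN : 1 ≤ N) {w : Fin N → ℂ} (hw : ∀ k, 1 ≤ ‖w k‖)
    (ht : ∑ k, ‖w k - (R : ℂ)‖ ≤ N) {x : ℝ} (hx0 : 2 / 5 ≤ x) (hx2 : x ≤ 1)
    (hx1 : x ≤ R - 77 / 200) :
    ‖qq (uu w) x‖ ≤ Real.exp (-(N * (x ^ 2 / 5))) := by
  unfold cellX at hc
  simp only [Bool.and_eq_true, Bool.or_eq_true] at hc
  obtain ⟨⟨c1, c2, c4, c5⟩, c6, c7⟩ := hc
  have c1 : 0 < M := Nat.blt_eq.mp c1
  have c2 : 0 < D := Nat.blt_eq.mp c2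
  have c4 := Nat.le_of_ble_eq_true c4
  have c5 : l0 * r1 * 5 < 2 * D * M := Nat.blt_eq.mp c5
  have hM : (0 : ℝ) < M := by exact_mod_cast c1
  have hD : (0 : ℝ) < D := by exact_mod_cast c2
  have hNp : (0 : ℝ) < N := by exact_mod_cast hN
  have k0 : (l0 : ℝ) / D * R < x := by
    have e : (l0 : ℝ) / D * R ≤ (l0 : ℝ) / D * (r1 / M) :=
      mul_le_mul_of_nonneg_left h1 (by positivity)
    have e2 : (l0 : ℝ) / D * (r1 / M) < 2 / 5 := by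
      rw [div_mul_div_comm, div_lt_div_iff₀ (by positivity) (by norm_num)]
      have : ((l0 * r1 * 5 : ℕ) : ℝ) < ((2 * D * M : ℕ) : ℝ) := by exact_mod_cast c5
      push_cast at this
      linarith
    linarith
  have k1 : x ≤ (lB : ℝ) / D * R := by
    rcases c6 with c6 | c6
    · have c6 := Nat.le_of_ble_eq_true c6
      have k1 := end_ok c1 c2 c4 (by norm_num) c6 h1
      push_cast at k1
      linarith
    · have c6 := Nat.le_of_ble_eq_true c6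
      have c6' : ((D * M : ℕ) : ℝ) ≤ ((lB * r0 : ℕ) : ℝ) := by exact_mod_cast c6
      push_cast at c6'
      refine hx2.trans ?_
      calc (1 : ℝ) ≤ (lB : ℝ) / D * (r0 / M) := by
            rw [div_mul_div_comm, le_div_iff₀ (by positivity)]
            linarith
        _ ≤ (lB : ℝ) / D * R := mul_le_mul_of_nonneg_left h0 (by positivity)
  obtain ⟨l1, l2, a, h, g1, g2, g3, g4⟩ := chain_sound rows l0 c7 R h0 h1 x k0 k1
  have hq := g4.qq_le hN hw ht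
  rw [zero_mul, zero_mul, add_zero] at hq
  have hSp := S_pos
  have hx00 : 0 < x := by linarith
  have hxl : x ≤ ((l2 : ℝ) * r1) / (D * M) := by
    refine g3.trans ?_
    rw [mul_div_mul_comm]
    exact mul_le_mul_of_nonneg_left h1 (by positivity)
  have hxl2 : x ^ 2 ≤ (((l2 : ℝ) * r1) / (D * M)) ^ 2 := pow_le_pow_left₀ hx00.le hxl 2
  have e2 : S * (l2 * r1) * (l2 * r1) ≤ 5 * h * (D * M) * (D * M) := Nat.le_of_ble_eq_true g1
  have e2' : ((S * (l2 * r1) * (l2 * r1) : ℕ) : ℝ) ≤ ((5 * h * (D * M) * (D * M) : ℕ) : ℝ) := by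
    exact_mod_cast e2
  push_cast at e2'
  have f2 : x ^ 2 / 5 ≤ (h : ℝ) / S := by
    have : (((l2 : ℝ) * r1) / (D * M)) ^ 2 / 5 ≤ (h : ℝ) / S := by
      rw [div_pow, div_div, div_le_div_iff₀ (by positivity) hSp]
      nlinarith
    linarith
  refine hq.trans (Real.exp_le_exp.2 ?_)
  rw [neg_le_neg_iff]
  exact mul_le_mul_of_nonneg_left f2 hNp.le

end Pool.Agent.Lib.MP_af3a4a_an.P1.CHK.H39
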