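import Pool.Agent.Lib.MP_af3a4a_an.P1.CHK.H39.PureT32A
import Pool.Agent.Lib.MP_af3a4a_an.P1.CHK.H39.PureT32B

/-!
# Pure `t` constant bound of `|q|` for `4/5 ≤ R ≤ 21/10` (helper39, council 2)

Certified table of pair duals with `γ = 0`: for every `w` with `|w_k| ≥ 1` and
`∑ |w_k - R| ≤ N`, with `q(x) = ∏ (1 - x / w_k)`,
`|q(x)| ≤ exp(-N/32)` for `2/5 ≤ x ≤ R - 3/20` (for `3/10 ≤ x` if `R ≤ 21/20`).
-/

set_option autoImplicit false

namespace Pool.Agent.Lib.MP_af3a4a_an.P1.CHK.H39

open Pool.Agent.Lib.MP_af3a4a_an.SV (uu av)
open Pool.Agent.Lib.MP_af3a4a_an.P1.H74 Pool.Agent.Lib.MP_af3a4a_an.P1.H80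
open Pool.Agent.Lib.MP_af3a4a_an.P1.CHK.H58

/-- **pure `t` bound `exp(-N/32)`** -/
theorem pure_t32 {R : ℝ} (hR0 : 4 / 5 ≤ R) (hR1 : R ≤ 21 / 10) {N : ℕ} (hN : 1 ≤ N)
    {w : Fin N → ℂ} (hw : ∀ k, 1 ≤ ‖w k‖) (ht : ∑ k, ‖w k - (R : ℂ)‖ ≤ N) {x : ℝ}
    (hx0 : 3 / 10 ≤ x) (hx1 : x ≤ R - 3 / 20) (hc : 2 / 5 ≤ x ∨ R ≤ 21 / 20) :
    ‖qq (uu w) x‖ ≤ Real.exp (-(N * (1 / 32))) := by
  rcases le_or_gt R (850 / 1000) with h | h850
  · exact_mod_cast cellC_sound u800 (by push_cast; linarith only [hR0]) (by push_cast; linarith only [h]) hN hw ht
      (by push_cast; linarith only [hx0]) (by push_cast; linarith only [hx1])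
  rcases le_or_gt R (900 / 1000) with h | h900
  · exact_mod_cast cellC_sound u850 (by push_cast; linarith only [h850]) (by push_cast; linarith only [h]) hN hw ht
      (by push_cast; linarith only [hx0]) (by push_cast; linarith only [hx1])
  rcases le_or_gt R (950 / 1000) with h | h950
  · exact_mod_cast cellC_sound u900 (by push_cast; linarith only [h900]) (by push_cast; linarith only [h]) hN hw ht
      (by push_cast; linarith only [hx0]) (by push_cast; linarith only [hx1])
  rcases le_or_gt R (1000 / 1000) with h | h1000
  · exact_mod_cast cellC_sound u950 (by push_cast; linarith only [h950]) (by push_cast; linarith only [h]) hN hw ht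
      (by push_cast; linarith only [hx0]) (by push_cast; linarith only [hx1])
  rcases le_or_gt R (1050 / 1000) with h | h1050
  · exact_mod_cast cellC_sound u1000 (by push_cast; linarith only [h1000]) (by push_cast; linarith only [h]) hN hw ht
      (by push_cast; linarith only [hx0]) (by push_cast; linarith only [hx1])
  rcases le_or_gt R (1100 / 1000) with h | h1100
  · exact_mod_cast cellC_sound u1050 (by push_cast; linarith only [h1050]) (by push_cast; linarith only [h]) hN hw ht
      (by push_cast; rcases hc with hc | hc <;> linarith) (by push_cast; linarith only [hx1])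
  rcases le_or_gt R (1150 / 1000) with h | h1150
  · exact_mod_cast cellC_sound u1100 (by push_cast; linarith only [h1100]) (by push_cast; linarith only [h]) hN hw ht
      (by push_cast; rcases hc with hc | hc <;> linarith) (by push_cast; linarith only [hx1])
  rcases le_or_gt R (1200 / 1000) with h | h1200
  · exact_mod_cast cellC_sound u1150 (by push_cast; linarith only [h1150]) (by push_cast; linarith only [h]) hN hw ht
      (by push_cast; rcases hc with hc | hc <;> linarith) (by push_cast; linarith only [hx1])
  rcases le_or_gt R (1250 / 1000) with h | h1250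
  · exact_mod_cast cellC_sound u1200 (by push_cast; linarith only [h1200]) (by push_cast; linarith only [h]) hN hw ht
      (by push_cast; rcases hc with hc | hc <;> linarith) (by push_cast; linarith only [hx1])
  rcases le_or_gt R (1300 / 1000) with h | h1300
  · exact_mod_cast cellC_sound u1250 (by push_cast; linarith only [h1250]) (by push_cast; linarith only [h]) hN hw ht
      (by push_cast; rcases hc with hc | hc <;> linarith) (by push_cast; linarith only [hx1])
  rcases le_or_gt R (1350 / 1000) with h | h1350
  · exact_mod_cast cellC_sound u1300 (by push_cast; linarith only [h1300]) (by push_cast; linarith only [h]) hN hw ht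
      (by push_cast; rcases hc with hc | hc <;> linarith) (by push_cast; linarith only [hx1])
  rcases le_or_gt R (1400 / 1000) with h | h1400
  · exact_mod_cast cellC_sound u1350 (by push_cast; linarith only [h1350]) (by push_cast; linarith only [h]) hN hw ht
      (by push_cast; rcases hc with hc | hc <;> linarith) (by push_cast; linarith only [hx1])
  rcases le_or_gt R (1450 / 1000) with h | h1450
  · exact_mod_cast cellC_sound u1400 (by push_cast; linarith only [h1400]) (by push_cast; linarith only [h]) hN hw ht
      (by push_cast; rcases hc with hc | hc <;> linarith) (by push_cast; linarith only [hx1])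
  rcases le_or_gt R (1500 / 1000) with h | h1500
  · exact_mod_cast cellC_sound u1450 (by push_cast; linarith only [h1450]) (by push_cast; linarith only [h]) hN hw ht
      (by push_cast; rcases hc with hc | hc <;> linarith) (by push_cast; linarith only [hx1])
  rcases le_or_gt R (1550 / 1000) with h | h1550
  · exact_mod_cast cellC_sound u1500 (by push_cast; linarith only [h1500]) (by push_cast; linarith only [h]) hN hw ht
      (by push_cast; rcases hc with hc | hc <;> linarith) (by push_cast; linarith only [hx1])
  rcases le_or_gt R (1600 / 1000) with h | h1600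
  · exact_mod_cast cellC_sound u1550 (by push_cast; linarith only [h1550]) (by push_cast; linarith only [h]) hN hw ht
      (by push_cast; rcases hc with hc | hc <;> linarith) (by push_cast; linarith only [hx1])
  rcases le_or_gt R (1650 / 1000) with h | h1650
  · exact_mod_cast cellC_sound u1600 (by push_cast; linarith only [h1600]) (by push_cast; linarith only [h]) hN hw ht
      (by push_cast; rcases hc with hc | hc <;> linarith) (by push_cast; linarith only [hx1])
  rcases le_or_gt R (1700 / 1000) with h | h1700
  · exact_mod_cast cellC_sound u1650 (by push_cast; linarith only [h1650]) (by push_cast; linarith only [h]) hN hw ht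
      (by push_cast; rcases hc with hc | hc <;> linarith) (by push_cast; linarith only [hx1])
  rcases le_or_gt R (1750 / 1000) with h | h1750
  · exact_mod_cast cellC_sound u1700 (by push_cast; linarith only [h1700]) (by push_cast; linarith only [h]) hN hw ht
      (by push_cast; rcases hc with hc | hc <;> linarith) (by push_cast; linarith only [hx1])
  rcases le_or_gt R (1800 / 1000) with h | h1800
  · exact_mod_cast cellC_sound u1750 (by push_cast; linarith only [h1750]) (by push_cast; linarith only [h]) hN hw ht
      (by push_cast; rcases hc with hc | hc <;> linarith) (by push_cast; linarith only [hx1])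
  rcases le_or_gt R (1850 / 1000) with h | h1850
  · exact_mod_cast cellC_sound u1800 (by push_cast; linarith only [h1800]) (by push_cast; linarith only [h]) hN hw ht
      (by push_cast; rcases hc with hc | hc <;> linarith) (by push_cast; linarith only [hx1])
  rcases le_or_gt R (1900 / 1000) with h | h1900
  · exact_mod_cast cellC_sound u1850 (by push_cast; linarith only [h1850]) (by push_cast; linarith only [h]) hN hw ht
      (by push_cast; rcases hc with hc | hc <;> linarith) (by push_cast; linarith only [hx1])
  rcases le_or_gt R (1950 / 1000) with h | h1950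
  · exact_mod_cast cellC_sound u1900 (by push_cast; linarith only [h1900]) (by push_cast; linarith only [h]) hN hw ht
      (by push_cast; rcases hc with hc | hc <;> linarith) (by push_cast; linarith only [hx1])
  rcases le_or_gt R (2000 / 1000) with h | h2000
  · exact_mod_cast cellC_sound u1950 (by push_cast; linarith only [h1950]) (by push_cast; linarith only [h]) hN hw ht
      (by push_cast; rcases hc with hc | hc <;> linarith) (by push_cast; linarith only [hx1])
  rcases le_or_gt R (2050 / 1000) with h | h2050
  · exact_mod_cast cellC_sound u2000 (by push_cast; linarith only [h2000]) (by push_cast; linarith only [h]) hN hw ht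
      (by push_cast; rcases hc with hc | hc <;> linarith) (by push_cast; linarith only [hx1])
  exact_mod_cast cellC_sound u2050 (by push_cast; linarith only [h2050]) (by push_cast; linarith only [hR1]) hN hw ht
      (by push_cast; rcases hc with hc | hc <;> linarith) (by push_cast; linarith only [hx1])

end Pool.Agent.Lib.MP_af3a4a_an.P1.CHK.H39
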