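import Pool.Agent.Lib.MP_af3a4a_an.P1.CHK.H39.Pair

/-!
# Pure `t` constant bound of `|q|` for `4/5 ≤ R ≤ 21/10` (helper39, council 2)

Certified table of pair duals with `γ = 0`: for every `w` with `|w_k| ≥ 1` and
`∑ |w_k - R| ≤ N`, with `q(x) = ∏ (1 - x / w_k)`,
`|q(x)| ≤ exp(-N/32)` for `2/5 ≤ x ≤ R - 3/20` (for `3/10 ≤ x` if `R ≤ 21/20`).
-/

set_option autoImplicit false

namespace Pool.Agent.Lib.MP_af3a4a_an.P1.CHK.H39

open Pool.Agent.Lib.MP_af3a4a_an.SV (uu av)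
open Pool.Agent.Lib.MP_af3a4a_an.P1.H74 Pool.Agent.Lib.MP_af3a4a_an.P1.H80
open Pool.Agent.Lib.MP_af3a4a_an.P1.CHK.H58

/-- one `R`-cell: a chain of pure `t` pair duals with value `≥ 1 / c`, from `x ≤ xa / xb` to
`x ≥ R - ya / yb` -/
def cellC (c xa xb ya yb M D r0 r1 l0 lB : ℕ) (rows : List (ℕ × ℕ × ℕ × ℕ × ℕ)) : Bool :=
  (Nat.blt 0 M && (Nat.blt 0 D && (Nat.blt 0 xb && (Nat.blt 0 yb && Nat.ble lB D)))) &&
  ((Nat.blt (l0 * r1 * xb) (xa * D * M) && Nat.ble (r1 * (D - lB) * yb) (ya * D * M)) &&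
    chain M D r0 r1 (fun _ _ h => Nat.ble S (c * h)) lB l0 rows)

theorem cellC_sound {c xa xb ya yb M D r0 r1 l0 lB : ℕ} {rows : List (ℕ × ℕ × ℕ × ℕ × ℕ)}
    (hc : cellC c xa xb ya yb M D r0 r1 l0 lB rows = true) {R : ℝ} (h0 : (r0 : ℝ) / M ≤ R)
    (h1 : R ≤ (r1 : ℝ) / M) {N : ℕ} (hN : 1 ≤ N) {w : Fin N → ℂ} (hw : ∀ k, 1 ≤ ‖w k‖)
    (ht : ∑ k, ‖w k - (R : ℂ)‖ ≤ N) {x : ℝ} (hx0 : (xa : ℝ) / xb ≤ x)
    (hx1 : x ≤ R - (ya : ℝ) / yb) :
    ‖qq (uu w) x‖ ≤ Real.exp (-(N * (1 / c))) := by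
  unfold cellC at hc
  simp only [Bool.and_eq_true] at hc
  obtain ⟨⟨c1, c2, c3, c4, c5⟩, ⟨c6, c7⟩, c8⟩ := hc
  have c1 : 0 < M := Nat.blt_eq.mp c1
  have c2 : 0 < D := Nat.blt_eq.mp c2
  have c3 : 0 < xb := Nat.blt_eq.mp c3
  have c4 : 0 < yb := Nat.blt_eq.mp c4
  have c5 := Nat.le_of_ble_eq_true c5
  have c6 : l0 * r1 * xb < xa * D * M := Nat.blt_eq.mp c6
  have c7 := Nat.le_of_ble_eq_true c7
  have hM : (0 : ℝ) < M := by exact_mod_cast c1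
  have hD : (0 : ℝ) < D := by exact_mod_cast c2
  have hxb : (0 : ℝ) < xb := by exact_mod_cast c3
  have hyb : (0 : ℝ) < yb := by exact_mod_cast c4
  have hR0 : 0 ≤ R := le_trans (by positivity) h0
  have hNp : (0 : ℝ) < N := by exact_mod_cast hN
  have hl0 : (l0 : ℝ) / D * R < x := by
    have e : (l0 : ℝ) / D * R ≤ (l0 : ℝ) / D * (r1 / M) :=
      mul_le_mul_of_nonneg_left h1 (by positivity)
    have e2 : (l0 : ℝ) / D * (r1 / M) < (xa : ℝ) / xb := by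
      rw [div_mul_div_comm, div_lt_div_iff₀ (by positivity) hxb]
      have : ((l0 * r1 * xb : ℕ) : ℝ) < ((xa * D * M : ℕ) : ℝ) := by exact_mod_cast c6
      push_cast at this
      linarith
    linarith
  have kB : R - (ya : ℝ) / yb ≤ (lB : ℝ) / D * R := by
    have h2 : ((r1 * (D - lB) * yb : ℕ) : ℝ) ≤ ((ya * D * M : ℕ) : ℝ) := by exact_mod_cast c7
    push_cast [Nat.cast_sub c5] at h2
    have hl' : (lB : ℝ) ≤ D := by exact_mod_cast c5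
    have h3 : (r1 : ℝ) / M * (((D : ℝ) - lB) / D) ≤ (ya : ℝ) / yb := by
      rw [div_mul_div_comm, div_le_div_iff₀ (by positivity) hyb]
      linarith
    have h4 : R * (((D : ℝ) - lB) / D) ≤ (r1 : ℝ) / M * (((D : ℝ) - lB) / D) :=
      mul_le_mul_of_nonneg_right h1 (div_nonneg (by linarith) hD.le)
    have h5 : R * (((D : ℝ) - lB) / D) = R - (lB : ℝ) / D * R := by
      field_simp
    linarith
  obtain ⟨l1, l2, a, h, g1, g2, g3, g4⟩ := chain_sound rows l0 c8 R h0 h1 x hl0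
    (hx1.trans (by linarith))
  have hq := g4.qq_le hN hw ht
  rw [zero_mul, zero_mul, add_zero] at hq
  have hSp := S_pos
  have e1 : S ≤ c * h := Nat.le_of_ble_eq_true g1
  have e1' : ((S : ℕ) : ℝ) ≤ ((c * h : ℕ) : ℝ) := by exact_mod_cast e1
  push_cast at e1'
  have hcp : (0 : ℝ) < c := by
    rcases Nat.eq_zero_or_pos c with e | e
    · rw [e, Nat.cast_zero, zero_mul] at e1'
      linarith
    · exact_mod_cast e
  refine hq.trans (Real.exp_le_exp.2 ?_)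
  rw [neg_le_neg_iff]
  apply mul_le_mul_of_nonneg_left _ hNp.le
  rw [div_le_div_iff₀ hcp hSp]
  linarith

end Pool.Agent.Lib.MP_af3a4a_an.P1.CHK.H39
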