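import Pool.Agent.Lib.MP_af3a4a_an.P1.CHK.H39.Interp
import Pool.Agent.Lib.MP_af3a4a_an.P1.CHK.H58.Bridge
import Pool.Agent.Lib.MP_af3a4a_an.P1.H81.Vt2

/-!
# Tables of pure `t` bounds of `|q|` (helper39, council 2)

`tabOK` checks a chain of pure `t` duals at real nodes (one certificate per node, with different
multipliers; between two nodes the bounds are interpolated) against a list of pairs `(X, c)`:
`|q(x)| ≤ exp(-N (c / 1024) x² / max 1 R)` for `0 ≤ x ≤ X / 1024`.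
-/

set_option autoImplicit false

namespace Pool.Agent.Lib.MP_af3a4a_an.P1.CHK.H39.Tab

open Pool.Agent.Lib.MP_af3a4a_an.SV (uu av)
open Pool.Agent.Lib.MP_af3a4a_an.P1.H74 Pool.Agent.Lib.MP_af3a4a_an.P1.H80
open Pool.Agent.Lib.MP_af3a4a_an.P1.CHK.H58
open Pool.Agent.Lib.MP_af3a4a_an.P1.CHK.H74 (ODual)
open Pool.Agent.Lib.MP_af3a4a_an.P1.CHK.H39.Interp (NDual VV)

theorem S_pos : (0 : ℝ) < S := by
  rw [S_cast]
  norm_num

theorem toO {R x α h : ℝ} (hD : Dual R x α 0 h) : ODual R x 0 α 0 0 h := by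
  refine ⟨hD.nonneg, fun v hv => ?_⟩
  have := hD.le v hv
  have e : (⟨x, -0⟩ : ℂ) = (x : ℂ) := by
    apply Complex.ext <;> simp
  rw [e]
  refine this.trans (le_of_eq ?_)
  congr 1
  ring

theorem cast_tsub (a b : ℕ) : ((a - b : ℕ) : ℝ) = max ((a : ℝ) - b) 0 := by
  rcases le_total b a with h | h
  · rw [Nat.cast_sub h, max_eq_left]
    exact sub_nonneg.2 (by exact_mod_cast h)
  · rw [Nat.sub_eq_zero_of_le h, Nat.cast_zero, max_eq_right]
    exact sub_nonpos.2 (by exact_mod_cast h)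

/-- the radius `p / 1024` at the node `l / D`, multiplier `a / S`, value `h / S` -/
def nearR (M D r0 r1 l a h p : ℕ) : Bool :=
  Nat.ble (l * r1 * 1024 + p * D * M) (1024 * D * M) ||
  (Nat.ble (p * (8 * S * 1024 * D * M) ^ 8) (1024 *
      (8 * S * 1024 * D * M + a * ((D - l) * r0 * 1024 - p * D * M) - (a + h) * (1024 * D * M)) ^ 8) ||
    Nat.ble (p * D * M * (8 * S * 1024 * D * M) ^ 8) ((l * r0 * 1024 - p * D * M) *
      (8 * S * 1024 * D * M + a * ((D - l) * r0 * 1024 - p * D * M) - (a + h) * (1024 * D * M)) ^ 8))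

theorem nearR_sound {M D r0 r1 l a h p : ℕ} (hc : nearR M D r0 r1 l a h p = true) (hM : 0 < M)
    (hD : 0 < D) (hl : l ≤ D) {R : ℝ} (h0 : (r0 : ℝ) / M ≤ R) (h1 : R ≤ (r1 : ℝ) / M) {v : ℂ}
    (hv : 1 ≤ ‖v‖) (hvr : ‖v - ((l : ℝ) / D * R : ℝ)‖ < (p : ℝ) / 1024) :
    (p : ℝ) / 1024 ≤ ‖v‖ * Real.exp ((a : ℝ) / S * (‖v - R‖ - 1) - (h : ℝ) / S) := by
  have hM' : (0 : ℝ) < M := by exact_mod_cast hM
  have hD' : (0 : ℝ) < D := by exact_mod_cast hD
  have hl' : (l : ℝ) ≤ D := by exact_mod_cast hl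
  have hR0 : 0 ≤ R := le_trans (by positivity) h0
  have hSp := S_pos
  obtain ⟨x, hx⟩ : ∃ x : ℝ, x = (l : ℝ) / D * R := ⟨_, rfl⟩
  have hx0 : 0 ≤ x := by rw [hx]; positivity
  rw [← hx] at hvr
  have n1 : ‖v‖ - ‖v - (x : ℂ)‖ ≤ x := by
    have e : v = (v - (x : ℂ)) + (x : ℂ) := by ring
    have := norm_add_le (v - (x : ℂ)) (x : ℂ)
    rw [← e, Complex.norm_real, Real.norm_of_nonneg hx0] at this
    linarith only [this]
  unfold nearR at hc
  simp only [Bool.or_eq_true] at hc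
  rcases hc with hc | hc
  · exfalso
    have hc := Nat.le_of_ble_eq_true hc
    have hc' : ((l * r1 * 1024 + p * D * M : ℕ) : ℝ) ≤ ((1024 * D * M : ℕ) : ℝ) := by
      exact_mod_cast hc
    push_cast at hc'
    have h2 : x ≤ (l : ℝ) / D * (r1 / M) := by
      rw [hx]
      exact mul_le_mul_of_nonneg_left h1 (by positivity)
    have h3 : (l : ℝ) / D * (r1 / M) + (p : ℝ) / 1024 ≤ 1 := by
      rw [div_mul_div_comm, div_add_div _ _ (by positivity) (by norm_num),
        div_le_one (by positivity)]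
      linarith only [hc']
    linarith only [hv, hvr, n1, h2, h3]
  · -- the exponential
    obtain ⟨T, hT⟩ : ∃ T : ℝ, T = 1024 * D * M := ⟨_, rfl⟩
    have hTp : 0 < T := by rw [hT]; positivity
    obtain ⟨s, hs⟩ : ∃ s : ℕ, s = (D - l) * r0 * 1024 - p * D * M := ⟨_, rfl⟩
    have hsr : (s : ℝ) / T ≤ ‖v - R‖ := by
      rw [hs, cast_tsub]
      rw [div_le_iff₀ hTp]
      refine max_le ?_ (by positivity)
      push_cast [Nat.cast_sub hl]
      have n2 : R - x - ‖v - (x : ℂ)‖ ≤ ‖v - R‖ := by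
        have e : ((R - x : ℝ) : ℂ) = (v - (x : ℂ)) - (v - (R : ℂ)) := by push_cast; ring
        have h5 := norm_sub_le (v - (x : ℂ)) (v - (R : ℂ))
        rw [← e, Complex.norm_real] at h5
        have h6 := le_abs_self (R - x)
        rw [← Real.norm_eq_abs] at h6
        linarith only [h5, h6]
      have n3 : ((D : ℝ) - l) / D * (r0 / M) ≤ R - x := by
        have e : R - x = ((D : ℝ) - l) / D * R := by
          rw [hx]
          field_simp
        rw [e]
        exact mul_le_mul_of_nonneg_left h0 (div_nonneg (by linarith only [hl']) hD'.le)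
      have n4 : (((D : ℝ) - l) / D * (r0 / M) - p / 1024) * T =
          ((D : ℝ) - l) * r0 * 1024 - p * D * M := by
        rw [hT]
        field_simp
      rw [← n4]
      apply mul_le_mul_of_nonneg_right _ hTp.le
      linarith only [hvr, n2, n3]
    obtain ⟨z, hz⟩ : ∃ z : ℝ, z = (a : ℝ) / S * (‖v - R‖ - 1) - (h : ℝ) / S := ⟨_, rfl⟩
    rw [← hz]
    obtain ⟨W, hW⟩ : ∃ W : ℕ, W = 8 * S * 1024 * D * M + a * s - (a + h) * (1024 * D * M) :=
      ⟨_, rfl⟩
    have hWr : (W : ℝ) / (8 * S * T) ≤ max (1 + z / 8) 0 := by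
      rw [hW, cast_tsub, div_le_iff₀ (by positivity)]
      refine max_le ?_ (mul_nonneg (le_max_right _ _) (by positivity))
      have e1 : 8 * (S : ℝ) * T + a * s - (a + h) * T ≤ (1 + z / 8) * (8 * S * T) := by
        have e2 : (1 + z / 8) * (8 * S * T) = 8 * S * T + T * (a * (‖v - R‖ - 1) - h) := by
          rw [hz]
          field_simp
        rw [e2]
        have e3 : (s : ℝ) ≤ ‖v - R‖ * T := by rwa [div_le_iff₀ hTp] at hsr
        have e4 := mul_le_mul_of_nonneg_left e3 (Nat.cast_nonneg (α := ℝ) a)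
        linarith only [e4]
      have e5 : (((8 * S * 1024 * D * M + a * s : ℕ) : ℝ) - ((a + h) * (1024 * D * M) : ℕ)) =
          8 * (S : ℝ) * T + a * s - (a + h) * T := by
        rw [hT]
        push_cast
        ring
      rw [e5]
      refine e1.trans ?_
      exact mul_le_mul_of_nonneg_right (le_max_left _ _) (by positivity)
    have hexp : ((W : ℝ) / (8 * S * T)) ^ 8 ≤ Real.exp z := by
      refine (pow_le_pow_left₀ (by positivity) hWr 8).trans ?_
      rcases le_total (1 + z / 8) 0 with h2 | h2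
      · rw [max_eq_right h2]
        norm_num
        exact (Real.exp_pos _).le
      · rw [max_eq_left h2]
        have h3 := Real.add_one_le_exp (z / 8)
        have h4 := pow_le_pow_left₀ h2 (by linarith only [h3] : 1 + z / 8 ≤ Real.exp (z / 8)) 8
        rw [← Real.exp_nat_mul] at h4
        refine h4.trans (le_of_eq ?_)
        congr 1
        push_cast
        ring
    have hd8 : (0 : ℝ) < (8 * S * T) ^ 8 := by positivity
    rcases hc with hc | hc
    · rw [← hs, ← hW] at hc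
      have hc := Nat.le_of_ble_eq_true hc
      have hc' : ((p * (8 * S * 1024 * D * M) ^ 8 : ℕ) : ℝ) ≤ ((1024 * W ^ 8 : ℕ) : ℝ) := by
        exact_mod_cast hc
      push_cast at hc'
      have e6 : (8 * (S : ℝ) * 1024 * D * M) = 8 * S * T := by rw [hT]; ring
      rw [e6] at hc'
      have h5 : (p : ℝ) / 1024 ≤ ((W : ℝ) / (8 * S * T)) ^ 8 := by
        rw [div_pow, div_le_div_iff₀ (by norm_num) hd8]
        linarith only [hc']
      calc (p : ℝ) / 1024 ≤ 1 * Real.exp z := by rw [one_mul]; exact h5.trans hexp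
        _ ≤ ‖v‖ * Real.exp z := mul_le_mul_of_nonneg_right hv (Real.exp_pos _).le
    · rw [← hs, ← hW] at hc
      have hc := Nat.le_of_ble_eq_true hc
      obtain ⟨L, hL⟩ : ∃ L : ℕ, L = l * r0 * 1024 - p * D * M := ⟨_, rfl⟩
      rw [← hL] at hc
      have hc' : ((p * D * M * (8 * S * 1024 * D * M) ^ 8 : ℕ) : ℝ) ≤ ((L * W ^ 8 : ℕ) : ℝ) := by
        exact_mod_cast hc
      push_cast at hc'
      have e6 : (8 * (S : ℝ) * 1024 * D * M) = 8 * S * T := by rw [hT]; ring
      rw [e6] at hc'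
      have hLv : (L : ℝ) / T ≤ ‖v‖ := by
        rw [hL, cast_tsub, div_le_iff₀ hTp]
        refine max_le ?_ (by positivity)
        push_cast
        have n2 : x - ‖v - (x : ℂ)‖ ≤ ‖v‖ := by
          have e : (x : ℂ) = v - (v - (x : ℂ)) := by ring
          have h5 := norm_sub_le v (v - (x : ℂ))
          rw [← e, Complex.norm_real, Real.norm_of_nonneg hx0] at h5
          linarith only [h5]
        have n3 : (l : ℝ) / D * (r0 / M) ≤ x := by
          rw [hx]
          exact mul_le_mul_of_nonneg_left h0 (by positivity)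
        have n4 : ((l : ℝ) / D * (r0 / M) - p / 1024) * T = (l : ℝ) * r0 * 1024 - p * D * M := by
          rw [hT]
          field_simp
        rw [← n4]
        apply mul_le_mul_of_nonneg_right _ hTp.le
        linarith only [hvr, n2, n3]
      have h5 : (p : ℝ) / 1024 ≤ (L : ℝ) / T * ((W : ℝ) / (8 * S * T)) ^ 8 := by
        rw [div_pow, div_mul_div_comm, div_le_div_iff₀ (by norm_num) (by positivity)]
        have e7 : (p : ℝ) * (T * (8 * S * T) ^ 8) = 1024 * (p * D * M * (8 * S * T) ^ 8) := by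
          nth_rewrite 1 [hT]
          ring
        rw [e7]
        linarith only [hc']
      refine h5.trans ?_
      exact mul_le_mul hLv hexp (by positivity) (norm_nonneg _)

theorem nodeR {M D r0 r1 l a h p : ℕ} (hc : nearR M D r0 r1 l a h p = true) (hM : 0 < M)
    (hD : 0 < D) (hl : l ≤ D) {R : ℝ} (h0 : (r0 : ℝ) / M ≤ R) (h1 : R ≤ (r1 : ℝ) / M)
    (hd : Dual R ((l : ℝ) / D * R) ((a : ℝ) / S) 0 ((h : ℝ) / S)) :
    NDual R ((l : ℝ) / D * R) 0 ((a : ℝ) / S) 0 0 ((h : ℝ) / S) ((p : ℝ) / 1024) := by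
  refine ⟨toO hd, fun v hv hvr => ?_⟩
  have e : (⟨(l : ℝ) / D * R, -0⟩ : ℂ) = (((l : ℝ) / D * R : ℝ) : ℂ) := by
    apply Complex.ext <;> simp
  rw [e] at hvr
  have := nearR_sound hc hM hD hl h0 h1 hv hvr
  refine this.trans (le_of_eq ?_)
  congr 2
  ring

/-! ## Chains of nodes -/

/-- rows `(l', a', h', c', p)`: the next node, its certificate and the radius of the row -/
def chainN (M D r0 r1 : ℕ) (need : ℕ → ℕ → ℕ → ℕ → ℕ → Bool) (lend : ℕ) :
    ℕ → ℕ → ℕ → List (ℕ × ℕ × ℕ × ℕ × ℕ) → Bool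
  | l, _, _, [] => Nat.ble lend l
  | l, a, h, (l', a', h', c', p) :: rest =>
    (chk M D l' r0 r1 a' 0 0 h' 0 c' && (Nat.ble l' D && Nat.blt 0 p)) &&
      ((nearR M D r0 r1 l a h p && nearR M D r0 r1 l' a' h' p) &&
        ((Nat.ble l l' && need l h l' h' p) && chainN M D r0 r1 need lend l' a' h' rest))

theorem chainN_sound {M D r0 r1 : ℕ} {need : ℕ → ℕ → ℕ → ℕ → ℕ → Bool} {lend : ℕ} (hM : 0 < M)
    (hD : 0 < D) {R : ℝ} (h0 : (r0 : ℝ) / M ≤ R) (h1 : R ≤ (r1 : ℝ) / M) {x : ℝ} :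
    ∀ (rows : List (ℕ × ℕ × ℕ × ℕ × ℕ)) (l a h : ℕ), l ≤ D →
      Dual R ((l : ℝ) / D * R) ((a : ℝ) / S) 0 ((h : ℝ) / S) →
      chainN M D r0 r1 need lend l a h rows = true → (l : ℝ) / D * R < x →
      x ≤ (lend : ℝ) / D * R →
      ∃ l1 h1 l2 h2 p a1 a2 : ℕ, need l1 h1 l2 h2 p = true ∧ l1 ≤ l2 ∧ 0 < p ∧
        (l1 : ℝ) / D * R < x ∧ x ≤ (l2 : ℝ) / D * R ∧
        NDual R ((l1 : ℝ) / D * R) 0 ((a1 : ℝ) / S) 0 0 ((h1 : ℝ) / S) ((p : ℝ) / 1024) ∧
        NDual R ((l2 : ℝ) / D * R) 0 ((a2 : ℝ) / S) 0 0 ((h2 : ℝ) / S) ((p : ℝ) / 1024) := by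
  intro rows
  induction rows with
  | nil =>
    intro l a h _ _ hl hx hx2
    unfold chainN at hl
    have h2 : lend ≤ l := Nat.le_of_ble_eq_true hl
    have hR0 : 0 ≤ R := le_trans (by positivity) h0
    have h3 : (lend : ℝ) / D * R ≤ (l : ℝ) / D * R := by
      apply mul_le_mul_of_nonneg_right _ hR0
      apply div_le_div_of_nonneg_right _ (Nat.cast_nonneg D)
      exact_mod_cast h2
    linarith only [hx, hx2, h3]
  | cons row rest ih =>
    intro l a h hlD hd hl hx hx2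
    obtain ⟨l', a', h', c', p⟩ := row
    unfold chainN at hl
    simp only [Bool.and_eq_true] at hl
    obtain ⟨⟨k0, k1, k2⟩, ⟨k3, k4⟩, ⟨k5, k6⟩, k7⟩ := hl
    have k1 : l' ≤ D := Nat.le_of_ble_eq_true k1
    have k2 : 0 < p := Nat.blt_eq.mp k2
    have k5 : l ≤ l' := Nat.le_of_ble_eq_true k5
    have d1 := chk_dual k0 h0 h1
    simp only [Nat.cast_zero, sub_zero, zero_div] at d1
    rcases le_or_gt x ((l' : ℝ) / D * R) with h4 | h4
    · exact ⟨l, h, l', h', p, a, a', k6, k5, k2, hx, h4, nodeR k3 hM hD hlD h0 h1 hd,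
        nodeR k4 hM hD k1 h0 h1 d1⟩
    · exact ih l' a' h' k1 d1 k7 h4 hx2

/-! ## The table -/

/-- one end of a row against one entry: `(c/1024) (l/D)² (rr/MM) + (l₂-l₁)² (r1/M)² / (8 D² ρ²)`
is at most `h / S` -/
def endOK (M D r1 rr MM dl p c l h : ℕ) : Bool :=
  Nat.ble (c * (l * l) * rr * S * (p * p) * (M * M) + 1024 * S * MM * (dl * dl) * (r1 * r1) * 131072)
    (h * 1024 * (D * D) * MM * (p * p) * (M * M))

/-- a row against the list -/
def needL (M D r0 r1 rr MM l h l' h' p : ℕ) : List (ℕ × ℕ) → Bool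
  | [] => true
  | (X, c) :: rest => (Nat.ble (X * D * M) (l * r0 * 1024) ||
      (endOK M D r1 rr MM (l' - l) p c l h && endOK M D r1 rr MM (l' - l) p c l' h')) &&
    needL M D r0 r1 rr MM l h l' h' p rest

theorem needL_mem {M D r0 r1 rr MM l h l' h' p : ℕ} {X c : ℕ} : ∀ {lst : List (ℕ × ℕ)},
    needL M D r0 r1 rr MM l h l' h' p lst = true → (X, c) ∈ lst →
    X * D * M ≤ l * r0 * 1024 ∨ (endOK M D r1 rr MM (l' - l) p c l h = true ∧
      endOK M D r1 rr MM (l' - l) p c l' h' = true) := by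
  intro lst
  induction lst with
  | nil => intro _ h; simp at h
  | cons q rest ih =>
    intro hl hm
    obtain ⟨X', c'⟩ := q
    unfold needL at hl
    simp only [Bool.and_eq_true, Bool.or_eq_true] at hl
    rcases List.mem_cons.1 hm with e | e
    · rw [Prod.mk.injEq] at e
      rw [e.1, e.2]
      rcases hl.1 with h | h
      · exact Or.inl (Nat.le_of_ble_eq_true h)
      · exact Or.inr h
    · exact ih hl.2 e

/-- the entries: `c / 1024 ≤ 1 / 2 - x₀ / 5` for the start `x₀ = l₀ r₁ / (D M)`, and `X` is covered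
by the chain -/
def lstOK (M D r0 r1 l0 lend : ℕ) : List (ℕ × ℕ) → Bool
  | [] => true
  | (X, c) :: rest => (Nat.ble (10 * c * (D * M) + 2048 * (l0 * r1)) (5120 * (D * M)) &&
      Nat.ble (X * D * M) (lend * r0 * 1024)) && lstOK M D r0 r1 l0 lend rest

theorem lstOK_mem {M D r0 r1 l0 lend : ℕ} {X c : ℕ} : ∀ {lst : List (ℕ × ℕ)},
    lstOK M D r0 r1 l0 lend lst = true → (X, c) ∈ lst →
    10 * c * (D * M) + 2048 * (l0 * r1) ≤ 5120 * (D * M) ∧ X * D * M ≤ lend * r0 * 1024 := by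
  intro lst
  induction lst with
  | nil => intro _ h; simp at h
  | cons q rest ih =>
    intro hl hm
    obtain ⟨X', c'⟩ := q
    unfold lstOK at hl
    simp only [Bool.and_eq_true] at hl
    rcases List.mem_cons.1 hm with e | e
    · rw [Prod.mk.injEq] at e
      rw [e.1, e.2]
      exact ⟨Nat.le_of_ble_eq_true hl.1.1, Nat.le_of_ble_eq_true hl.1.2⟩
    · exact ih hl.2 e

/-- `rr / MM ≥ R² / max 1 R` -/
def rrN (M r1 : ℕ) : ℕ := bif Nat.ble r1 M then r1 * r1 else r1
/-- `rr / MM ≥ R² / max 1 R` -/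
def mmN (M r1 : ℕ) : ℕ := bif Nat.ble r1 M then M * M else M

theorem mmN_pos {M r1 : ℕ} (hM : 0 < M) : 0 < mmN M r1 := by
  unfold mmN
  cases Nat.ble r1 M
  · rwa [cond_false]
  · rw [cond_true]
    exact Nat.mul_pos hM hM

theorem rr_le {M r1 : ℕ} (hM : 0 < M) {R : ℝ} (hR : 0 < R) (h1 : R ≤ (r1 : ℝ) / M) :
    R ^ 2 / max 1 R ≤ (rrN M r1 : ℝ) / mmN M r1 := by
  have hM' : (0 : ℝ) < M := by exact_mod_cast hM
  unfold rrN mmN
  cases Nat.ble r1 M
  · rw [cond_false, cond_false]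
    refine le_trans ?_ h1
    rw [div_le_iff₀ (lt_of_lt_of_le hR (le_max_right _ _)), sq]
    exact mul_le_mul_of_nonneg_left (le_max_right _ _) hR.le
  · rw [cond_true, cond_true]
    have h2 : R ^ 2 ≤ ((r1 : ℝ) / M) ^ 2 := pow_le_pow_left₀ hR.le h1 2
    push_cast
    rw [div_pow, sq, sq] at h2
    refine le_trans (div_le_self (sq_nonneg R) (le_max_left _ _)) ?_
    rw [sq]
    exact h2.trans (le_of_eq (by ring))

/-- **the table checker** -/
def tabOK (M D r0 r1 l0 a0 h0 c0 lend : ℕ) (lst : List (ℕ × ℕ))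
    (rows : List (ℕ × ℕ × ℕ × ℕ × ℕ)) : Bool :=
  ((Nat.blt 0 M && Nat.blt 0 D) && (Nat.ble (5 * (l0 * r1)) (D * M) && Nat.ble l0 D)) &&
    ((lstOK M D r0 r1 l0 lend lst && chk M D l0 r0 r1 a0 0 0 h0 0 c0) &&
      chainN M D r0 r1 (fun l h l' h' p => needL M D r0 r1 (rrN M r1) (mmN M r1) l h l' h' p lst)
        lend l0 a0 h0 rows)

theorem small_x {N : ℕ} (hN : 1 ≤ N) {w : Fin N → ℂ} {R x : ℝ} (hw : ∀ k, 1 ≤ ‖w k‖)
    (ht : ∑ k, ‖w k - (R : ℂ)‖ ≤ N) (hR : 4 / 5 ≤ R) (hR2 : R ≤ 21 / 10) (hx0 : 0 ≤ x)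
    (hx : x ≤ 1 / 5) :
    ‖qq (uu w) x‖ ≤ Real.exp (-(N * ((x ^ 2 / 2 - x ^ 3 / 5) / max 1 R))) := by
  rcases le_total R 1 with h | h
  · obtain ⟨α, hD⟩ := H81.dual_lo hR h hx0 (by linarith only [hx])
    have h2 := hD.qq_le hN hw ht
    rw [max_eq_left h, div_one]
    simpa using h2
  · have hKb : (1 + 2 * x ^ 2 / 15) * (1 + x) ^ 2 ≤ 1 + R := by
      have h1 : 1 + 2 * x ^ 2 / 15 ≤ 377 / 375 := by nlinarith only [hx0, hx]
      have h2 : (1 + x) ^ 2 ≤ 36 / 25 := by linarith only [hx, h1]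
      have h3 : (1 + 2 * x ^ 2 / 15) * (1 + x) ^ 2 ≤ 377 / 375 * (36 / 25) :=
        mul_le_mul h1 h2 (by positivity) (by norm_num)
      linarith only [h, h3]
    obtain ⟨α, hD⟩ := H81.dual_hi h hR2 hx0 (by linarith only [hx]) hKb
    have h2 := hD.qq_le hN hw ht
    rw [max_eq_right h]
    simpa using h2

theorem tab_sound {M D r0 r1 l0 a0 h0 c0 lend : ℕ} {lst : List (ℕ × ℕ)}
    {rows : List (ℕ × ℕ × ℕ × ℕ × ℕ)} (hc : tabOK M D r0 r1 l0 a0 h0 c0 lend lst rows = true)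
    {R : ℝ} (hr0 : (r0 : ℝ) / M ≤ R) (hr1 : R ≤ (r1 : ℝ) / M) (hR : 4 / 5 ≤ R)
    (hR2 : R ≤ 21 / 10) {N : ℕ} (hN : 1 ≤ N) {w : Fin N → ℂ} (hw : ∀ k, 1 ≤ ‖w k‖)
    (ht : ∑ k, ‖w k - (R : ℂ)‖ ≤ N) :
    ∀ q ∈ lst, ∀ x ∈ Set.Icc (0 : ℝ) ((q.1 : ℝ) / 1024),
      ‖qq (uu w) x‖ ≤ Real.exp (-(N * ((q.2 : ℝ) / 1024 * x ^ 2 / max 1 R))) := by
  rintro ⟨X, c⟩ hq x ⟨hx0, hx1⟩
  unfold tabOK at hc
  simp only [Bool.and_eq_true] at hc
  obtain ⟨⟨⟨c1, c2⟩, c3, c4⟩, ⟨c5, c6⟩, c7⟩ := hc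
  have c1 : 0 < M := Nat.blt_eq.mp c1
  have c2 : 0 < D := Nat.blt_eq.mp c2
  have c3 := Nat.le_of_ble_eq_true c3
  have c4 : l0 ≤ D := Nat.le_of_ble_eq_true c4
  obtain ⟨c8, c9⟩ := lstOK_mem c5 hq
  have hM : (0 : ℝ) < M := by exact_mod_cast c1
  have hD : (0 : ℝ) < D := by exact_mod_cast c2
  have hRp : 0 < R := by linarith only [hR]
  have hNp : (0 : ℝ) < N := by exact_mod_cast hN
  have hm : 0 < max 1 R := lt_of_lt_of_le one_pos (le_max_left _ _)
  simp only at hx1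
  rcases le_or_gt x ((l0 : ℝ) / D * R) with h4 | h4
  · -- small `x`
    have h5 : x ≤ 1 / 5 := by
      refine h4.trans ((mul_le_mul_of_nonneg_left hr1 (by positivity)).trans ?_)
      rw [div_mul_div_comm, div_le_div_iff₀ (by positivity) (by norm_num)]
      have : ((5 * (l0 * r1) : ℕ) : ℝ) ≤ ((D * M : ℕ) : ℝ) := by exact_mod_cast c3
      push_cast at this
      linarith only [this]
    refine (small_x hN hw ht hR hR2 hx0 h5).trans (Real.exp_le_exp.2 (neg_le_neg ?_))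
    apply mul_le_mul_of_nonneg_left _ hNp.le
    apply div_le_div_of_nonneg_right _ hm.le
    have h6 : (c : ℝ) / 1024 ≤ 1 / 2 - x / 5 := by
      have g1 : x ≤ ((l0 : ℝ) * r1) / (D * M) := by
        refine h4.trans ((mul_le_mul_of_nonneg_left hr1 (by positivity)).trans (le_of_eq ?_))
        rw [div_mul_div_comm]
      have g2 : ((10 * c * (D * M) + 2048 * (l0 * r1) : ℕ) : ℝ) ≤ ((5120 * (D * M) : ℕ) : ℝ) := by
        exact_mod_cast c8
      push_cast at g2
      have g3 : (c : ℝ) / 1024 + ((l0 : ℝ) * r1) / (D * M) / 5 ≤ 1 / 2 := by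
        have e : (c : ℝ) / 1024 + ((l0 : ℝ) * r1) / (D * M) / 5 =
            (10 * c * (D * M) + 2048 * (l0 * r1)) / (10240 * (D * M)) := by
          field_simp
          ring
        rw [e, div_le_iff₀ (by positivity)]
        linarith only [g2]
      linarith only [g1, g3]
    have h7 : x ^ 2 / 2 - x ^ 3 / 5 = (1 / 2 - x / 5) * x ^ 2 := by ring
    rw [h7]
    apply mul_le_mul_of_nonneg_right _ (sq_nonneg x)
    simp only
    linarith only [h6]
  · have hxl : x ≤ (lend : ℝ) / D * R := by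
      refine hx1.trans ?_
      refine le_trans ?_ (mul_le_mul_of_nonneg_left hr0 (by positivity))
      rw [div_mul_div_comm, div_le_div_iff₀ (by norm_num) (by positivity)]
      have : ((X * D * M : ℕ) : ℝ) ≤ ((lend * r0 * 1024 : ℕ) : ℝ) := by exact_mod_cast c9
      push_cast at this
      linarith only [this]
    have d0 := chk_dual c6 hr0 hr1
    simp only [Nat.cast_zero, sub_zero, zero_div] at d0
    obtain ⟨l1, h1, l2, h2, p, a1, a2, g1, g2, g3, g4, g5, g6, g7⟩ :=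
      chainN_sound c1 c2 hr0 hr1 rows l0 a0 h0 c4 d0 c7 h4 hxl
    have hp : (0 : ℝ) < p := by exact_mod_cast g3
    have hSp := S_pos
    rcases needL_mem g1 hq with g | ⟨e0, e1⟩
    · exfalso
      have : ((X * D * M : ℕ) : ℝ) ≤ ((l1 * r0 * 1024 : ℕ) : ℝ) := by exact_mod_cast g
      push_cast at this
      have h5 : (X : ℝ) / 1024 ≤ (l1 : ℝ) / D * R := by
        refine le_trans ?_ (mul_le_mul_of_nonneg_left hr0 (by positivity))
        rw [div_mul_div_comm, div_le_div_iff₀ (by norm_num) (by positivity)]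
        linarith only [this]
      linarith only [hx1, g4, h5]
    · obtain ⟨x0, hx0'⟩ : ∃ x0 : ℝ, x0 = (l1 : ℝ) / D * R := ⟨_, rfl⟩
      obtain ⟨x1, hx1'⟩ : ∃ x1 : ℝ, x1 = (l2 : ℝ) / D * R := ⟨_, rfl⟩
      obtain ⟨ρ, hρ⟩ : ∃ ρ : ℝ, ρ = (p : ℝ) / 1024 := ⟨_, rfl⟩
      have hρp : 0 < ρ := by rw [hρ]; positivity
      rw [← hx0', ← hρ] at g6
      rw [← hx1', ← hρ] at g7
      rw [← hx0'] at g4
      rw [← hx1'] at g5
      have hx01 : x0 < x1 := lt_of_lt_of_le g4 g5
      have hd : 0 < x1 - x0 := by linarith only [g4, g5]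
      obtain ⟨t, ht'⟩ : ∃ t, t = (x - x0) / (x1 - x0) := ⟨_, rfl⟩
      have ht0 : 0 ≤ t := by
        rw [ht']
        exact div_nonneg (by linarith only [g4]) hd.le
      have ht1 : t ≤ 1 := by
        rw [ht', div_le_one hd]
        linarith only [g5]
      have hω : ‖(1 : ℂ)‖ = 1 := norm_one
      have ey0 : (x0 : ℂ) * 1 = ⟨x0, -0⟩ := by
        apply Complex.ext <;> simp
      have ey1 : (x1 : ℂ) * 1 = ⟨x1, -0⟩ := by
        apply Complex.ext <;> simp
      have key := NDual.qq_le hN hρp hx01.le g6 g7 hω ey0 ey1 hw ht ht0 ht1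
      have ex : (1 - t) * x0 + t * x1 = x := by
        rw [ht']
        field_simp
        ring
      have er : ru w 1 = uu w := by
        funext k
        unfold ru
        rw [one_mul]
      rw [ex, er] at key
      refine key.trans (Real.exp_le_exp.2 ?_)
      unfold VV
      simp only [zero_mul, add_zero]
      rw [← mul_neg]
      apply mul_le_mul_of_nonneg_left _ hNp.le
      -- the two ends
      have hκ := rr_le (r1 := r1) c1 hRp hr1
      have hMM : (0 : ℝ) < mmN M r1 := by exact_mod_cast mmN_pos c1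
      have E : ∀ {l h : ℕ}, endOK M D r1 (rrN M r1) (mmN M r1) (l2 - l1) p c l h = true →
          (c : ℝ) / 1024 * (((l : ℝ) / D * R) ^ 2 / max 1 R) + (x1 - x0) ^ 2 / (8 * ρ ^ 2) ≤
            (h : ℝ) / S := by
        intro l h he
        unfold endOK at he
        have he := Nat.le_of_ble_eq_true he
        have he' : ((c * (l * l) * rrN M r1 * S * (p * p) * (M * M) + 1024 * S * mmN M r1 *
            ((l2 - l1) * (l2 - l1)) * (r1 * r1) * 131072 : ℕ) : ℝ) ≤
            ((h * 1024 * (D * D) * mmN M r1 * (p * p) * (M * M) : ℕ) : ℝ) := by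
          exact_mod_cast he
        push_cast [Nat.cast_sub g2] at he'
        have b1 : (c : ℝ) / 1024 * (((l : ℝ) / D * R) ^ 2 / max 1 R) ≤
            (c : ℝ) / 1024 * (((l : ℝ) / D) ^ 2 * ((rrN M r1 : ℝ) / mmN M r1)) := by
          apply mul_le_mul_of_nonneg_left _ (by positivity)
          rw [mul_pow, mul_div_assoc]
          exact mul_le_mul_of_nonneg_left hκ (by positivity)
        have b2 : (x1 - x0) ^ 2 / (8 * ρ ^ 2) ≤
            (((l2 : ℝ) - l1) / D * (r1 / M)) ^ 2 / (8 * ρ ^ 2) := by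
          apply div_le_div_of_nonneg_right _ (by positivity)
          apply pow_le_pow_left₀ hd.le
          have e : x1 - x0 = ((l2 : ℝ) - l1) / D * R := by
            rw [hx0', hx1']
            ring
          rw [e]
          apply mul_le_mul_of_nonneg_left hr1
          apply div_nonneg _ hD.le
          have : (l1 : ℝ) ≤ l2 := by exact_mod_cast g2
          linarith only [this]
        have b3 : (c : ℝ) / 1024 * (((l : ℝ) / D) ^ 2 * ((rrN M r1 : ℝ) / mmN M r1)) +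
            (((l2 : ℝ) - l1) / D * (r1 / M)) ^ 2 / (8 * ρ ^ 2) =
            (c * (l * l) * rrN M r1 * S * (p * p) * (M * M) + 1024 * S * mmN M r1 *
              ((l2 - l1) * (l2 - l1)) * (r1 * r1) * 131072) /
              (1024 * S * (D * D) * mmN M r1 * (p * p) * (M * M)) := by
          rw [hρ]
          field_simp
          ring
        have b4 : (c * (l * l) * rrN M r1 * S * (p * p) * (M * M) + 1024 * S * mmN M r1 *
              ((l2 - l1) * (l2 - l1)) * (r1 * r1) * 131072) /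
              (1024 * S * (D * D) * mmN M r1 * (p * p) * (M * M)) ≤ (h : ℝ) / S := by
          rw [div_le_div_iff₀ (by positivity) hSp]
          have b5 := mul_le_mul_of_nonneg_right he' hSp.le
          refine b5.trans (le_of_eq ?_)
          ring
        linarith only [b1, b2, b3, b4]
      have E0 := E e0
      have E1 := E e1
      rw [← hx0'] at E0
      rw [← hx1'] at E1
      have hx2 : x ^ 2 ≤ (1 - t) * x0 ^ 2 + t * x1 ^ 2 := by
        rw [← ex]
        linarith only [ht0, ht1, mul_nonneg (mul_nonneg ht0 (by linarith : 0 ≤ 1 - t)) (sq_nonneg (x1 - x0))]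
      have hm2 : x ^ 2 / max 1 R ≤ (1 - t) * (x0 ^ 2 / max 1 R) + t * (x1 ^ 2 / max 1 R) := by
        rw [← mul_div_assoc, ← mul_div_assoc, ← add_div]
        exact div_le_div_of_nonneg_right hx2 hm.le
      have hl : t * (1 - t) * (x1 - x0) ^ 2 / (2 * ρ ^ 2) ≤ (x1 - x0) ^ 2 / (8 * ρ ^ 2) := by
        rw [div_le_div_iff₀ (by positivity) (by positivity)]
        have h3 : t * (1 - t) ≤ 1 / 4 := by linarith only [sq_nonneg (t - 1 / 2)]
        have h4 := mul_le_mul_of_nonneg_right h3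
          (mul_nonneg (sq_nonneg (x1 - x0)) (sq_nonneg ρ))
        linarith only [h4]
      have c0' : (0 : ℝ) ≤ (c : ℝ) / 1024 := by positivity
      have f1 := mul_le_mul_of_nonneg_left hm2 c0'
      have f2 := mul_le_mul_of_nonneg_left E0 (by linarith only [ht1] : 0 ≤ 1 - t)
      have f3 := mul_le_mul_of_nonneg_left E1 ht0
      have f4 : (c : ℝ) / 1024 * ((1 - t) * (x0 ^ 2 / max 1 R) + t * (x1 ^ 2 / max 1 R)) +
          (x1 - x0) ^ 2 / (8 * ρ ^ 2) ≤ (1 - t) * ((h1 : ℝ) / S) + t * ((h2 : ℝ) / S) :=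
        le_trans (le_of_eq (by ring)) (add_le_add f2 f3)
      have f5 : (c : ℝ) / 1024 * x ^ 2 / max 1 R = (c : ℝ) / 1024 * (x ^ 2 / max 1 R) :=
        mul_div_assoc _ _ _
      rw [f5]
      linarith only [hl, f1, f2, f3]

end Pool.Agent.Lib.MP_af3a4a_an.P1.CHK.H39.Tab
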