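import Pool.Agent.Lib.MP_af3a4a_an.P1.CHK.H39.Tab
import Pool.Agent.Lib.MP_af3a4a_an.P1.H81.ZoneA

/-!
# Tables of slope bounds of `|q|` (helper39, council 2)

As `Tab`, with duals that contain the mean `m₁ = Re av u`: for `X₀ / 1024 ≤ x ≤ X / 1024` and
`mₐ / 1024 ≤ m₁ ≤ m_b / 1024`, an entry `(X, c, g, k)` gives
`|q(x)| ≤ exp(-N ((c / 1024) x² / M + (g / 1024) x m₁ - (k / 1024) x² m₁ / M))`, `M = max 1 R`.
-/

set_option autoImplicit false

namespace Pool.Agent.Lib.MP_af3a4a_an.P1.CHK.H39.TabS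

open Pool.Agent.Lib.MP_af3a4a_an.SV (uu av)
open Pool.Agent.Lib.MP_af3a4a_an.P1.H74 Pool.Agent.Lib.MP_af3a4a_an.P1.H80
open Pool.Agent.Lib.MP_af3a4a_an.P1.CHK.H58
open Pool.Agent.Lib.MP_af3a4a_an.P1.CHK.H74 (ODual)
open Pool.Agent.Lib.MP_af3a4a_an.P1.CHK.H39.Interp (NDual VV)
open Pool.Agent.Lib.MP_af3a4a_an.P1.CHK.H39.Tab (S_pos cast_tsub)

theorem toO {R x α γ h : ℝ} (hD : Dual R x α γ h) : ODual R x 0 α (γ * R) 0 h := by
  refine ⟨hD.nonneg, fun v hv => ?_⟩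
  have := hD.le v hv
  have e : (⟨x, -0⟩ : ℂ) = (x : ℂ) := by
    apply Complex.ext <;> simp
  rw [e]
  refine this.trans (le_of_eq ?_)
  congr 1
  ring

/-- the radius `p / 1024` at the node `l / D`, multipliers `a / S`, `(gp - gn) / S`, value
`(hp - hn) / S` -/
def nearS (M D r0 r1 l a gg hp hn p : ℕ) : Bool :=
  Nat.ble (l * r1 * 1024 + p * D * M) (1024 * D * M) ||
  (Nat.ble (p * (8 * S * 1024 * D * M) ^ 8) (1024 *
      (8 * S * 1024 * D * M + a * ((D - l) * r0 * 1024 - p * D * M) + hn * (1024 * D * M) -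
        ((a + hp) * (1024 * D * M) + gg * (r1 * 1024 * D))) ^ 8) ||
    Nat.ble (p * D * M * (8 * S * 1024 * D * M) ^ 8) ((l * r0 * 1024 - p * D * M) *
      (8 * S * 1024 * D * M + a * ((D - l) * r0 * 1024 - p * D * M) + hn * (1024 * D * M) -
        ((a + hp) * (1024 * D * M) + gg * (r1 * 1024 * D))) ^ 8))

theorem nearS_sound {M D r0 r1 l a gp gn hp hn p : ℕ}
    (hc : nearS M D r0 r1 l a (gp + gn) hp hn p = true) (hM : 0 < M)
    (hD : 0 < D) (hl : l ≤ D) {R : ℝ} (h0 : (r0 : ℝ) / M ≤ R) (h1 : R ≤ (r1 : ℝ) / M) {v : ℂ}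
    (hv : 1 ≤ ‖v‖) (hvr : ‖v - ((l : ℝ) / D * R : ℝ)‖ < (p : ℝ) / 1024) :
    (p : ℝ) / 1024 ≤ ‖v‖ * Real.exp ((a : ℝ) / S * (‖v - R‖ - 1) -
      ((gp : ℝ) - gn) / S * R * (v⁻¹).re - ((hp : ℝ) - hn) / S) := by
  have hM' : (0 : ℝ) < M := by exact_mod_cast hM
  have hD' : (0 : ℝ) < D := by exact_mod_cast hD
  have hl' : (l : ℝ) ≤ D := by exact_mod_cast hl
  have hR0 : 0 ≤ R := le_trans (by positivity) h0
  have hSp := S_pos
  obtain ⟨x, hx⟩ : ∃ x : ℝ, x = (l : ℝ) / D * R := ⟨_, rfl⟩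
  have hx0 : 0 ≤ x := by rw [hx]; positivity
  rw [← hx] at hvr
  have n1 : ‖v‖ - ‖v - (x : ℂ)‖ ≤ x := by
    have e : v = (v - (x : ℂ)) + (x : ℂ) := by ring
    have := norm_add_le (v - (x : ℂ)) (x : ℂ)
    rw [← e, Complex.norm_real, Real.norm_of_nonneg hx0] at this
    linarith only [this]
  unfold nearS at hc
  simp only [Bool.or_eq_true] at hc
  rcases hc with hc | hc
  · exfalso
    have hc := Nat.le_of_ble_eq_true hc
    have hc' : ((l * r1 * 1024 + p * D * M : ℕ) : ℝ) ≤ ((1024 * D * M : ℕ) : ℝ) := by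
      exact_mod_cast hc
    push_cast at hc'
    have h2 : x ≤ (l : ℝ) / D * (r1 / M) := by
      rw [hx]
      exact mul_le_mul_of_nonneg_left h1 (by positivity)
    have h3 : (l : ℝ) / D * (r1 / M) + (p : ℝ) / 1024 ≤ 1 := by
      rw [div_mul_div_comm, div_add_div _ _ (by positivity) (by norm_num),
        div_le_one (by positivity)]
      linarith only [hc']
    linarith only [hv, hvr, n1, h2, h3]
  · -- the slope term
    have hinv : |(v⁻¹).re| ≤ 1 := by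
      refine (Complex.abs_re_le_norm _).trans ?_
      rw [norm_inv]
      exact inv_le_one_of_one_le₀ hv
    have hslope : -(((gp : ℝ) + gn) / S * (r1 / M)) ≤ -(((gp : ℝ) - gn) / S * R * (v⁻¹).re) := by
      rw [neg_le_neg_iff]
      have b1 : ((gp : ℝ) - gn) / S * R * (v⁻¹).re ≤ |((gp : ℝ) - gn) / S * R * (v⁻¹).re| :=
        le_abs_self _
      refine b1.trans ?_
      rw [abs_mul, abs_mul, abs_of_nonneg hR0]
      have b2 : |((gp : ℝ) - gn) / S| ≤ ((gp : ℝ) + gn) / S := by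
        rw [abs_div, abs_of_pos hSp]
        apply div_le_div_of_nonneg_right _ hSp.le
        rw [abs_le]
        have g1 : (0 : ℝ) ≤ gp := Nat.cast_nonneg _
        have g2 : (0 : ℝ) ≤ gn := Nat.cast_nonneg _
        constructor <;> linarith
      calc |((gp : ℝ) - gn) / S| * R * |(v⁻¹).re| ≤ ((gp : ℝ) + gn) / S * (r1 / M) * 1 := by
            apply mul_le_mul _ hinv (abs_nonneg _) (by positivity)
            exact mul_le_mul b2 h1 hR0 (by positivity)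
        _ = _ := mul_one _
    -- the exponential
    obtain ⟨T, hT⟩ : ∃ T : ℝ, T = 1024 * D * M := ⟨_, rfl⟩
    have hTp : 0 < T := by rw [hT]; positivity
    obtain ⟨s, hs⟩ : ∃ s : ℕ, s = (D - l) * r0 * 1024 - p * D * M := ⟨_, rfl⟩
    have hsr : (s : ℝ) / T ≤ ‖v - R‖ := by
      rw [hs, cast_tsub]
      rw [div_le_iff₀ hTp]
      refine max_le ?_ (by positivity)
      push_cast [Nat.cast_sub hl]
      have n2 : R - x - ‖v - (x : ℂ)‖ ≤ ‖v - R‖ := by
        have e : ((R - x : ℝ) : ℂ) = (v - (x : ℂ)) - (v - (R : ℂ)) := by push_cast; ring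
        have h5 := norm_sub_le (v - (x : ℂ)) (v - (R : ℂ))
        rw [← e, Complex.norm_real] at h5
        have h6 := le_abs_self (R - x)
        rw [← Real.norm_eq_abs] at h6
        linarith only [h5, h6]
      have n3 : ((D : ℝ) - l) / D * (r0 / M) ≤ R - x := by
        have e : R - x = ((D : ℝ) - l) / D * R := by
          rw [hx]
          field_simp
        rw [e]
        exact mul_le_mul_of_nonneg_left h0 (div_nonneg (by linarith only [hl']) hD'.le)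
      have n4 : (((D : ℝ) - l) / D * (r0 / M) - p / 1024) * T =
          ((D : ℝ) - l) * r0 * 1024 - p * D * M := by
        rw [hT]
        field_simp
      rw [← n4]
      apply mul_le_mul_of_nonneg_right _ hTp.le
      linarith only [hvr, n2, n3]
    obtain ⟨z, hz⟩ : ∃ z : ℝ, z = (a : ℝ) / S * (‖v - R‖ - 1) -
      ((gp : ℝ) - gn) / S * R * (v⁻¹).re - ((hp : ℝ) - hn) / S := ⟨_, rfl⟩
    rw [← hz]
    obtain ⟨W, hW⟩ : ∃ W : ℕ, W = 8 * S * 1024 * D * M + a * s + hn * (1024 * D * M) -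
        ((a + hp) * (1024 * D * M) + (gp + gn) * (r1 * 1024 * D)) := ⟨_, rfl⟩
    have hWr : (W : ℝ) / (8 * S * T) ≤ max (1 + z / 8) 0 := by
      rw [hW, cast_tsub, div_le_iff₀ (by positivity)]
      refine max_le ?_ (mul_nonneg (le_max_right _ _) (by positivity))
      have e1 : 8 * (S : ℝ) * T + a * s + hn * T - ((a + hp) * T + (gp + gn) * (r1 / M) * T) ≤
          (1 + z / 8) * (8 * S * T) := by
        have e2 : (a : ℝ) / S * (s / T - 1) - ((gp : ℝ) + gn) / S * (r1 / M) -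
            ((hp : ℝ) - hn) / S ≤ z := by
          rw [hz]
          have e3 : (a : ℝ) / S * (s / T - 1) ≤ (a : ℝ) / S * (‖v - R‖ - 1) :=
            mul_le_mul_of_nonneg_left (by linarith only [hsr]) (by positivity)
          linarith only [hslope, e3]
        have e4 : 8 * (S : ℝ) * T + a * s + hn * T - ((a + hp) * T + (gp + gn) * (r1 / M) * T) =
            (1 + ((a : ℝ) / S * (s / T - 1) - ((gp : ℝ) + gn) / S * (r1 / M) -
              ((hp : ℝ) - hn) / S) / 8) * (8 * S * T) := by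
          field_simp
          ring
        rw [e4]
        apply mul_le_mul_of_nonneg_right _ (by positivity)
        linarith only [e2]
      have e5 : (((8 * S * 1024 * D * M + a * s + hn * (1024 * D * M) : ℕ) : ℝ) -
          (((a + hp) * (1024 * D * M) + (gp + gn) * (r1 * 1024 * D) : ℕ))) =
          8 * (S : ℝ) * T + a * s + hn * T - ((a + hp) * T + (gp + gn) * (r1 / M) * T) := by
        rw [hT]
        push_cast
        field_simp
      rw [e5]
      refine e1.trans ?_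
      exact mul_le_mul_of_nonneg_right (le_max_left _ _) (by positivity)
    have hexp : ((W : ℝ) / (8 * S * T)) ^ 8 ≤ Real.exp z := by
      refine (pow_le_pow_left₀ (by positivity) hWr 8).trans ?_
      rcases le_total (1 + z / 8) 0 with h2 | h2
      · rw [max_eq_right h2]
        norm_num
        exact (Real.exp_pos _).le
      · rw [max_eq_left h2]
        have h3 := Real.add_one_le_exp (z / 8)
        have h4 := pow_le_pow_left₀ h2 (by linarith only [h3] : 1 + z / 8 ≤ Real.exp (z / 8)) 8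
        rw [← Real.exp_nat_mul] at h4
        refine h4.trans (le_of_eq ?_)
        congr 1
        push_cast
        ring
    have hd8 : (0 : ℝ) < (8 * S * T) ^ 8 := by positivity
    rcases hc with hc | hc
    · rw [← hs, ← hW] at hc
      have hc := Nat.le_of_ble_eq_true hc
      have hc' : ((p * (8 * S * 1024 * D * M) ^ 8 : ℕ) : ℝ) ≤ ((1024 * W ^ 8 : ℕ) : ℝ) := by
        exact_mod_cast hc
      push_cast at hc'
      have e6 : (8 * (S : ℝ) * 1024 * D * M) = 8 * S * T := by rw [hT]; ring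
      rw [e6] at hc'
      have h5 : (p : ℝ) / 1024 ≤ ((W : ℝ) / (8 * S * T)) ^ 8 := by
        rw [div_pow, div_le_div_iff₀ (by norm_num) hd8]
        linarith only [hc']
      calc (p : ℝ) / 1024 ≤ 1 * Real.exp z := by rw [one_mul]; exact h5.trans hexp
        _ ≤ ‖v‖ * Real.exp z := mul_le_mul_of_nonneg_right hv (Real.exp_pos _).le
    · rw [← hs, ← hW] at hc
      have hc := Nat.le_of_ble_eq_true hc
      obtain ⟨L, hL⟩ : ∃ L : ℕ, L = l * r0 * 1024 - p * D * M := ⟨_, rfl⟩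
      rw [← hL] at hc
      have hc' : ((p * D * M * (8 * S * 1024 * D * M) ^ 8 : ℕ) : ℝ) ≤ ((L * W ^ 8 : ℕ) : ℝ) := by
        exact_mod_cast hc
      push_cast at hc'
      have e6 : (8 * (S : ℝ) * 1024 * D * M) = 8 * S * T := by rw [hT]; ring
      rw [e6] at hc'
      have hLv : (L : ℝ) / T ≤ ‖v‖ := by
        rw [hL, cast_tsub, div_le_iff₀ hTp]
        refine max_le ?_ (by positivity)
        push_cast
        have n2 : x - ‖v - (x : ℂ)‖ ≤ ‖v‖ := by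
          have e : (x : ℂ) = v - (v - (x : ℂ)) := by ring
          have h5 := norm_sub_le v (v - (x : ℂ))
          rw [← e, Complex.norm_real, Real.norm_of_nonneg hx0] at h5
          linarith only [h5]
        have n3 : (l : ℝ) / D * (r0 / M) ≤ x := by
          rw [hx]
          exact mul_le_mul_of_nonneg_left h0 (by positivity)
        have n4 : ((l : ℝ) / D * (r0 / M) - p / 1024) * T = (l : ℝ) * r0 * 1024 - p * D * M := by
          rw [hT]
          field_simp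
        rw [← n4]
        apply mul_le_mul_of_nonneg_right _ hTp.le
        linarith only [hvr, n2, n3]
      have h5 : (p : ℝ) / 1024 ≤ (L : ℝ) / T * ((W : ℝ) / (8 * S * T)) ^ 8 := by
        rw [div_pow, div_mul_div_comm, div_le_div_iff₀ (by norm_num) (by positivity)]
        have e7 : (p : ℝ) * (T * (8 * S * T) ^ 8) = 1024 * (p * D * M * (8 * S * T) ^ 8) := by
          nth_rewrite 1 [hT]
          ring
        rw [e7]
        linarith only [hc']
      refine h5.trans ?_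
      exact mul_le_mul hLv hexp (by positivity) (norm_nonneg _)

/-- the dual at a node -/
def ND (R : ℝ) (D l gp gn hp hn p : ℕ) : Prop :=
  ∃ α : ℝ, NDual R ((l : ℝ) / D * R) 0 α (((gp : ℝ) - gn) / S * R) 0 (((hp : ℝ) - hn) / S)
    ((p : ℝ) / 1024)

theorem nodeS {M D r0 r1 l a gp gn hp hn p : ℕ}
    (hc : nearS M D r0 r1 l a (gp + gn) hp hn p = true) (hM : 0 < M)
    (hD : 0 < D) (hl : l ≤ D) {R : ℝ} (h0 : (r0 : ℝ) / M ≤ R) (h1 : R ≤ (r1 : ℝ) / M)
    (hd : Dual R ((l : ℝ) / D * R) ((a : ℝ) / S) (((gp : ℝ) - gn) / S) (((hp : ℝ) - hn) / S)) :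
    ND R D l gp gn hp hn p := by
  refine ⟨(a : ℝ) / S, toO hd, fun v hv hvr => ?_⟩
  have e : (⟨(l : ℝ) / D * R, -0⟩ : ℂ) = (((l : ℝ) / D * R : ℝ) : ℂ) := by
    apply Complex.ext <;> simp
  rw [e] at hvr
  have := nearS_sound hc hM hD hl h0 h1 hv hvr
  refine this.trans (le_of_eq ?_)
  congr 2
  ring

/-! ## Chains of nodes -/

/-- node data `(l, a, gp, gn, hp, hn)` -/
abbrev Nd := ℕ × ℕ × ℕ × ℕ × ℕ × ℕ

/-- the certificate of a node -/
def ndOK (M D r0 r1 : ℕ) (n : Nd) (c : ℕ) : Bool :=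
  match n with
  | (l, a, gp, gn, hp, hn) => chk M D l r0 r1 a gp gn hp hn c && Nat.ble l D

/-- the radius of a node -/
def ndNear (M D r0 r1 : ℕ) (n : Nd) (p : ℕ) : Bool :=
  match n with
  | (l, a, gp, gn, hp, hn) => nearS M D r0 r1 l a (gp + gn) hp hn p

/-- the prop of a node -/
def ndP (R : ℝ) (D : ℕ) (n : Nd) (p : ℕ) : Prop :=
  match n with
  | (l, _, gp, gn, hp, hn) => ND R D l gp gn hp hn p

theorem ndP_of {M D r0 r1 : ℕ} {n : Nd} {c p : ℕ} (h : ndOK M D r0 r1 n c = true)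
    (h' : ndNear M D r0 r1 n p = true) (hM : 0 < M) (hD : 0 < D) {R : ℝ}
    (h0 : (r0 : ℝ) / M ≤ R) (h1 : R ≤ (r1 : ℝ) / M) : ndP R D n p := by
  obtain ⟨l, a, gp, gn, hp, hn⟩ := n
  simp only [ndOK, Bool.and_eq_true] at h
  simp only [ndNear] at h'
  exact nodeS h' hM hD (Nat.le_of_ble_eq_true h.2) h0 h1 (chk_dual h.1 h0 h1)

/-- rows `(node, certificate, radius of the row)` -/
def chainS (M D r0 r1 : ℕ) (need : Nd → Nd → ℕ → Bool) (lend : ℕ) :
    Nd → List (Nd × ℕ × ℕ) → Bool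
  | n, [] => Nat.ble lend n.1
  | n, (n', c', p) :: rest =>
    (ndOK M D r0 r1 n' c' && Nat.blt 0 p) &&
      ((ndNear M D r0 r1 n p && ndNear M D r0 r1 n' p) &&
        ((Nat.ble n.1 n'.1 && need n n' p) && chainS M D r0 r1 need lend n' rest))

theorem chainS_sound {M D r0 r1 : ℕ} {need : Nd → Nd → ℕ → Bool} {lend : ℕ} (hM : 0 < M)
    (hD : 0 < D) {R : ℝ} (h0 : (r0 : ℝ) / M ≤ R) (h1 : R ≤ (r1 : ℝ) / M) {x : ℝ} :
    ∀ (rows : List (Nd × ℕ × ℕ)) (n : Nd) (c : ℕ), ndOK M D r0 r1 n c = true →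
      chainS M D r0 r1 need lend n rows = true → (n.1 : ℝ) / D * R < x →
      x ≤ (lend : ℝ) / D * R →
      ∃ n1 n2 : Nd, ∃ p : ℕ, need n1 n2 p = true ∧ n1.1 ≤ n2.1 ∧ 0 < p ∧
        (n1.1 : ℝ) / D * R < x ∧ x ≤ (n2.1 : ℝ) / D * R ∧ ndP R D n1 p ∧ ndP R D n2 p := by
  intro rows
  induction rows with
  | nil =>
    intro n c _ hl hx hx2
    unfold chainS at hl
    have h2 : lend ≤ n.1 := Nat.le_of_ble_eq_true hl
    have hR0 : 0 ≤ R := le_trans (by positivity) h0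
    have h3 : (lend : ℝ) / D * R ≤ (n.1 : ℝ) / D * R := by
      apply mul_le_mul_of_nonneg_right _ hR0
      apply div_le_div_of_nonneg_right _ (Nat.cast_nonneg D)
      exact_mod_cast h2
    linarith only [hx, hx2, h3]
  | cons row rest ih =>
    intro n c hn hl hx hx2
    obtain ⟨n', c', p⟩ := row
    unfold chainS at hl
    simp only [Bool.and_eq_true] at hl
    obtain ⟨⟨k0, k2⟩, ⟨k3, k4⟩, ⟨k5, k6⟩, k7⟩ := hl
    have k2 : 0 < p := Nat.blt_eq.mp k2
    have k5 : n.1 ≤ n'.1 := Nat.le_of_ble_eq_true k5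
    rcases le_or_gt x ((n'.1 : ℝ) / D * R) with h4 | h4
    · exact ⟨n, n', p, k6, k5, k2, hx, h4, ndP_of hn k3 hM hD h0 h1, ndP_of k0 k4 hM hD h0 h1⟩
    · exact ih n' c' k0 k7 h4 hx2

/-! ## The table -/

/-- `R² / max 1 R ≤ kap / M²` -/
def kapN (M r : ℕ) : ℕ := bif Nat.ble r M then r * r else r * M

theorem kap_le {M r1 : ℕ} (hM : 0 < M) {R : ℝ} (hR : 0 < R) (h1 : R ≤ (r1 : ℝ) / M) :
    R ^ 2 / max 1 R ≤ (kapN M r1 : ℝ) / (M : ℝ) ^ 2 := by
  have hM' : (0 : ℝ) < M := by exact_mod_cast hM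
  unfold kapN
  cases Nat.ble r1 M
  · rw [cond_false]
    push_cast
    have e : (r1 : ℝ) * M / (M : ℝ) ^ 2 = r1 / M := by
      field_simp
    rw [e]
    refine le_trans ?_ h1
    rw [div_le_iff₀ (lt_of_lt_of_le hR (le_max_right _ _)), sq]
    exact mul_le_mul_of_nonneg_left (le_max_right _ _) hR.le
  · rw [cond_true]
    push_cast
    have h2 : R ^ 2 ≤ ((r1 : ℝ) / M) ^ 2 := pow_le_pow_left₀ hR.le h1 2
    rw [div_pow] at h2
    refine le_trans (div_le_self (sq_nonneg R) (le_max_left _ _)) ?_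
    rw [← sq]
    exact h2

theorem le_kap {M r0 : ℕ} (hM : 0 < M) {R : ℝ} (hR : 0 < R) (h0 : (r0 : ℝ) / M ≤ R) :
    (kapN M r0 : ℝ) / (M : ℝ) ^ 2 ≤ R ^ 2 / max 1 R := by
  have hM' : (0 : ℝ) < M := by exact_mod_cast hM
  unfold kapN
  cases hb : Nat.ble r0 M
  · rw [cond_false]
    push_cast
    have e : (r0 : ℝ) * M / (M : ℝ) ^ 2 = r0 / M := by
      field_simp
    rw [e]
    have h2 : M < r0 := by
      by_contra hh
      rw [Nat.ble_eq_true_of_le (not_lt.1 hh)] at hb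
      exact absurd hb (by decide)
    have h3 : 1 ≤ (r0 : ℝ) / M := by
      rw [le_div_iff₀ hM', one_mul]
      exact_mod_cast h2.le
    have h4 : 1 ≤ R := h3.trans h0
    rw [max_eq_right h4, sq, mul_div_assoc, div_self hR.ne', mul_one]
    exact h0
  · rw [cond_true]
    push_cast
    have h2 : r0 ≤ M := Nat.le_of_ble_eq_true hb
    have h3 : (r0 : ℝ) / M ≤ 1 := by
      rw [div_le_one hM']
      exact_mod_cast h2
    have h5 : (r0 : ℝ) * r0 / (M : ℝ) ^ 2 = ((r0 : ℝ) / M) ^ 2 := by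
      rw [div_pow, sq (r0 : ℝ)]
    rw [h5, le_div_iff₀ (lt_of_lt_of_le hR (le_max_right _ _))]
    have h6 : 0 ≤ (r0 : ℝ) / M := by positivity
    rcases le_total 1 R with h | h
    · rw [max_eq_right h]
      have h7 : ((r0 : ℝ) / M) ^ 2 ≤ R := by nlinarith only [hR, h0, h3, h6]
      have h8 : (0 : ℝ) ≤ R := hR.le
      calc ((r0 : ℝ) / M) ^ 2 * R ≤ R * R := mul_le_mul_of_nonneg_right h7 h8
        _ = R ^ 2 := (sq R).symm
    · rw [max_eq_left h, mul_one]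
      exact pow_le_pow_left₀ h6 h0 2

/-- one end of a row against one entry `(c, g, k)` at `m₁ = m / 1024` (`kl`: the concave loss
`max 0 (k m_b - 1024 c)`) -/
def endS (M D r0 r1 dl p c g k kl m : ℕ) (n : Nd) : Bool :=
  match n with
  | (l, _, gp, gn, hp, hn) =>
    let E : ℤ := ((gp : ℤ) - gn) * (1024 * D) - g * l * S
    let Cc : ℤ := 1024 * c - k * m
    let r : ℕ := bif decide (0 ≤ E) then r0 else r1
    let kap : ℕ := bif decide (0 ≤ Cc) then kapN M r1 else kapN M r0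
    decide (0 ≤ 4 * (((hp : ℤ) - hn) * (1048576 * (D * D) * (M * M) * (p * p)) +
      E * (m * r * D * M * (p * p)) - Cc * (l * l * kap * S * (p * p)) -
      dl * dl * (r1 * r1) * 131072 * S * 1048576) - kl * (dl * dl) * kapN M r1 * S * (p * p))

/-- a row against the list -/
def needS (M D r0 r1 ma mb : ℕ) (n n' : Nd) (p : ℕ) : List (ℕ × ℕ × ℕ × ℕ) → Bool
  | [] => true
  | (X, c, g, k) :: rest => (Nat.ble (X * D * M) (n.1 * r0 * 1024) ||
      ((endS M D r0 r1 (n'.1 - n.1) p c g k (k * mb - 1024 * c) ma n &&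
        endS M D r0 r1 (n'.1 - n.1) p c g k (k * mb - 1024 * c) mb n) &&
      (endS M D r0 r1 (n'.1 - n.1) p c g k (k * mb - 1024 * c) ma n' &&
        endS M D r0 r1 (n'.1 - n.1) p c g k (k * mb - 1024 * c) mb n'))) &&
    needS M D r0 r1 ma mb n n' p rest

theorem needS_mem {M D r0 r1 ma mb : ℕ} {n n' : Nd} {p X c g k : ℕ} :
    ∀ {lst : List (ℕ × ℕ × ℕ × ℕ)},
    needS M D r0 r1 ma mb n n' p lst = true → (X, c, g, k) ∈ lst →
    X * D * M ≤ n.1 * r0 * 1024 ∨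
      ((endS M D r0 r1 (n'.1 - n.1) p c g k (k * mb - 1024 * c) ma n = true ∧
        endS M D r0 r1 (n'.1 - n.1) p c g k (k * mb - 1024 * c) mb n = true) ∧
      (endS M D r0 r1 (n'.1 - n.1) p c g k (k * mb - 1024 * c) ma n' = true ∧
        endS M D r0 r1 (n'.1 - n.1) p c g k (k * mb - 1024 * c) mb n' = true)) := by
  intro lst
  induction lst with
  | nil => intro _ h; simp at h
  | cons q rest ih =>
    intro hl hm
    obtain ⟨X', c', g', k'⟩ := q
    unfold needS at hl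
    simp only [Bool.and_eq_true, Bool.or_eq_true] at hl
    rcases List.mem_cons.1 hm with e | e
    · simp only [Prod.mk.injEq] at e
      obtain ⟨e1, e2, e3, e4⟩ := e
      rw [e1, e2, e3, e4]
      rcases hl.1 with h | h
      · exact Or.inl (Nat.le_of_ble_eq_true h)
      · exact Or.inr h
    · exact ih hl.2 e

/-- `X` is covered by the chain and lies above its start -/
def lstS (M D r0 r1 l0 X0 lend : ℕ) : List (ℕ × ℕ × ℕ × ℕ) → Bool
  | [] => Nat.blt (l0 * r1 * 1024) (X0 * D * M)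
  | (X, _, _, _) :: rest => Nat.ble (X * D * M) (lend * r0 * 1024) &&
    lstS M D r0 r1 l0 X0 lend rest

theorem lstS_mem {M D r0 r1 l0 X0 lend : ℕ} {X c g k : ℕ} : ∀ {lst : List (ℕ × ℕ × ℕ × ℕ)},
    lstS M D r0 r1 l0 X0 lend lst = true → (X, c, g, k) ∈ lst →
    l0 * r1 * 1024 < X0 * D * M ∧ X * D * M ≤ lend * r0 * 1024 := by
  intro lst hl hm
  have key : ∀ {lst : List (ℕ × ℕ × ℕ × ℕ)}, lstS M D r0 r1 l0 X0 lend lst = true →
      l0 * r1 * 1024 < X0 * D * M := by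
    intro lst
    induction lst with
    | nil => exact fun h => Nat.blt_eq.mp h
    | cons q rest ih =>
      intro h
      obtain ⟨X', c', g', k'⟩ := q
      unfold lstS at h
      simp only [Bool.and_eq_true] at h
      exact ih h.2
  refine ⟨key hl, ?_⟩
  induction lst with
  | nil => simp at hm
  | cons q rest ih =>
    obtain ⟨X', c', g', k'⟩ := q
    unfold lstS at hl
    simp only [Bool.and_eq_true] at hl
    rcases List.mem_cons.1 hm with e | e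
    · simp only [Prod.mk.injEq] at e
      rw [e.1]
      exact Nat.le_of_ble_eq_true hl.1
    · exact ih hl.2 e

/-- **the slope table checker** -/
def tabSOK (M D r0 r1 ma mb X0 : ℕ) (n0 : Nd) (c0 lend : ℕ) (lst : List (ℕ × ℕ × ℕ × ℕ))
    (rows : List (Nd × ℕ × ℕ)) : Bool :=
  ((Nat.blt 0 M && Nat.blt 0 D) && (Nat.blt 0 r0 && Nat.blt n0.1 lend)) &&
    ((lstS M D r0 r1 n0.1 X0 lend lst && ndOK M D r0 r1 n0 c0) &&
      chainS M D r0 r1 (fun n n' p => needS M D r0 r1 ma mb n n' p lst) lend n0 rows)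

/-- the real meaning of `endS` -/
theorem endS_sound {M D r0 r1 dl p c g k kl m : ℕ} {l a gp gn hp hn : ℕ}
    (he : endS M D r0 r1 dl p c g k kl m (l, a, gp, gn, hp, hn) = true) (hM : 0 < M) (hD : 0 < D)
    (hp0 : 0 < p) {R : ℝ} (hR : 0 < R) (h0 : (r0 : ℝ) / M ≤ R) (h1 : R ≤ (r1 : ℝ) / M) :
    ((c : ℝ) / 1024 - (k : ℝ) / 1024 * ((m : ℝ) / 1024)) * (((l : ℝ) / D) ^ 2 * (R ^ 2 / max 1 R)) +
      (g : ℝ) / 1024 * ((l : ℝ) / D * R) * ((m : ℝ) / 1024) +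
      ((dl : ℝ) / D * R) ^ 2 / (8 * ((p : ℝ) / 1024) ^ 2) +
      (kl : ℝ) / 1048576 * (((dl : ℝ) / D) ^ 2 * (R ^ 2 / max 1 R)) / 4 ≤
    ((hp : ℝ) - hn) / S + ((gp : ℝ) - gn) / S * R * ((m : ℝ) / 1024) := by
  have hM' : (0 : ℝ) < M := by exact_mod_cast hM
  have hD' : (0 : ℝ) < D := by exact_mod_cast hD
  have hp' : (0 : ℝ) < p := by exact_mod_cast hp0
  have hSp := S_pos
  have κ1 := kap_le (r1 := r1) hM hR h1
  have κ0 := le_kap hM hR h0
  obtain ⟨κ, hκ⟩ : ∃ κ, κ = R ^ 2 / max 1 R := ⟨_, rfl⟩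
  rw [← hκ] at κ1 κ0 ⊢
  unfold endS at he
  simp only [decide_eq_true_eq] at he
  obtain ⟨E, hE⟩ : ∃ E : ℤ, E = ((gp : ℤ) - gn) * (1024 * D) - g * l * S := ⟨_, rfl⟩
  obtain ⟨Cc, hCc⟩ : ∃ Cc : ℤ, Cc = 1024 * c - k * m := ⟨_, rfl⟩
  rw [← hE, ← hCc] at he
  -- the slope term
  have sE : ∃ r : ℕ, (bif decide (0 ≤ E) then r0 else r1) = r ∧
      (E : ℝ) * (r / M) ≤ (E : ℝ) * R := by
    by_cases hE0 : 0 ≤ E
    · refine ⟨r0, by simp [hE0], ?_⟩
      exact mul_le_mul_of_nonneg_left h0 (by exact_mod_cast hE0)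
    · refine ⟨r1, by simp [hE0], ?_⟩
      have : (E : ℝ) ≤ 0 := by exact_mod_cast (not_le.1 hE0).le
      exact mul_le_mul_of_nonpos_left h1 this
  have sC : ∃ kap : ℕ, (bif decide (0 ≤ Cc) then kapN M r1 else kapN M r0) = kap ∧
      (Cc : ℝ) * κ ≤ (Cc : ℝ) * (kap / (M : ℝ) ^ 2) := by
    by_cases hC0 : 0 ≤ Cc
    · refine ⟨kapN M r1, by simp [hC0], ?_⟩
      exact mul_le_mul_of_nonneg_left κ1 (by exact_mod_cast hC0)
    · refine ⟨kapN M r0, by simp [hC0], ?_⟩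
      have : (Cc : ℝ) ≤ 0 := by exact_mod_cast (not_le.1 hC0).le
      exact mul_le_mul_of_nonpos_left κ0 this
  obtain ⟨r, hr, hrE⟩ := sE
  obtain ⟨kap, hk, hkC⟩ := sC
  rw [hr, hk] at he
  have he' : (0 : ℝ) ≤ 4 * (((hp : ℝ) - hn) * (1048576 * (D * D) * (M * M) * (p * p)) +
      E * (m * r * D * M * (p * p)) - Cc * (l * l * kap * S * (p * p)) -
      dl * dl * (r1 * r1) * 131072 * S * 1048576) - kl * (dl * dl) * kapN M r1 * S * (p * p) := by
    exact_mod_cast he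
  -- divide
  have hdiv : (0 : ℝ) ≤ ((hp : ℝ) - hn) / S + E * (r / M) * ((m : ℝ) / (S * 1048576 * D)) -
      Cc * (kap / (M : ℝ) ^ 2) * (((l : ℝ) / D) ^ 2 / 1048576) -
      ((dl : ℝ) / D * (r1 / M)) ^ 2 / (8 * ((p : ℝ) / 1024) ^ 2) -
      (kl : ℝ) / 1048576 * (((dl : ℝ) / D) ^ 2 * (kapN M r1 / (M : ℝ) ^ 2)) / 4 := by
    have e : ((hp : ℝ) - hn) / S + E * (r / M) * ((m : ℝ) / (S * 1048576 * D)) -
        Cc * (kap / (M : ℝ) ^ 2) * (((l : ℝ) / D) ^ 2 / 1048576) -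
        ((dl : ℝ) / D * (r1 / M)) ^ 2 / (8 * ((p : ℝ) / 1024) ^ 2) -
        (kl : ℝ) / 1048576 * (((dl : ℝ) / D) ^ 2 * (kapN M r1 / (M : ℝ) ^ 2)) / 4 =
        (4 * (((hp : ℝ) - hn) * (1048576 * (D * D) * (M * M) * (p * p)) +
          E * (m * r * D * M * (p * p)) - Cc * (l * l * kap * S * (p * p)) -
          dl * dl * (r1 * r1) * 131072 * S * 1048576) -
          kl * (dl * dl) * kapN M r1 * S * (p * p)) /
          (4 * S * 1048576 * (D * D) * (M * M) * (p * p)) := by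
      field_simp
      ring
    rw [e]
    exact div_nonneg he' (by positivity)
  have t1 : (E : ℝ) * (r / M) * ((m : ℝ) / (S * 1048576 * D)) ≤
      (((gp : ℝ) - gn) / S * R * ((m : ℝ) / 1024) -
        (g : ℝ) / 1024 * ((l : ℝ) / D * R) * ((m : ℝ) / 1024)) := by
    refine (mul_le_mul_of_nonneg_right hrE (by positivity)).trans (le_of_eq ?_)
    rw [hE]
    push_cast
    field_simp
    ring
  have t2 : ((c : ℝ) / 1024 - (k : ℝ) / 1024 * ((m : ℝ) / 1024)) * (((l : ℝ) / D) ^ 2 * κ) ≤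
      Cc * (kap / (M : ℝ) ^ 2) * (((l : ℝ) / D) ^ 2 / 1048576) := by
    refine le_trans (le_of_eq ?_) (mul_le_mul_of_nonneg_right hkC (by positivity))
    rw [hCc]
    push_cast
    field_simp
    ring
  have t3 : ((dl : ℝ) / D * R) ^ 2 / (8 * ((p : ℝ) / 1024) ^ 2) ≤
      ((dl : ℝ) / D * (r1 / M)) ^ 2 / (8 * ((p : ℝ) / 1024) ^ 2) := by
    apply div_le_div_of_nonneg_right _ (by positivity)
    apply pow_le_pow_left₀ (by positivity)
    exact mul_le_mul_of_nonneg_left h1 (by positivity)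
  have t4 : (kl : ℝ) / 1048576 * (((dl : ℝ) / D) ^ 2 * κ) / 4 ≤
      (kl : ℝ) / 1048576 * (((dl : ℝ) / D) ^ 2 * (kapN M r1 / (M : ℝ) ^ 2)) / 4 := by
    apply div_le_div_of_nonneg_right _ (by norm_num)
    apply mul_le_mul_of_nonneg_left _ (by positivity)
    exact mul_le_mul_of_nonneg_left κ1 (by positivity)
  linarith only [hdiv, t1, t2, t3, t4]

/-- the target -/
noncomputable def TT (c g k m R x : ℝ) : ℝ := (c - k * m) * (x ^ 2 / max 1 R) + g * x * m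

/-- a node against the target, at every `m₁` of the cell -/
theorem end_all {M D r0 r1 dl p c g k kl ma mb : ℕ} {l a gp gn hp hn : ℕ}
    (ha : endS M D r0 r1 dl p c g k kl ma (l, a, gp, gn, hp, hn) = true)
    (hb : endS M D r0 r1 dl p c g k kl mb (l, a, gp, gn, hp, hn) = true) (hM : 0 < M) (hD : 0 < D)
    (hp0 : 0 < p) {R : ℝ} (hR : 0 < R) (h0 : (r0 : ℝ) / M ≤ R) (h1 : R ≤ (r1 : ℝ) / M) {m : ℝ}
    (hma : (ma : ℝ) / 1024 ≤ m) (hmb : m ≤ (mb : ℝ) / 1024) :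
    TT ((c : ℝ) / 1024) ((g : ℝ) / 1024) ((k : ℝ) / 1024) m R ((l : ℝ) / D * R) +
      (((dl : ℝ) / D * R) ^ 2 / (8 * ((p : ℝ) / 1024) ^ 2) +
        (kl : ℝ) / 1048576 * (((dl : ℝ) / D) ^ 2 * (R ^ 2 / max 1 R)) / 4) ≤
    ((hp : ℝ) - hn) / S + ((gp : ℝ) - gn) / S * R * m := by
  have A := endS_sound ha hM hD hp0 hR h0 h1
  have B := endS_sound hb hM hD hp0 hR h0 h1
  obtain ⟨L, hL⟩ : ∃ L, L = ((dl : ℝ) / D * R) ^ 2 / (8 * ((p : ℝ) / 1024) ^ 2) +
        (kl : ℝ) / 1048576 * (((dl : ℝ) / D) ^ 2 * (R ^ 2 / max 1 R)) / 4 := ⟨_, rfl⟩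
  obtain ⟨κ, hκ⟩ : ∃ κ, κ = R ^ 2 / max 1 R := ⟨_, rfl⟩
  have ex : ((l : ℝ) / D * R) ^ 2 / max 1 R = ((l : ℝ) / D) ^ 2 * κ := by
    rw [hκ, mul_pow, mul_div_assoc]
  unfold TT
  rw [← hL, ex]
  rw [add_assoc, ← hL, ← hκ] at A B
  -- linear in `m`
  obtain ⟨P, hP⟩ : ∃ P, P = ((gp : ℝ) - gn) / S * R + (k : ℝ) / 1024 * (((l : ℝ) / D) ^ 2 * κ) -
      (g : ℝ) / 1024 * ((l : ℝ) / D * R) := ⟨_, rfl⟩
  obtain ⟨Q, hQ⟩ : ∃ Q, Q = ((hp : ℝ) - hn) / S - (c : ℝ) / 1024 * (((l : ℝ) / D) ^ 2 * κ) - L :=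
    ⟨_, rfl⟩
  have A' : 0 ≤ Q + P * ((ma : ℝ) / 1024) := by
    rw [hQ, hP]
    linarith only [A]
  have B' : 0 ≤ Q + P * ((mb : ℝ) / 1024) := by
    rw [hQ, hP]
    linarith only [B]
  have key : 0 ≤ Q + P * m := by
    rcases le_total 0 P with h | h
    · have := mul_le_mul_of_nonneg_left hma h
      linarith only [A', this]
    · have := mul_le_mul_of_nonpos_left hmb h
      linarith only [B', this]
  rw [hQ, hP] at key
  linarith only [key]

theorem tabS_sound {M D r0 r1 ma mb X0 c0 lend : ℕ} {n0 : Nd} {lst : List (ℕ × ℕ × ℕ × ℕ)}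
    {rows : List (Nd × ℕ × ℕ)} (hc : tabSOK M D r0 r1 ma mb X0 n0 c0 lend lst rows = true)
    {R : ℝ} (hr0 : (r0 : ℝ) / M ≤ R) (hr1 : R ≤ (r1 : ℝ) / M) {N : ℕ} (hN : 1 ≤ N)
    {w : Fin N → ℂ} (hw : ∀ k, 1 ≤ ‖w k‖) (ht : ∑ k, ‖w k - (R : ℂ)‖ ≤ N)
    (hma : (ma : ℝ) / 1024 ≤ (av (uu w)).re) (hmb : (av (uu w)).re ≤ (mb : ℝ) / 1024) :
    ∀ q ∈ lst, ∀ x ∈ Set.Icc ((X0 : ℝ) / 1024) ((q.1 : ℝ) / 1024),
      ‖qq (uu w) x‖ ≤ Real.exp (-(N * ((q.2.1 : ℝ) / 1024 * x ^ 2 / max 1 R +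
        (q.2.2.1 : ℝ) / 1024 * x * (av (uu w)).re -
        (q.2.2.2 : ℝ) / 1024 * x ^ 2 * (av (uu w)).re / max 1 R))) := by
  rintro ⟨X, c, g, k⟩ hq x ⟨hx0, hx1⟩
  unfold tabSOK at hc
  simp only [Bool.and_eq_true] at hc
  obtain ⟨⟨⟨c1, c2⟩, c3, _⟩, ⟨c5, c6⟩, c7⟩ := hc
  have c1 : 0 < M := Nat.blt_eq.mp c1
  have c2 : 0 < D := Nat.blt_eq.mp c2
  have c3 : 0 < r0 := Nat.blt_eq.mp c3
  obtain ⟨c8, c9⟩ := lstS_mem c5 hq
  have hM : (0 : ℝ) < M := by exact_mod_cast c1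
  have hD : (0 : ℝ) < D := by exact_mod_cast c2
  have hr0' : (0 : ℝ) < r0 := by exact_mod_cast c3
  have hRp : 0 < R := lt_of_lt_of_le (by positivity) hr0
  have hNp : (0 : ℝ) < N := by exact_mod_cast hN
  have hm : 0 < max 1 R := lt_of_lt_of_le one_pos (le_max_left _ _)
  simp only at hx1
  have hxl : x ≤ (lend : ℝ) / D * R := by
    refine hx1.trans ?_
    refine le_trans ?_ (mul_le_mul_of_nonneg_left hr0 (by positivity))
    rw [div_mul_div_comm, div_le_div_iff₀ (by norm_num) (by positivity)]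
    have : ((X * D * M : ℕ) : ℝ) ≤ ((lend * r0 * 1024 : ℕ) : ℝ) := by exact_mod_cast c9
    push_cast at this
    linarith only [this]
  have hxs : (n0.1 : ℝ) / D * R < x := by
    refine lt_of_le_of_lt (mul_le_mul_of_nonneg_left hr1 (by positivity)) (lt_of_lt_of_le ?_ hx0)
    rw [div_mul_div_comm, div_lt_div_iff₀ (by positivity) (by norm_num)]
    have : ((n0.1 * r1 * 1024 : ℕ) : ℝ) < ((X0 * D * M : ℕ) : ℝ) := by exact_mod_cast c8
    push_cast at this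
    linarith only [this]
  obtain ⟨n1, n2, p, g1, g2, g3, g4, g5, g6, g7⟩ :=
    chainS_sound c1 c2 hr0 hr1 rows n0 c0 c6 c7 hxs hxl
  have hp : (0 : ℝ) < p := by exact_mod_cast g3
  have hSp := S_pos
  rcases needS_mem g1 hq with gg | ⟨⟨e0a, e0b⟩, e1a, e1b⟩
  · exfalso
    have : ((X * D * M : ℕ) : ℝ) ≤ ((n1.1 * r0 * 1024 : ℕ) : ℝ) := by exact_mod_cast gg
    push_cast at this
    have h5 : (X : ℝ) / 1024 ≤ (n1.1 : ℝ) / D * R := by
      refine le_trans ?_ (mul_le_mul_of_nonneg_left hr0 (by positivity))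
      rw [div_mul_div_comm, div_le_div_iff₀ (by norm_num) (by positivity)]
      linarith only [this]
    linarith only [hx1, g4, h5]
  · obtain ⟨l1, a1, gp1, gn1, hp1, hn1⟩ := n1
    obtain ⟨l2, a2, gp2, gn2, hp2, hn2⟩ := n2
    simp only at g2 g4 g5 e0a e0b e1a e1b
    have E0 := end_all e0a e0b c1 c2 g3 hRp hr0 hr1 hma hmb
    have E1 := end_all e1a e1b c1 c2 g3 hRp hr0 hr1 hma hmb
    obtain ⟨α1, N1⟩ := g6
    obtain ⟨α2, N2⟩ := g7
    obtain ⟨m, hm'⟩ : ∃ m, m = (av (uu w)).re := ⟨_, rfl⟩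
    rw [← hm'] at E0 E1 hma hmb
    obtain ⟨x0, hx0'⟩ : ∃ x0 : ℝ, x0 = (l1 : ℝ) / D * R := ⟨_, rfl⟩
    obtain ⟨x1, hx1'⟩ : ∃ x1 : ℝ, x1 = (l2 : ℝ) / D * R := ⟨_, rfl⟩
    obtain ⟨ρ, hρ⟩ : ∃ ρ : ℝ, ρ = (p : ℝ) / 1024 := ⟨_, rfl⟩
    have hρp : 0 < ρ := by rw [hρ]; positivity
    rw [← hx0', ← hρ] at N1 E0
    rw [← hx1', ← hρ] at N2 E1
    rw [← hx0'] at g4
    rw [← hx1'] at g5
    have hx01 : x0 < x1 := lt_of_lt_of_le g4 g5
    have hd : 0 < x1 - x0 := by linarith only [g4, g5]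
    obtain ⟨t, ht'⟩ : ∃ t, t = (x - x0) / (x1 - x0) := ⟨_, rfl⟩
    have ht0 : 0 ≤ t := by
      rw [ht']
      exact div_nonneg (by linarith only [g4]) hd.le
    have ht1 : t ≤ 1 := by
      rw [ht', div_le_one hd]
      linarith only [g5]
    have hω : ‖(1 : ℂ)‖ = 1 := norm_one
    have ey0 : (x0 : ℂ) * 1 = ⟨x0, -0⟩ := by
      apply Complex.ext <;> simp
    have ey1 : (x1 : ℂ) * 1 = ⟨x1, -0⟩ := by
      apply Complex.ext <;> simp
    have key := NDual.qq_le hN hρp hx01.le N1 N2 hω ey0 ey1 hw ht ht0 ht1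
    have ex : (1 - t) * x0 + t * x1 = x := by
      rw [ht']
      field_simp
      ring
    have er : ru w 1 = uu w := by
      funext k
      unfold ru
      rw [one_mul]
    rw [ex, er] at key
    refine key.trans (Real.exp_le_exp.2 ?_)
    unfold VV
    simp only [zero_mul, add_zero]
    rw [← mul_neg, ← hm']
    apply mul_le_mul_of_nonneg_left _ hNp.le
    have hdl : ((l2 - l1 : ℕ) : ℝ) / D * R = x1 - x0 := by
      rw [Nat.cast_sub g2, hx0', hx1']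
      ring
    have hdk : (((l2 - l1 : ℕ) : ℝ) / D) ^ 2 * (R ^ 2 / max 1 R) = (x1 - x0) ^ 2 / max 1 R := by
      rw [← hdl, mul_pow, mul_div_assoc]
    rw [hdl, hdk] at E0 E1
    obtain ⟨q2, hq2⟩ : ∃ q2, q2 = (x1 - x0) ^ 2 / max 1 R := ⟨_, rfl⟩
    have hq20 : 0 ≤ q2 := by rw [hq2]; positivity
    rw [← hq2] at E0 E1
    obtain ⟨kl, hkl⟩ : ∃ kl : ℝ, kl = ((k * mb - 1024 * c : ℕ) : ℝ) / 1048576 := ⟨_, rfl⟩
    rw [← hkl] at E0 E1
    obtain ⟨c', hc'⟩ : ∃ c' : ℝ, c' = (c : ℝ) / 1024 := ⟨_, rfl⟩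
    obtain ⟨g', hg'⟩ : ∃ g' : ℝ, g' = (g : ℝ) / 1024 := ⟨_, rfl⟩
    obtain ⟨k', hk'⟩ : ∃ k' : ℝ, k' = (k : ℝ) / 1024 := ⟨_, rfl⟩
    have hk0 : 0 ≤ k' := by rw [hk']; positivity
    have hkl0 : 0 ≤ kl := by rw [hkl]; positivity
    have hkl1 : k' * m - c' ≤ kl := by
      rw [hkl, cast_tsub]
      have b1 : k' * m ≤ k' * (mb / 1024) := mul_le_mul_of_nonneg_left hmb hk0
      have b2 : k' * (mb / 1024) - c' = (((k * mb : ℕ) : ℝ) - ((1024 * c : ℕ) : ℝ)) / 1048576 := by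
        rw [hk', hc']
        push_cast
        ring
      have b3 : (((k * mb : ℕ) : ℝ) - ((1024 * c : ℕ) : ℝ)) / 1048576 ≤
          max (((k * mb : ℕ) : ℝ) - ((1024 * c : ℕ) : ℝ)) 0 / 1048576 :=
        div_le_div_of_nonneg_right (le_max_left _ _) (by norm_num)
      linarith only [b1, b2, b3]
    rw [← hc', ← hg', ← hk'] at E0 E1
    unfold TT at E0 E1
    have f1 : c' * x ^ 2 / max 1 R + g' * x * m - k' * x ^ 2 * m / max 1 R =
        (c' - k' * m) * (x ^ 2 / max 1 R) + g' * x * m := by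
      ring
    rw [← hc', ← hg', ← hk', f1]
    -- the chord
    have hx2 : x ^ 2 = (1 - t) * x0 ^ 2 + t * x1 ^ 2 - t * (1 - t) * (x1 - x0) ^ 2 := by
      rw [← ex]
      ring
    have hx3 : x ^ 2 / max 1 R = (1 - t) * (x0 ^ 2 / max 1 R) + t * (x1 ^ 2 / max 1 R) -
        t * (1 - t) * q2 := by
      rw [hx2, hq2]
      ring
    have ht4 : t * (1 - t) ≤ 1 / 4 := by linarith only [sq_nonneg (t - 1 / 2)]
    have ht5 : 0 ≤ t * (1 - t) := mul_nonneg ht0 (by linarith only [ht1])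
    have hl : t * (1 - t) * (x1 - x0) ^ 2 / (2 * ρ ^ 2) ≤ (x1 - x0) ^ 2 / (8 * ρ ^ 2) := by
      rw [div_le_div_iff₀ (by positivity) (by positivity)]
      have h4 := mul_le_mul_of_nonneg_right ht4 (mul_nonneg (sq_nonneg (x1 - x0)) (sq_nonneg ρ))
      linarith only [h4]
    have hcc : (k' * m - c') * (t * (1 - t) * q2) ≤ kl * q2 / 4 := by
      have h6 : (k' * m - c') * (t * (1 - t) * q2) ≤ kl * (t * (1 - t) * q2) :=
        mul_le_mul_of_nonneg_right hkl1 (mul_nonneg ht5 hq20)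
      have h7 : kl * (t * (1 - t) * q2) ≤ kl * (1 / 4 * q2) :=
        mul_le_mul_of_nonneg_left (mul_le_mul_of_nonneg_right ht4 hq20) hkl0
      linarith only [h6, h7]
    have f2 := mul_le_mul_of_nonneg_left E0 (by linarith only [ht1] : 0 ≤ 1 - t)
    have f3 := mul_le_mul_of_nonneg_left E1 ht0
    have f4 : (c' - k' * m) * (x ^ 2 / max 1 R) + g' * x * m =
        (1 - t) * ((c' - k' * m) * (x0 ^ 2 / max 1 R) + g' * x0 * m) +
        t * ((c' - k' * m) * (x1 ^ 2 / max 1 R) + g' * x1 * m) +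
        (k' * m - c') * (t * (1 - t) * q2) := by
      rw [hx3]
      nth_rewrite 1 [← ex]
      ring
    rw [f4]
    linarith only [hl, hcc, f2, f3]

/-- **lines**: `mₐ = 0`, `m_b = 1024`, `k = 0`; no hypothesis on `m₁` -/
theorem tabL_sound {M D r0 r1 X0 c0 lend : ℕ} {n0 : Nd} {lst : List (ℕ × ℕ × ℕ × ℕ)}
    {rows : List (Nd × ℕ × ℕ)} (hc : tabSOK M D r0 r1 0 1024 X0 n0 c0 lend lst rows = true)
    {R : ℝ} (hr0 : (r0 : ℝ) / M ≤ R) (hr1 : R ≤ (r1 : ℝ) / M) (hR : 0 < R) {N : ℕ} (hN : 1 ≤ N)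
    {w : Fin N → ℂ} (hw : ∀ k, 1 ≤ ‖w k‖) (ht : ∑ k, ‖w k - (R : ℂ)‖ ≤ N) {X c g : ℕ}
    (hq : (X, c, g, 0) ∈ lst) {x : ℝ} (hx0 : (X0 : ℝ) / 1024 ≤ x) (hx1 : x ≤ (X : ℝ) / 1024) :
    ‖qq (uu w) x‖ ≤ Real.exp (-(N * ((c : ℝ) / 1024 * x ^ 2 / max 1 R +
      (g : ℝ) / 1024 * x * (av (uu w)).re))) := by
  have h0 := H81.m1_nonneg hN hw ht hR
  have h1 : (av (uu w)).re ≤ 1 := by
    have hNp : (0 : ℝ) < N := by exact_mod_cast hN
    have e := H81.av_re hN (uu w)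
    have h2 : ∑ k, (uu w k).re ≤ ∑ _k : Fin N, (1 : ℝ) := by
      apply Finset.sum_le_sum
      intro k _
      refine (Complex.re_le_norm _).trans ?_
      have : uu w k = (w k)⁻¹ := rfl
      rw [this, norm_inv]
      exact inv_le_one_of_one_le₀ (hw k)
    rw [e] at h2
    simp only [Finset.sum_const, Finset.card_univ, Fintype.card_fin, nsmul_eq_mul] at h2
    exact le_of_mul_le_mul_left h2 hNp
  have key := tabS_sound hc hr0 hr1 hN hw ht (by simpa using h0) (by norm_num; exact h1)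
    (X, c, g, 0) hq x ⟨hx0, hx1⟩
  refine key.trans (le_of_eq ?_)
  congr 2
  simp

end Pool.Agent.Lib.MP_af3a4a_an.P1.CHK.H39.TabS
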